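import Pool.Agent.CE.SqB
import Pool.Agent.H37.TM.MDefs

/-!
# Project CE, step 1: exactness of the controlled functions in the low degrees
-/

set_option autoImplicit false
set_option linter.unusedSectionVars false

open Finset Pointwise
open scoped TensorProduct

noncomputable section

namespace Pool.Agent.CE

open Pool.Agent.S11 Pool.Agent.H10.CI
open Pool.Agent.H37.TM (Rel IsCob)

section

variable {H Λ U : Type} [Group H] [Group Λ] [DecidableEq U] [MulAction Λ U] {f : H → Λ} {K B : Set (Finset U)} {q : ℕ}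

/-- the coboundary of a coboundary -/
theorem cobQ_cobQ (h : Crs f K B) {c : Finset U → ZMod 2} (hc : ∀ s, c s ≠ 0 → s ∈ K ∧ s ∉ B ∧ s.card = q) (t : Finset U) :
    cobQ K B (q + 1 + 1) (cobQ K B (q + 1) c) t = 0 := by
  classical
  by_contra h0
  obtain ⟨⟨ht1, ht2, ht3⟩, -⟩ := cobQ_supp h0
  apply h0
  rw [cobQ_of _ ht1 ht2 ht3]
  have h1 : ∀ v ∈ t, cobQ K B (q + 1) c (t.erase v) = ∑ w ∈ t.erase v, c ((t.erase v).erase w) := by
    intro v hv
    have hcard : (t.erase v).card = q + 1 := by
      rw [card_erase_of_mem hv, ht3]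
      rfl
    have hne : (t.erase v).Nonempty := card_pos.1 (by omega)
    have h2 := h.down t ht1 _ (erase_subset v t) hne
    by_cases h3 : t.erase v ∈ B
    · have h4 : cobQ K B (q + 1) c (t.erase v) = 0 := by
        unfold cobQ
        rw [if_neg fun h5 => h5.2.1 h3]
      rw [h4]
      symm
      refine sum_eq_zero fun w hw => ?_
      by_contra h5
      obtain ⟨h6, h7, -⟩ := hc _ h5
      exact h7 (h.bd_down _ h3 _ (erase_subset _ _) (h.ne _ h6))
    · exact cobQ_of _ h2 h3 hcard
  rw [sum_congr rfl h1, sum_sum_erase]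

/-- the translate of a value to the base point -/
theorem back_supp (h : Crs f K B) (c : PC f K B q) {F : Finset (Finset U)}
    (hF : ∀ g s, c.1 g s ≠ 0 → ∃ t ∈ F, s = f g • t) {g : H} {t : Finset U} (ht : c.1 g (f g • t) ≠ 0) :
    t ∈ F ∧ t ∈ K ∧ t ∉ B ∧ t.card = q := by
  obtain ⟨t', h1, h2⟩ := hF g _ ht
  obtain ⟨h3, h4, h5⟩ := PC_supp c ht
  refine ⟨?_, (h.mem_iff _ _).1 h3, fun h6 => h4 ((h.memB_iff _ _).2 h6), ?_⟩
  · rw [smul_left_cancel _ h2]
    exact h1
  · rwa [card_smul_finset] at h5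

/-- **Exactness of the controlled functions** -/
theorem dP_exact (h : Crs f K B) (q : ℕ)
    (hex : ∀ u : Finset U →₀ ZMod 2, Rel K B ∅ (q + 1) u → IsCob K B ∅ u 0 →
      ∃ v : Finset U →₀ ZMod 2, Rel K B ∅ q v ∧ IsCob K B ∅ v u) :
    Function.Exact (dP h q (q + 1)) (dP h (q + 1) (q + 1 + 1)) := by
  classical
  intro c
  constructor
  · intro hc
    obtain ⟨F, hF⟩ := PC_fin c
    -- the finitely many values at the base point
    let z : (F → ZMod 2) → (Finset U →₀ ZMod 2) := fun e =>
      Finsupp.onFinset F (fun t => if ht : t ∈ F then e ⟨t, ht⟩ else 0) fun t ht => by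
        by_contra h1
        exact ht (dif_neg h1)
    let e : H → F → ZMod 2 := fun g t => c.1 g (f g • t.1)
    have hz : ∀ g t, z (e g) t = c.1 g (f g • t) := by
      intro g t
      show (if ht : t ∈ F then c.1 g (f g • t) else 0) = _
      split_ifs with ht
      · rfl
      · by_contra h1
        exact ht (back_supp h c hF (Ne.symm h1)).1
    have hpr : ∀ e' : F → ZMod 2, ∃ v : Finset U →₀ ZMod 2, (∀ s, v s ≠ 0 → s ∈ K ∧ s ∉ B ∧ s.card = q) ∧
        ∀ g : H, e g = e' → ∀ t ∈ K, t ∉ B → ∑ w ∈ t, v (t.erase w) = c.1 g (f g • t) := by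
      intro e'
      by_cases h1 : ∃ g : H, e g = e'
      · obtain ⟨g, rfl⟩ := h1
        obtain ⟨v, h2, h3⟩ := hex (z (e g)) (fun t ht => by
            rw [hz] at ht
            obtain ⟨-, h4, h5, h6⟩ := back_supp h c hF ht
            exact ⟨h4, h5, empty_subset _, h6⟩) (fun t ht ht' _ => by
            rw [sdiff_empty, Pi.zero_apply]
            by_cases h4 : t.card = q + 1 + 1
            · have h5 : (dP h (q + 1) (q + 1 + 1) c).1 g (f g • t) = 0 := by rw [hc]; rfl
              rw [dP_apply, cobQ_of _ ((h.mem_iff _ _).2 ht) (fun h6 => ht' ((h.memB_iff _ _).1 h6))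
                (by rw [card_smul_finset]; exact h4), sum_smul_set] at h5
              rw [← h5]
              refine sum_congr rfl fun w _ => ?_
              rw [hz, erase_smul]
            · refine sum_eq_zero fun w hw => ?_
              rw [hz]
              by_contra h5
              obtain ⟨-, -, -, h6⟩ := back_supp h c hF h5
              rw [card_erase_of_mem hw] at h6
              have := card_pos.2 ⟨w, hw⟩
              omega)
        refine ⟨v, fun s hs => ?_, fun g' hg' t ht ht' => ?_⟩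
        · obtain ⟨h4, h5, -, h6⟩ := h2 s hs
          exact ⟨h4, h5, h6⟩
        · have h4 := h3 t ht ht' (empty_subset _)
          rw [sdiff_empty, ← hg', hz] at h4
          exact h4
      · exact ⟨0, fun s hs => absurd rfl hs, fun g hg => absurd ⟨g, hg⟩ h1⟩
    choose v hv1 hv2 using hpr
    refine ⟨⟨fun g s => v (e g) ((f g)⁻¹ • s), fun g s hs => ?_, univ.biUnion fun e' => (v e').support, fun g s hs => ?_⟩, ?_⟩
    · obtain ⟨h1, h2, h3⟩ := hv1 _ _ hs
      refine ⟨(h.mem_iff _ _).1 h1, fun h4 => h2 ((h.memB_iff _ _).2 h4), ?_⟩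
      rwa [card_smul_finset] at h3
    · exact ⟨(f g)⁻¹ • s, mem_biUnion.2 ⟨e g, mem_univ _, Finsupp.mem_support_iff.2 hs⟩, (smul_inv_smul _ _).symm⟩
    · refine Subtype.ext ?_
      funext g s
      rw [dP_apply]
      by_cases h1 : s ∈ K ∧ s ∉ B ∧ s.card = q + 1
      · rw [cobQ_of _ h1.1 h1.2.1 h1.2.2]
        have h2 := hv2 (e g) g rfl ((f g)⁻¹ • s) ((h.mem_iff _ _).2 h1.1) fun h3 => h1.2.1 ((h.memB_iff _ _).1 h3)
        rw [smul_inv_smul, sum_smul_set] at h2
        rw [← h2]
        exact sum_congr rfl fun w _ => by rw [erase_smul]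
      · have h2 : c.1 g s = 0 := by
          by_contra h3
          exact h1 (PC_supp c h3)
        rw [h2]
        unfold cobQ
        rw [if_neg h1]
  · rintro ⟨y, rfl⟩
    refine Subtype.ext ?_
    funext g t
    exact cobQ_cobQ h (fun s hs => PC_supp y hs) t

end

end Pool.Agent.CE
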