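import Pool.Agent.CE.ThK
import Pool.Agent.CE.PEx
import Pool.Agent.S11.EdC0

/-!
# Project CE, step 5: flat representations give exact complexes of controlled cochains
-/

set_option autoImplicit false
set_option linter.unusedSectionVars false

open Finset Pointwise
open scoped TensorProduct

noncomputable section

namespace Pool.Agent.CE

open Pool.Agent.S11 Pool.Agent.H10.CI
open Pool.Agent.H37.TM (Rel IsCob)

section

variable {H Λ U : Type} [Group H] [Group Λ] [DecidableEq U] [MulAction Λ U] {f : H → Λ} {K B : Set (Finset U)} {q : ℕ}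
  {W : Type} [AddCommGroup W] [Module (ZMod 2) W]

/-- coboundaries are unique -/
theorem isCb_unique {ρ : H →* Module.End (ZMod 2) W} {a b : ℕ} {c e e' : Finset U → W} (h1 : IsCb K B c e)
    (h2 : IsCb K B c e') (he : Ctl f K B ρ a e) (he' : Ctl f K B ρ b e') : e = e' := by
  funext t
  by_cases ht : t ∈ K ∧ t ∉ B
  · rw [← h1 t ht.1 ht.2, ← h2 t ht.1 ht.2]
  · have h3 : e t = 0 := by
      by_contra h3
      exact ht ⟨(he.supp t h3).1, (he.supp t h3).2.1⟩
    have h4 : e' t = 0 := by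
      by_contra h4
      exact ht ⟨(he'.supp t h4).1, (he'.supp t h4).2.1⟩
    rw [h3, h4]

/-- **Flat representations give exact complexes of controlled cochains.** -/
theorem ctlExact_of_flat (h : Crs f K B) {τ : Representation (ZMod 2) H W} (hτ : Flat τ) (q : ℕ)
    (hex : ∀ u : Finset U →₀ ZMod 2, Rel K B ∅ (q + 1) u → IsCob K B ∅ u 0 →
      ∃ v : Finset U →₀ ZMod 2, Rel K B ∅ q v ∧ IsCob K B ∅ v u) :
    CtlExact f K B τ q := by
  intro c hc1 hc2
  obtain ⟨x, rfl⟩ := theta_surj h τ hc1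
  have h1 : (dP h (q + 1) (q + 1 + 1)).rTensor W x ∈ Kr ((PR h (q + 1 + 1)).tprod τ) ⊤ := by
    refine Kr_of_theta h τ ?_
    exact isCb_unique (isCb_theta h τ x) hc2 (ctl_theta h τ _) (Ctl.zero (q + 1 + 1))
  obtain ⟨u, hu⟩ := hτ.exact (ρ := PR h q) (ρ' := PR h (q + 1)) (ρ'' := PR h (q + 1 + 1)) (f := dP h q (q + 1))
    (p := dP h (q + 1) (q + 1 + 1)) (fun g x => dP_smul h _ _ g x) (fun g x => dP_smul h _ _ g x) (dP_exact h q hex) h1
  refine ⟨theta h τ q u, ctl_theta h τ u, ?_⟩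
  have h2 := theta_Kr h τ hu
  rw [map_sub, sub_eq_zero] at h2
  rw [h2]
  exact isCb_theta h τ u

/-- **From controlled cochains to coinvariants.** -/
theorem exR_of_ctl (h : Crs f K B) (τ : Representation (ZMod 2) H W) {q : ℕ} (hex : CtlExact f K B τ q) :
    ExR τ (PR h (q + 1)) (PR h (q + 1 + 1)) (dP h q (q + 1)) (dP h (q + 1) (q + 1 + 1)) := by
  intro x hx
  have h2 := isCb_theta h τ x
  rw [theta_Kr h τ hx] at h2
  obtain ⟨b, hb1, hb2⟩ := hex _ (ctl_theta h τ x) h2
  obtain ⟨y, rfl⟩ := theta_surj h τ hb1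
  refine ⟨y, Kr_of_theta h τ ?_⟩
  rw [map_sub, sub_eq_zero]
  exact isCb_unique hb2 (isCb_theta h τ y) (ctl_theta h τ x) (ctl_theta h τ _)

end

end Pool.Agent.CE
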