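import Pool.Agent.CE.Defs

/-!
# Project CE: flat representations and tensor products

`A ⊗ (M ⊗ N) = (A ⊗ N) ⊗ M`, and `(D ⊗ N) ⊗ (D ⊗ N) = (D ⊗ D) ⊗ (N ⊗ N)`.
-/

set_option autoImplicit false
set_option linter.unusedSectionVars false

open scoped TensorProduct

noncomputable section

namespace Pool.Agent.CE

open Pool.Agent.S11

section

variable {H : Type} [Group H] {M : Type} [AddCommGroup M] [Module (ZMod 2) M] {N : Type} [AddCommGroup N]
  [Module (ZMod 2) N]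

/-- transport along an equivariant equivalence -/
theorem Flat.of_equiv {M' : Type} [AddCommGroup M'] [Module (ZMod 2) M'] {τ : Representation (ZMod 2) H M}
    {τ' : Representation (ZMod 2) H M'} (h : Flat τ) (i : M' ≃ₗ[ZMod 2] M) (hi : ∀ g m, i (τ' g m) = τ g (i m)) :
    Flat τ' :=
  h.of_retract (i : M' →ₗ[ZMod 2] M) (i.symm : M →ₗ[ZMod 2] M') hi (fun g m => by
    show i.symm (τ g m) = τ' g (i.symm m)
    rw [LinearEquiv.symm_apply_eq, hi, LinearEquiv.apply_symm_apply]) (fun m => i.symm_apply_apply m)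

/-- the equivalence `A ⊗ (M ⊗ N) = (A ⊗ N) ⊗ M` -/
private def ftE (A M N : Type) [AddCommGroup A] [Module (ZMod 2) A] [AddCommGroup M] [Module (ZMod 2) M]
    [AddCommGroup N] [Module (ZMod 2) N] : A ⊗[ZMod 2] (M ⊗[ZMod 2] N) ≃ₗ[ZMod 2] (A ⊗[ZMod 2] N) ⊗[ZMod 2] M :=
  (LinearEquiv.lTensor A (TensorProduct.comm (ZMod 2) M N)).trans (TensorProduct.assoc (ZMod 2) A N M).symm

private theorem ftE_tmul {A : Type} [AddCommGroup A] [Module (ZMod 2) A] (a : A) (m : M) (n : N) :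
    ftE A M N (a ⊗ₜ[ZMod 2] (m ⊗ₜ[ZMod 2] n)) = (a ⊗ₜ[ZMod 2] n) ⊗ₜ[ZMod 2] m := rfl

private theorem ftE_ext {A Z : Type} [AddCommGroup A] [Module (ZMod 2) A] [AddCommGroup Z] [Module (ZMod 2) Z]
    {u v : A ⊗[ZMod 2] (M ⊗[ZMod 2] N) →ₗ[ZMod 2] Z}
    (h : ∀ a m n, u (a ⊗ₜ[ZMod 2] (m ⊗ₜ[ZMod 2] n)) = v (a ⊗ₜ[ZMod 2] (m ⊗ₜ[ZMod 2] n))) : u = v := by
  refine LinearMap.ext fun t => ?_
  induction t with
  | zero => rw [map_zero, map_zero]
  | add x y hx hy => rw [map_add, map_add, hx, hy]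
  | tmul a w =>
    induction w with
    | zero => rw [TensorProduct.tmul_zero, map_zero, map_zero]
    | add x y hx hy => rw [TensorProduct.tmul_add, map_add, map_add, hx, hy]
    | tmul m n => exact h a m n

private theorem ftE_smul (τ : Representation (ZMod 2) H M) (σ : Representation (ZMod 2) H N) {A : Type}
    [AddCommGroup A] [Module (ZMod 2) A] (α : Representation (ZMod 2) H A) (g : H)
    (t : A ⊗[ZMod 2] (M ⊗[ZMod 2] N)) :
    ftE A M N ((α.tprod (τ.tprod σ)) g t) = ((α.tprod σ).tprod τ) g (ftE A M N t) :=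
  LinearMap.congr_fun (ftE_ext (u := (ftE A M N : _ →ₗ[ZMod 2] _) ∘ₗ (α.tprod (τ.tprod σ)) g)
    (v := ((α.tprod σ).tprod τ) g ∘ₗ (ftE A M N : _ →ₗ[ZMod 2] _)) fun _ _ _ => rfl) t

/-- **A flat representation tensored with any representation is flat.** -/
theorem flat_tprod {τ : Representation (ZMod 2) H M} (h : Flat τ) (σ : Representation (ZMod 2) H N) :
    Flat (τ.tprod σ) := by
  intro X X' _ _ _ _ ρ ρ' f hf hinj t ht
  have h1 : ftE X' M N (f.rTensor (M ⊗[ZMod 2] N) t) = (f.rTensor N).rTensor M (ftE X M N t) :=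
    LinearMap.congr_fun (ftE_ext (u := (ftE X' M N : _ →ₗ[ZMod 2] _) ∘ₗ f.rTensor (M ⊗[ZMod 2] N))
      (v := (f.rTensor N).rTensor M ∘ₗ (ftE X M N : _ →ₗ[ZMod 2] _)) fun _ _ _ => rfl) t
  have h2 : ftE X' M N (f.rTensor (M ⊗[ZMod 2] N) t) ∈ Kr ((ρ'.tprod σ).tprod τ) ⊤ :=
    Kr_map (τ := ρ'.tprod (τ.tprod σ)) (ρ := (ρ'.tprod σ).tprod τ) (f := (ftE X' M N : _ →ₗ[ZMod 2] _))
      (fun j _ t => ftE_smul τ σ ρ' j t) ht
  rw [h1] at h2
  have h3 := h (X ⊗[ZMod 2] N) (X' ⊗[ZMod 2] N) (ρ.tprod σ) (ρ'.tprod σ) (f.rTensor N)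
    (fun g x => rTensor_tprod σ hf g x) (Module.Flat.rTensor_preserves_injective_linearMap (M := N) f hinj) _ h2
  have h4 : (ftE X M N).symm (ftE X M N t) ∈ Kr (ρ.tprod (τ.tprod σ)) ⊤ :=
    Kr_map (τ := (ρ.tprod σ).tprod τ) (ρ := ρ.tprod (τ.tprod σ)) (f := ((ftE X M N).symm : _ →ₗ[ZMod 2] _))
      (fun j _ t => by
        show (ftE X M N).symm (((ρ.tprod σ).tprod τ) j t) = (ρ.tprod (τ.tprod σ)) j ((ftE X M N).symm t)
        rw [LinearEquiv.symm_apply_eq, ftE_smul, LinearEquiv.apply_symm_apply]) h3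
  rwa [LinearEquiv.symm_apply_apply] at h4

/-- **The square of `D ⊗ Y` is flat if the square of `D` is flat.** -/
theorem flat_sq {δ : Representation (ZMod 2) H M} {σ : Representation (ZMod 2) H N} (h : Flat (δ.tprod δ)) :
    Flat (tp (δ.tprod σ)) := by
  refine Flat.of_equiv (flat_tprod h (σ.tprod σ)) (TensorProduct.tensorTensorTensorComm (ZMod 2) M N M N)
    fun g t => ?_
  have h1 : (TensorProduct.tensorTensorTensorComm (ZMod 2) M N M N : _ →ₗ[ZMod 2] _) ∘ₗ tp (δ.tprod σ) g =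
      ((δ.tprod δ).tprod (σ.tprod σ)) g ∘ₗ (TensorProduct.tensorTensorTensorComm (ZMod 2) M N M N : _ →ₗ[ZMod 2] _) := by
    refine TensorProduct.ext_fourfold' ?_
    intro a b c d
    rfl
  exact LinearMap.congr_fun h1 t

end

end Pool.Agent.CE
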