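import Pool.Agent.CE.SqB

/-!
# Project CE, step 4: the square lemma for controlled cochains

Copies of the last part of `S11/SqC` and of `S11/SqMain`; the order of the vertices need not be invariant.
-/

set_option autoImplicit false
set_option linter.unusedSectionVars false

open Finset Pointwise
open scoped TensorProduct

noncomputable section

namespace Pool.Agent.CE

open Pool.Agent.S11 Pool.Agent.H10.CI

variable {H Λ U : Type} [Group H] [Group Λ] [DecidableEq U] [MulAction Λ U] {f : H → Λ} {K B : Set (Finset U)}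
  {r : U → U → Prop} {V : Type} [AddCommGroup V] [Module (ZMod 2) V] {ρ : H →* Module.End (ZMod 2) V}

/-- the cup products of a controlled cochain with itself -/
theorem Ctl.cupR (h : Crs f K B) {q : ℕ} {a : Finset U → V} (ha : Ctl f K B ρ q a) {m l : ℕ} (hl : l + m = 2 * q) :
    Ctl f K B (tp ρ) l (Pool.Agent.S11.cupR K B r m a) where
  supp := by
    intro s hs
    unfold Pool.Agent.S11.cupR at hs
    split_ifs at hs with h1
    · obtain ⟨N, hN, hN'⟩ := exists_ne_zero_of_sum_ne_zero hs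
      rw [mem_powersetCard] at hN
      have h2 : a (f1 r N s) ≠ 0 := fun h0 => hN' (by rw [h0, TensorProduct.zero_tmul])
      have h3 : a (f2 r N s) ≠ 0 := fun h0 => hN' (by rw [h0, TensorProduct.tmul_zero])
      have h4 := card_faces r hN.1
      rw [(ha.supp _ h2).2.2, (ha.supp _ h3).2.2, hN.2] at h4
      exact ⟨h1.1, h1.2, by omega⟩
    · exact absurd rfl hs
  fin := by
    obtain ⟨S, hS⟩ := ha.near_sup h
    refine ⟨S, fun s hs => ?_⟩
    unfold Pool.Agent.S11.cupR at hs
    split_ifs at hs with h1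
    · obtain ⟨N, hN, hN'⟩ := exists_ne_zero_of_sum_ne_zero hs
      have h3 : a (f1 r N s) ≠ 0 := fun h0 => hN' (by rw [h0, TensorProduct.zero_tmul])
      exact hS _ s h3 (f1_subset _ _ _) h1.1
    · exact absurd rfl hs
  val := by
    intro t
    classical
    refine val_of_fr (ρ := tp ρ) (c := Pool.Agent.S11.cupR K B r m a) ?_
    have h1 : ∀ g : H, tp ρ g⁻¹ (Pool.Agent.S11.cupR K B r m a (f g • t)) =
        if t ∈ K ∧ t ∉ B then ∑ N ∈ t.powersetCard m,
          (ρ g⁻¹ (a (f g • (f g)⁻¹ • f1 r (f g • N) (f g • t)))) ⊗ₜ[ZMod 2]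
            (ρ g⁻¹ (a (f g • (f g)⁻¹ • f2 r (f g • N) (f g • t)))) else 0 := by
      intro g
      by_cases h1 : t ∈ K ∧ t ∉ B
      · rw [cupR_eq ((h.mem_iff _ _).2 h1.1) (fun h2 => h1.2 ((h.memB_iff _ _).1 h2)), if_pos h1]
        unfold cupL
        have h2 : (f g • t).powersetCard m = (t.powersetCard m).image (f g • ·) := by
          ext N
          rw [mem_powersetCard, mem_image]
          constructor
          · rintro ⟨h1, h2⟩
            refine ⟨(f g)⁻¹ • N, mem_powersetCard.2 ⟨?_, ?_⟩, smul_inv_smul (f g) N⟩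
            · rw [← smul_finset_subset_smul_finset_iff (a := f g), smul_inv_smul]
              exact h1
            · rw [card_smul_finset]
              exact h2
          · rintro ⟨N', h1, rfl⟩
            rw [mem_powersetCard] at h1
            exact ⟨smul_finset_subset_smul_finset h1.1, by rw [card_smul_finset]; exact h1.2⟩
        rw [h2, sum_image (fun a _ b _ hab => smul_left_cancel (f g) hab), map_sum]
        refine sum_congr rfl fun N _ => ?_
        rw [smul_inv_smul, smul_inv_smul, tp_tmul]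
      · have h2 : ¬ (f g • t ∈ K ∧ f g • t ∉ B) := by
          rwa [h.mem_iff, h.memB_iff]
        unfold Pool.Agent.S11.cupR
        rw [if_neg h1, if_neg h2, map_zero]
    simp only [h1]
    refine FR.ite (FR.sum _ fun N _ => ?_) (FR.const 0) _
    refine FR.map₂ ?_ ?_ (fun u v => u ⊗ₜ[ZMod 2] v)
    · refine ha.val_mem (S := (t.powerset : Set (Finset U))) (t.powerset.finite_toSet)
        (t := fun g => (f g)⁻¹ • f1 r (f g • N) (f g • t)) fun g => ?_
      rw [mem_coe, mem_powerset, ← smul_finset_subset_smul_finset_iff (a := f g), smul_inv_smul]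
      exact f1_subset _ _ _
    · refine ha.val_mem (S := (t.powerset : Set (Finset U))) (t.powerset.finite_toSet)
        (t := fun g => (f g)⁻¹ • f2 r (f g • N) (f g • t)) fun g => ?_
      rw [mem_coe, mem_powerset, ← smul_finset_subset_smul_finset_iff (a := f g), smul_inv_smul]
      exact f2_subset _ _ _

/-- the coboundary of a cocycle vanishes on all faces of a simplex -/
theorem ctl_cobW_eq_zero (h : Crs f K B) {q : ℕ} {a : Finset U → V} (ha : Ctl f K B ρ q a) (hz : IsCb K B a 0)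
    {s t : Finset U} (hs : s ∈ K) (hts : t ⊆ s) : cobW a t = 0 := by
  rcases t.eq_empty_or_nonempty with rfl | h0
  · rfl
  · have h1 := h.down s hs t hts h0
    by_cases h2 : t ∈ B
    · exact ha.sum_of_mem_B h h2
    · exact hz t h1 h2

/-- the coboundary of the relative cup product of order `m` of a cocycle -/
theorem ctl_isCb_cupR (h : Crs f K B) (hr : ∀ s ∈ K, TotOn r s) {q : ℕ} {a : Finset U → V} (ha : Ctl f K B ρ q a)
    (hz : IsCb K B a 0) (m : ℕ) :
    IsCb K B (Pool.Agent.S11.cupR K B r (m + 1) a) (Pool.Agent.S11.cupR K B r m a + fun s => sw (Pool.Agent.S11.cupR K B r m a s)) := by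
  intro t ht1 ht2
  have h1 : ∀ v ∈ t, Pool.Agent.S11.cupR K B r (m + 1) a (t.erase v) = cupL r (m + 1) a a (t.erase v) := by
    intro v hv
    rcases (t.erase v).eq_empty_or_nonempty with h0 | h0
    · rw [h0]
      unfold Pool.Agent.S11.cupR
      rw [if_neg fun h3 => absurd (h.ne _ h3.1) (by simp)]
      symm
      unfold cupL
      refine sum_eq_zero fun N _ => ?_
      have h4 : f1 r N ∅ = ∅ := rfl
      rw [h4, ha.empty h.ne, TensorProduct.zero_tmul]
    · have h2 := h.down t ht1 _ (erase_subset v t) h0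
      by_cases h3 : t.erase v ∈ B
      · unfold Pool.Agent.S11.cupR
        rw [if_neg fun h4 => h4.2 h3]
        symm
        unfold cupL
        refine sum_eq_zero fun N _ => ?_
        have h5 : a (f1 r N (t.erase v)) = 0 := by
          by_contra h6
          obtain ⟨h7, h8, -⟩ := ha.supp _ h6
          exact h8 (h.bd_down _ h3 _ (f1_subset _ _ _) (h.ne _ h7))
        rw [h5, TensorProduct.zero_tmul]
      · exact cupR_eq h2 h3
  rw [sum_congr rfl h1]
  have h2 := cob_cupL m a a (hr t ht1)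
  unfold cobW at h2
  rw [h2]
  have h3 : cupL r (m + 1) (fun s => ∑ v ∈ s, a (s.erase v)) a t = 0 := by
    unfold cupL
    refine sum_eq_zero fun N _ => ?_
    have h4 : cobW a (f1 r N t) = 0 := ctl_cobW_eq_zero h ha hz ht1 (f1_subset _ _ _)
    show cobW a (f1 r N t) ⊗ₜ[ZMod 2] _ = 0
    rw [h4, TensorProduct.zero_tmul]
  have h4 : cupL r (m + 1) a (fun s => ∑ v ∈ s, a (s.erase v)) t = 0 := by
    unfold cupL
    refine sum_eq_zero fun N _ => ?_
    have h4 : cobW a (f2 r N t) = 0 := ctl_cobW_eq_zero h ha hz ht1 (f2_subset _ _ _)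
    show _ ⊗ₜ[ZMod 2] cobW a (f2 r N t) = 0
    rw [h4, TensorProduct.tmul_zero]
  rw [h3, h4, add_zero, zero_add, Pi.add_apply, cupR_eq ht1 ht2]

theorem Ctl.onePlus {q : ℕ} {x : Finset U → V ⊗[ZMod 2] V} (hx : Ctl f K B (tp ρ) q x) :
    Ctl f K B (tp ρ) q (fun s => Pool.Agent.S11.onePlus (x s)) := hx.map _ (map_zero _) fun g s => onePlus_tp g (x s)

section

variable (h : Crs f K B) (δ : V ⊗[ZMod 2] V →ₗ[ZMod 2] V) (hδ1 : ∀ v, δ (v ⊗ₜ[ZMod 2] v) = v)
  (hδ2 : ∀ x ∈ (Alt : Submodule (ZMod 2) (V ⊗[ZMod 2] V)), δ x = 0)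
  (hδ3 : ∀ x, sw x = x → x + δ x ⊗ₜ[ZMod 2] δ x ∈ (Alt : Submodule (ZMod 2) (V ⊗[ZMod 2] V)))

include h hδ1 hδ2 hδ3

/-- symmetric cocycles of degree at most `j` are coboundaries of symmetric cochains -/
theorem ctl_sym_exact {j : ℕ} (H : ∀ q ≤ j, CtlExact f K B (tp ρ) q) (hV : ∀ q < j, CtlExact f K B ρ q) :
    ∀ d ≤ j, ∀ z : Finset U → V ⊗[ZMod 2] V, Ctl f K B (tp ρ) (d + 1) z → (∀ s, sw (z s) = z s) → IsCb K B z 0 →
      ∃ x, Ctl f K B (tp ρ) d x ∧ (∀ s, sw (x s) = x s) ∧ IsCb K B x z := by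
  intro d
  induction d with
  | zero =>
    intro _ z hz1 _ hz3
    obtain ⟨x, hx1, hx2⟩ := H 0 (by omega) z hz1 hz3
    refine ⟨x, hx1, fun s => ?_, hx2⟩
    rw [hx1.eq_zero h.ne s, map_zero]
  | succ e ih =>
    intro hd z hz1 hz2 hz3
    obtain ⟨x, hx1, hx2⟩ := H (e + 1) hd z hz1 hz3
    -- `w = (1 + T) x`
    have hw1 : Ctl f K B (tp ρ) (e + 1) (fun s => onePlus (x s)) := hx1.onePlus
    have hw2 : IsCb K B (fun s => onePlus (x s)) 0 := by
      intro t h1 h2
      rw [hx2.onePlus t h1 h2]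
      show onePlus (z t) = 0
      rw [onePlus_apply, hz2, add_self_tt]
    have hw3 : ∀ s, sw (onePlus (x s)) = onePlus (x s) := fun s => alt_sym ⟨x s, rfl⟩
    obtain ⟨x₁, h1, h2, h3⟩ := ih (by omega) _ hw1 hw3 hw2
    -- it is enough to find `y`
    suffices hy : ∃ y : Finset U → V ⊗[ZMod 2] V, Ctl f K B (tp ρ) e y ∧ IsCb K B (fun s => onePlus (y s)) fun s => onePlus (x s) by
      obtain ⟨y, hy1, hy2⟩ := hy
      have hy3 := hy1.cb h
      refine ⟨x + cbK K B y, hx1.add hy3, fun s => ?_, ?_⟩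
      · by_cases hs : s ∈ K ∧ s ∉ B
        · have h4 := hy2 s hs.1 hs.2
          have h5 : onePlus (cbK K B y s) = onePlus (x s) := by
            rw [cbK_eq hs.1 hs.2, map_sum]
            exact h4
          have h6 : onePlus (x s + cbK K B y s) = 0 := by
            rw [map_add, h5, add_self_tt]
          exact eq_of_add h6
        · have h4 : x s = 0 := by
            by_contra h4
            exact hs ⟨(hx1.supp s h4).1, (hx1.supp s h4).2.1⟩
          have h5 : cbK K B y s = 0 := if_neg hs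
          rw [Pi.add_apply, h4, h5, add_zero, map_zero]
      · have h4 := hx2.add (ctl_cb_cb h hy1 hy3 (isCb_cbK y))
        rwa [add_zero] at h4
    rcases e with _ | k
    · -- `x₁ = 0`
      refine ⟨x₁, h1, fun t h4 h5 => ?_⟩
      rw [← h3 t h4 h5]
      refine sum_congr rfl fun v _ => ?_
      show onePlus (x₁ (t.erase v)) = x₁ (t.erase v)
      rw [h1.eq_zero h.ne, map_zero]
    · -- the diagonal part of `x₁`
      have h4 : Ctl f K B ρ (k + 1) (fun s => δ (x₁ s)) := h1.map _ (map_zero _) fun g s => diag_tp δ hδ1 hδ2 hδ3 g (h2 s)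
      have h5 : IsCb K B (fun s => δ (x₁ s)) 0 := by
        intro t h6 h7
        rw [h3.map δ t h6 h7]
        exact hδ2 _ ⟨x t, rfl⟩
      obtain ⟨e', h6, h7⟩ := hV k (by omega) _ h4 h5
      have h8 : Ctl f K B (tp ρ) k (fun s => e' s ⊗ₜ[ZMod 2] e' s) :=
        h6.map (fun v => v ⊗ₜ[ZMod 2] v) (TensorProduct.zero_tmul _ _) fun g s => (tp_tmul g _ _).symm
      have h9 := h8.cb h
      have h10 : ∀ s, sw (cbK K B (fun s => e' s ⊗ₜ[ZMod 2] e' s) s) = cbK K B (fun s => e' s ⊗ₜ[ZMod 2] e' s) s := by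
        intro s
        unfold cbK
        split_ifs
        · rw [map_sum]
          exact sum_congr rfl fun v _ => rfl
        · exact map_zero _
      have hr : ∀ s, (x₁ + cbK K B (fun s => e' s ⊗ₜ[ZMod 2] e' s)) s ∈ LinearMap.range (onePlus (V := V)) := by
        intro s
        by_cases hs : s ∈ K ∧ s ∉ B
        · have h11 : δ (cbK K B (fun s => e' s ⊗ₜ[ZMod 2] e' s) s) = δ (x₁ s) := by
            rw [cbK_eq hs.1 hs.2, map_sum]
            refine Eq.trans ?_ (h7 s hs.1 hs.2)
            exact sum_congr rfl fun v _ => hδ1 _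
          have h12 := hδ3 ((x₁ + cbK K B (fun s => e' s ⊗ₜ[ZMod 2] e' s)) s) (by
            rw [Pi.add_apply, map_add, h2, h10])
          rw [Pi.add_apply, map_add, h11, add_self_tt, TensorProduct.zero_tmul, add_zero] at h12
          exact h12
        · have h11 : x₁ s = 0 := by
            by_contra h11
            exact hs ⟨(h1.supp s h11).1, (h1.supp s h11).2.1⟩
          have h12 : cbK K B (fun s => e' s ⊗ₜ[ZMod 2] e' s) s = 0 := if_neg hs
          rw [Pi.add_apply, h11, h12, add_zero]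
          exact Submodule.zero_mem _
      obtain ⟨y, hy1, hy2⟩ := (h1.add h9).lift h (onePlus (V := V)) (fun g x => onePlus_tp g x) hr
      refine ⟨y, hy1, fun t h11 h12 => ?_⟩
      have h13 := (h3.add (ctl_cb_cb h h8 h9 (isCb_cbK _))) t h11 h12
      rw [add_zero] at h13
      refine Eq.trans ?_ h13
      exact sum_congr rfl fun v _ => hy2 _

end

/-- **The square lemma.** -/
theorem ctl_square_of (h : Crs f K B) (hr : ∀ s ∈ K, TotOn r s) (ρ : H →* Module.End (ZMod 2) V) (j : ℕ)
    (H : ∀ q ≤ 2 * j, CtlExact f K B (tp ρ) q) : CtlExact f K B ρ j := by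
  obtain ⟨δ, hδ1, hδ2, hδ3⟩ := exists_diag V
  induction j using Nat.strong_induction_on with
  | _ j ih =>
  have hV : ∀ q < j, CtlExact f K B ρ q := fun q hq => ih q hq fun q' hq' => H q' (by omega)
  intro a ha1 ha2
  -- the tower
  have key : ∀ s ≤ j, ∃ x x' : Finset U → V ⊗[ZMod 2] V, Ctl f K B (tp ρ) (2 * j - s) x ∧ Ctl f K B (tp ρ) (2 * j + 1 - s) x' ∧
      IsCb K B x (cupR K B r (s + 1) a + fun t => onePlus (x' t)) := by
    intro s
    induction s with
    | zero =>
      intro _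
      have h1 : Ctl f K B (tp ρ) (2 * j + 1) (cupR K B r 1 a) := ha1.cupR h (by omega)
      have h2 : IsCb K B (cupR K B r 1 a) 0 := by
        intro t h3 h4
        rw [ctl_isCb_cupR h hr ha1 ha2 0 t h3 h4, Pi.add_apply, cupR_eq h3 h4, cupL_zero _ _ _ _ (ha1.empty h.ne), map_zero, add_zero]
        rfl
      obtain ⟨x, hx1, hx2⟩ := H (2 * j) le_rfl _ h1 h2
      refine ⟨x, 0, hx1, Ctl.zero _, ?_⟩
      have h3 : (cupR K B r 1 a + fun t => onePlus ((0 : Finset U → V ⊗[ZMod 2] V) t)) = cupR K B r 1 a := by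
        funext t
        rw [Pi.add_apply, Pi.zero_apply, map_zero, add_zero]
      rw [h3]
      exact hx2
    | succ s ihs =>
      intro hs
      obtain ⟨x, x', hx1, hx2, hx3⟩ := ihs (by omega)
      have e1 : 2 * j + 1 - (s + 1) = 2 * j - s := by omega
      have e2 : 2 * j - s = 2 * j - (s + 1) + 1 := by omega
      have h1 : Ctl f K B (tp ρ) (2 * j - (s + 1) + 1) (cupR K B r (s + 1 + 1) a + fun t => onePlus (x t)) := by
        refine Ctl.add (ha1.cupR h (by omega)) ?_
        rw [← e2]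
        exact hx1.onePlus
      have h2 : IsCb K B (cupR K B r (s + 1 + 1) a + fun t => onePlus (x t)) 0 := by
        intro t h3 h4
        rw [((ctl_isCb_cupR h hr ha1 ha2 (s + 1)).add hx3.onePlus) t h3 h4]
        show cupR K B r (s + 1) a t + sw (cupR K B r (s + 1) a t) + onePlus (cupR K B r (s + 1) a t + onePlus (x' t)) = 0
        rw [map_add, onePlus_onePlus, add_zero, onePlus_apply, add_self_tt]
      obtain ⟨y, hy1, hy2⟩ := H (2 * j - (s + 1)) (by omega) _ h1 h2
      exact ⟨y, x, hy1, by rw [e1]; exact hx1, hy2⟩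
  obtain ⟨x, x', hx1, hx2, hx3⟩ := key j le_rfl
  have e1 : 2 * j - j = j := by omega
  have e2 : 2 * j + 1 - j = j + 1 := by omega
  rw [e1] at hx1
  rw [e2] at hx2
  have hz1 : Ctl f K B (tp ρ) (j + 1) (cupR K B r (j + 1) a + fun t => onePlus (x' t)) :=
    Ctl.add (ha1.cupR h (by omega)) hx2.onePlus
  have hcup : ∀ s, cupR K B r (j + 1) a s = a s ⊗ₜ[ZMod 2] a s := by
    intro s
    by_cases h0 : a s = 0
    · rw [h0, TensorProduct.zero_tmul]
      by_contra h1
      obtain ⟨h2, h3, h4⟩ := (ha1.cupR (r := r) (m := j + 1) (l := j + 1) h (by omega)).supp s h1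
      apply h1
      rw [cupR_eq h2 h3, ← h4, cupL_self, h0, TensorProduct.zero_tmul]
    · obtain ⟨h2, h3, h4⟩ := ha1.supp s h0
      rw [cupR_eq h2 h3, ← h4, cupL_self]
  have hz2 : ∀ s, sw ((cupR K B r (j + 1) a + fun t => onePlus (x' t)) s) = (cupR K B r (j + 1) a + fun t => onePlus (x' t)) s := by
    intro s
    rw [Pi.add_apply, map_add, hcup, sw_tmul]
    congr 1
    exact alt_sym ⟨x' s, rfl⟩
  have hz3 := ctl_cb_cb h hx1 hz1 hx3
  obtain ⟨y, hy1, hy2, hy3⟩ := ctl_sym_exact h δ hδ1 hδ2 hδ3 (fun q hq => H q (by omega)) hV j le_rfl _ hz1 hz2 hz3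
  refine ⟨fun s => δ (y s), hy1.map _ (map_zero _) fun g s => diag_tp δ hδ1 hδ2 hδ3 g (hy2 s), fun t h1 h2 => ?_⟩
  rw [hy3.map δ t h1 h2]
  show δ (cupR K B r (j + 1) a t + onePlus (x' t)) = a t
  have h3 : δ (onePlus (x' t)) = 0 := hδ2 _ ⟨x' t, rfl⟩
  rw [hcup, map_add, hδ1, h3, add_zero]

/-- **The square lemma** for controlled cochains. -/
theorem ctl_square (h : Crs f K B) (ρ : H →* Module.End (ZMod 2) V) (j : ℕ)
    (hj : ∀ q ≤ 2 * j, CtlExact f K B (tp ρ) q) : CtlExact f K B ρ j := by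
  refine ctl_square_of (r := WellOrderingRel) h (fun s _ => ⟨fun u _ => irrefl_of WellOrderingRel u,
    fun u _ v _ w _ h1 h2 => trans_of WellOrderingRel h1 h2, fun u _ v _ huv => ?_⟩) ρ j hj
  rcases trichotomous_of WellOrderingRel u v with h1 | h1 | h1
  · exact Or.inl h1
  · exact absurd h1 huv
  · exact Or.inr h1

end Pool.Agent.CE
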