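import Pool.Agent.CE.Ind
import Pool.Agent.CE.FE
import Pool.Agent.CE.FT
import Pool.Agent.CE.SqM
import Pool.Agent.S14.Pack0
import Pool.Agent.S14.Ed
import Pool.Agent.H10.CI.CDefs

/-!
# Project CE (coarse embeddings): the exactness of the chains with coefficients in the division ring

PROOF.  Note 6043 of helper85, Steps 1 to 7.
-/

set_option autoImplicit false
set_option linter.unusedSectionVars false

open Finset Pointwise
open scoped TensorProduct

namespace Pool.Agent.CE

open Pool.Agent.H37.TM Pool.Agent.H65.RM Pool.Agent.S10 Pool.Agent.S11 Pool.Agent.S14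
open Pool.Agent.H10.CI (CoarseEmb)

/-- the data of the coarse embedding -/
theorem crs_of {H L U : Type} [Group H] [Group L] [DecidableEq U] [MulAction L U] {K B mu : Set (Finset U)} {n d : ℕ}
    {f : H → L} (hf : CoarseEmb f) (hD : Dual K B mu n d) (hA : PAct L K B) : Crs f K B where
  emb := hf
  ne := hD.ne
  down := hD.down
  bd_sub := hD.bd_sub
  bd_down := hD.bd_down
  locfin := hD.locfin
  K_mem := hA.K_mem
  B_mem := hA.B_mem
  prop := by
    intro s hs t
    obtain ⟨u, hu⟩ := hD.ne s hs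
    have h1 : {g : L | g • s = t} ⊆ ⋃ w ∈ (t : Set U), {g : L | g • u = w} := by
      intro g hg
      have h2 : g • u ∈ t := by
        rw [← show g • s = t from hg]
        exact smul_mem_smul_finset hu
      exact Set.mem_biUnion (mem_coe.2 h2) rfl
    exact (t.finite_toSet.biUnion fun w _ => hA.proper u w (hD.down s hs {u} (singleton_subset_iff.2 hu)
      (singleton_nonempty u))).subset h1

/-- exactness for isomorphic coefficients -/
theorem exR_of_equiv {H : Type} [Group H] {W W' : Type} [AddCommGroup W] [Module (ZMod 2) W] [AddCommGroup W']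
    [Module (ZMod 2) W'] {τ : Representation (ZMod 2) H W} {τ' : Representation (ZMod 2) H W'} (e : W ≃ₗ[ZMod 2] W')
    (he : ∀ g w, e (τ g w) = τ' g (e w))
    {C C' C'' : Type} [AddCommGroup C] [Module (ZMod 2) C] [AddCommGroup C'] [Module (ZMod 2) C']
    [AddCommGroup C''] [Module (ZMod 2) C''] {ρ' : Representation (ZMod 2) H C'} {ρ'' : Representation (ZMod 2) H C''}
    {d₁ : C →ₗ[ZMod 2] C'} {d₂ : C' →ₗ[ZMod 2] C''} (h : ExR τ' ρ' ρ'' d₁ d₂) : ExR τ ρ' ρ'' d₁ d₂ := by
  intro x hx
  have he' : ∀ g w, e.symm (τ' g w) = τ g (e.symm w) := fun g w => by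
    rw [LinearEquiv.symm_apply_eq, he, LinearEquiv.apply_symm_apply]
  have h1 := kr_lTensor (π := (e : W →ₗ[ZMod 2] W')) ρ'' he hx
  rw [← rl_comm] at h1
  obtain ⟨y, hy⟩ := h _ h1
  have h2 := kr_lTensor (π := (e.symm : W' →ₗ[ZMod 2] W)) ρ' he' hy
  rw [map_sub, ← rl_comm] at h2
  have h3 : (e.symm : W' →ₗ[ZMod 2] W).lTensor C' ((e : W →ₗ[ZMod 2] W').lTensor C' x) = x := by
    rw [← LinearMap.comp_apply, ← LinearMap.lTensor_comp]
    have h4 : (e.symm : W' →ₗ[ZMod 2] W) ∘ₗ (e : W →ₗ[ZMod 2] W') = LinearMap.id := LinearMap.ext fun w => e.symm_apply_apply w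
    rw [h4, LinearMap.lTensor_id]
    rfl
  rw [h3] at h2
  exact ⟨_, h2⟩

/-- **The exactness of the chains with coefficients in the division ring** -/
theorem exactBd_of_coarse {H V U L : Type} [Group H] [Countable H] [DecidableEq V] [MulAction H V] [Group L] [DecidableEq U]
    [MulAction L U] {X : Set (Finset V)} {K B : Set (Finset U)} {n : ℕ} (P : LPack H) (hX : FreeX H X) (hac : Acyc X)
    {f : H → L} (hf : CoarseEmb f) (hM : ManOrDual L K B n (n + 1)) (hA : PAct L K B) {i : ℕ} (hi : n < 2 * i) :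
    ExactBd X (lft P.ι) (i + 1) := by
  obtain ⟨mu, hD, hmu⟩ := dual_of hM hA
  have h := crs_of hf hD hA
  have hXs := scx_of_freeX hX
  have hdim : ∃ N, ∀ s ∈ X, s.card ≤ N := by
    obtain ⟨F, hF⟩ := hX.fin
    refine ⟨F.sup Finset.card, fun s hs => ?_⟩
    obtain ⟨g, hg⟩ := hF s hs
    have := Finset.le_sup (f := Finset.card) hg
    rwa [card_smul_finset] at this
  refine exactBd_of_exR hXs ?_
  refine exR_of_equiv (τ' := (lft P.ι).tprod (Representation.trivial (ZMod 2) H (ZMod 2))) (TensorProduct.rid (ZMod 2) P.D).symm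
    (fun g w => ?_) ?_
  · rw [LinearEquiv.symm_apply_eq, TensorProduct.rid_symm_apply, Representation.tprod_apply, TensorProduct.map_tmul,
      TensorProduct.rid_tmul]
    exact (one_smul (ZMod 2) _).symm
  · refine exR_all h hD hmu hXs hac hdim (lft P.ι) (fun Y _ _ σ q hq => ?_) i hi (ZMod 2) _
    exact exR_of_ctl h _ (ctl_square h _ q fun q' hq' => ctlExact_of_flat h (flat_sq P.flat) q' (hD.low q' (by omega) (by omega)))

end Pool.Agent.CE
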