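import Pool.Agent.CE.Defs

/-!
# Project CE, step 2: the controlled functions have locally finite decompositions

`Λ₀` = the subgroup generated by the image of `f`, countable; `m` = a function on the simplices which is injective on the
orbits of `Λ₀`; `σ s` = an element `h` such that `m (f(h)⁻¹ s)` is minimal.  If `s ∈ f(H) F`, `F` finite, then
`s ∈ f(σ s) F'`, `F'` = the finite set of the simplices of the orbits of `F` with `m` at most the maximum on `F`.
-/

set_option autoImplicit false
set_option linter.unusedSectionVars false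

open Finset Pointwise
open scoped TensorProduct

noncomputable section

namespace Pool.Agent.CE

open Pool.Agent.S11 Pool.Agent.H10.CI

section

variable {H Λ U : Type} [Group H] [Group Λ] [DecidableEq U] [MulAction Λ U] {f : H → Λ} {K B : Set (Finset U)}

/-- **Near elements.** -/
theorem exists_sel [Countable H] (f : H → Λ) : ∃ σ : Finset U → H, ∀ F : Set (Finset U), F.Finite →
    ∃ F' : Set (Finset U), F'.Finite ∧ ∀ (h : H), ∀ t ∈ F, ∃ t' ∈ F', f h • t = f (σ (f h • t)) • t' := by
  classical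
  let Λ₀ : Subgroup Λ := (FreeGroup.lift f).range
  have hFr : Countable (FreeGroup H) := by
    unfold FreeGroup
    infer_instance
  have hΛ : Countable Λ₀ := by
    have h1 : (Set.range (FreeGroup.lift f)).Countable := Set.countable_range _
    exact h1
  -- the function `m`
  have h1 : ∀ ω : MulAction.orbitRel.Quotient Λ₀ (Finset U), ∃ g : Finset U → ℕ, Set.InjOn g {s | (Quotient.mk _ s : MulAction.orbitRel.Quotient Λ₀ (Finset U)) = ω} := by
    intro ω
    refine Set.countable_iff_exists_injOn.1 ?_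
    obtain ⟨s₀, rfl⟩ := Quotient.exists_rep ω
    refine (Set.countable_range fun x : Λ₀ => x • s₀).mono ?_
    intro s hs
    have h2 : (MulAction.orbitRel Λ₀ (Finset U)) s s₀ := Quotient.exact hs
    rw [MulAction.orbitRel_apply] at h2
    exact h2
  choose G hG using h1
  let m : Finset U → ℕ := fun s => G (Quotient.mk _ s) s
  have hq : ∀ (h : H) (s : Finset U), (Quotient.mk _ (f h • s) : MulAction.orbitRel.Quotient Λ₀ (Finset U)) = Quotient.mk _ s := by
    intro h s
    refine Quotient.sound ?_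
    show (MulAction.orbitRel Λ₀ (Finset U)) (f h • s) s
    rw [MulAction.orbitRel_apply]
    exact ⟨⟨f h, ⟨FreeGroup.of h, FreeGroup.lift_apply_of⟩⟩, rfl⟩
  have hq' : ∀ (h : H) (s : Finset U), (Quotient.mk _ ((f h)⁻¹ • s) : MulAction.orbitRel.Quotient Λ₀ (Finset U)) = Quotient.mk _ s := by
    intro h s
    have h2 := hq h ((f h)⁻¹ • s)
    rw [smul_inv_smul] at h2
    exact h2.symm
  -- the element `σ s`
  have h2 : ∀ s : Finset U, ∃ h : H, ∀ h' : H, m ((f h)⁻¹ • s) ≤ m ((f h')⁻¹ • s) := by
    intro s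
    exact ⟨Function.argmin (fun h : H => m ((f h)⁻¹ • s)), fun h' => Function.argmin_le (fun h : H => m ((f h)⁻¹ • s)) h'⟩
  choose σ hσ using h2
  refine ⟨σ, fun F hF => ?_⟩
  obtain ⟨M, hM⟩ : ∃ M, ∀ t ∈ F, m t ≤ M := by
    obtain ⟨M, hM⟩ := (hF.image m).bddAbove
    exact ⟨M, fun t ht => hM ⟨t, ht, rfl⟩⟩
  refine ⟨⋃ t ∈ F, {t' | (Quotient.mk _ t' : MulAction.orbitRel.Quotient Λ₀ (Finset U)) = Quotient.mk _ t ∧ m t' ≤ M}, ?_, fun h t ht => ?_⟩
  · refine hF.biUnion fun t _ => ?_
    refine Set.Finite.of_finite_image (f := m) ((Set.finite_Iic M).subset ?_) ?_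
    · rintro _ ⟨t', ht', rfl⟩
      exact ht'.2
    · intro a ha b hb hab
      have h3 : G (Quotient.mk _ a) a = G (Quotient.mk _ b) b := hab
      rw [ha.1, hb.1] at h3
      exact hG _ ha.1 hb.1 h3
  · refine ⟨(f (σ (f h • t)))⁻¹ • f h • t, Set.mem_biUnion ht ⟨?_, ?_⟩, (smul_inv_smul _ _).symm⟩
    · rw [hq', hq]
    · refine (hσ (f h • t) h).trans ?_
      rw [inv_smul_smul]
      exact hM t ht

open Classical in
/-- the restriction to the graph of `σ` -/
def eP (f : H → Λ) (K B : Set (Finset U)) (σ : Finset U → H) (q : ℕ) : PC f K B q →ₗ[ZMod 2] PC f K B q where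
  toFun c := ⟨fun h s => if h = σ s then c.1 h s else 0, by
    obtain ⟨h1, F, hF⟩ := c.2
    have h2 : ∀ h s, (if h = σ s then c.1 h s else 0) ≠ 0 → c.1 h s ≠ 0 := by
      intro h s h3
      split_ifs at h3
      · exact h3
      · exact absurd rfl h3
    exact ⟨fun h s hs => h1 h s (h2 h s hs), F, fun h s hs => hF h s (h2 h s hs)⟩⟩
  map_add' c c' := by
    refine Subtype.ext ?_
    funext h s
    show (if h = σ s then c.1 h s + c'.1 h s else 0) = (if h = σ s then c.1 h s else 0) + (if h = σ s then c'.1 h s else 0)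
    split_ifs
    · rfl
    · rw [add_zero]
  map_smul' r c := by
    refine Subtype.ext ?_
    funext h s
    show (if h = σ s then r • c.1 h s else 0) = r • (if h = σ s then c.1 h s else 0)
    split_ifs
    · rfl
    · rw [smul_zero]

open Classical in
theorem eP_apply (f : H → Λ) (K B : Set (Finset U)) (σ : Finset U → H) (q : ℕ) (c : PC f K B q) (h : H) (s : Finset U) :
    (eP f K B σ q c).1 h s = if h = σ s then c.1 h s else 0 := rfl

/-- the value at a place -/
def evP (f : H → Λ) (K B : Set (Finset U)) (q : ℕ) (h : H) (s : Finset U) : PC f K B q →+ ZMod 2 where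
  toFun c := c.1 h s
  map_zero' := rfl
  map_add' _ _ := rfl

theorem eP_fin (h : Crs f K B) (q : ℕ) {σ : Finset U → H} (hσ : ∀ F : Set (Finset U), F.Finite →
    ∃ F' : Set (Finset U), F'.Finite ∧ ∀ (h : H), ∀ t ∈ F, ∃ t' ∈ F', f h • t = f (σ (f h • t)) • t') (c : PC f K B q) :
    {a : H | eP f K B σ q (PR h q a c) ≠ 0}.Finite := by
  classical
  obtain ⟨F, hF⟩ := PC_fin c
  obtain ⟨F', hF', h1⟩ := hσ F F.finite_toSet
  have h2 : {a : H | eP f K B σ q (PR h q a c) ≠ 0} ⊆
      ⋃ t ∈ {t | t ∈ F ∧ t ∈ K}, ⋃ t' ∈ F', {a : H | ∃ g : H, f (g * a) • t = f g • t'} := by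
    intro a ha
    obtain ⟨g, s, hs⟩ : ∃ g s, (eP f K B σ q (PR h q a c)).1 g s ≠ 0 := by
      by_contra hcon
      push Not at hcon
      exact ha (Subtype.ext (funext fun g => funext fun s => hcon g s))
    rw [eP_apply] at hs
    split_ifs at hs with h3
    · rw [PR_apply] at hs
      obtain ⟨t, ht, hts⟩ := hF _ _ hs
      have htK : t ∈ K := by
        have h4 := h.K_mem (f (g * a))⁻¹ _ (PC_supp c hs).1
        rwa [hts, inv_smul_smul] at h4
      obtain ⟨t', ht', h5⟩ := h1 (g * a) t ht
      rw [← hts, ← h3] at h5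
      refine Set.mem_biUnion (show t ∈ {t | t ∈ F ∧ t ∈ K} from ⟨ht, htK⟩) (Set.mem_biUnion ht' ⟨g, ?_⟩)
      rw [← hts, h5]
    · exact absurd rfl hs
  refine Set.Finite.subset ?_ h2
  refine Set.Finite.biUnion (F.finite_toSet.subset fun t ht => ht.1) fun t ht => hF'.biUnion fun t' _ => h.near ht.2 t'

/-- **The controlled functions have locally finite decompositions.** -/
theorem loc_PR [Countable H] (h : Crs f K B) (q : ℕ) : Loc (PR h q) := by
  classical
  obtain ⟨σ, hσ⟩ := exists_sel (U := U) f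
  refine ⟨eP f K B σ q, eP_fin h q hσ, fun c => ?_⟩
  have hfin : (Function.support fun a => PR h q a⁻¹ (eP f K B σ q (PR h q a c))).Finite := by
    refine (eP_fin h q hσ c).subset fun a ha h0 => ha ?_
    show PR h q a⁻¹ (eP f K B σ q (PR h q a c)) = 0
    rw [h0, map_zero]
  refine Subtype.ext ?_
  funext g s
  have h1 := (evP f K B q g s).map_finsum hfin
  refine Eq.trans h1 ?_
  have h2 : ∀ a, (evP f K B q g s) (PR h q a⁻¹ (eP f K B σ q (PR h q a c))) = if g * a⁻¹ = σ s then c.1 g s else 0 := by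
    intro a
    show (eP f K B σ q (PR h q a c)).1 (g * a⁻¹) s = _
    rw [eP_apply, PR_apply, inv_mul_cancel_right]
  rw [finsum_congr h2, finsum_eq_single _ ((σ s)⁻¹ * g)]
  · rw [if_pos (by group)]
  · intro a ha
    refine if_neg fun h3 => ha ?_
    rw [← h3]
    group

end

end Pool.Agent.CE
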