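import Pool.Agent.CE.LocA

/-!
# Project CE: the chains of a complex with a free action have locally finite decompositions
-/

set_option autoImplicit false
set_option linter.unusedSectionVars false

open Finset Pointwise
open scoped TensorProduct

noncomputable section

namespace Pool.Agent.CE

open Pool.Agent.S11

variable {H : Type} [Group H] {P : Type} [AddCommGroup P] [Module (ZMod 2) P] {ρ : Representation (ZMod 2) H P}

/-- `(P ⊗ -)_H` preserves injections (from `Loc.flat` by exchanging the factors) -/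
theorem Loc.inj (h : Loc ρ) {Y Y' : Type} [AddCommGroup Y] [Module (ZMod 2) Y] [AddCommGroup Y'] [Module (ZMod 2) Y']
    {σ : Representation (ZMod 2) H Y} {σ' : Representation (ZMod 2) H Y'} {u : Y →ₗ[ZMod 2] Y'}
    (hu : ∀ g x, u (σ g x) = σ' g (u x)) (hi : Function.Injective u) {x : P ⊗[ZMod 2] Y}
    (hx : u.lTensor P x ∈ Kr (ρ.tprod σ') ⊤) : x ∈ Kr (ρ.tprod σ) ⊤ := by
  have key : ∀ {Z : Type} [AddCommGroup Z] [Module (ZMod 2) Z] (ζ : Representation (ZMod 2) H Z) (j : H)
      (t : P ⊗[ZMod 2] Z), TensorProduct.comm (ZMod 2) P Z ((ρ.tprod ζ) j t) =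
        (ζ.tprod ρ) j (TensorProduct.comm (ZMod 2) P Z t) := by
    intro Z _ _ ζ j t
    induction t with
    | zero => simp
    | add a b ha hb => simp only [map_add, ha, hb]
    | tmul a b => rfl
  have key' : ∀ {Z : Type} [AddCommGroup Z] [Module (ZMod 2) Z] (ζ : Representation (ZMod 2) H Z) (j : H)
      (t : Z ⊗[ZMod 2] P), (TensorProduct.comm (ZMod 2) P Z).symm ((ζ.tprod ρ) j t) =
        (ρ.tprod ζ) j ((TensorProduct.comm (ZMod 2) P Z).symm t) := by
    intro Z _ _ ζ j t
    rw [LinearEquiv.symm_apply_eq, key, LinearEquiv.apply_symm_apply]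
  have h1 : TensorProduct.comm (ZMod 2) P Y' (u.lTensor P x) = u.rTensor P (TensorProduct.comm (ZMod 2) P Y x) := by
    clear hx
    induction x with
    | zero => simp
    | add a b ha hb => simp only [map_add, ha, hb]
    | tmul a b => rfl
  have h2 : TensorProduct.comm (ZMod 2) P Y' (u.lTensor P x) ∈ Kr (σ'.tprod ρ) ⊤ :=
    Kr_map (τ := ρ.tprod σ') (ρ := σ'.tprod ρ) (f := (TensorProduct.comm (ZMod 2) P Y' : _ →ₗ[ZMod 2] _))
      (fun j _ t => key σ' j t) hx
  rw [h1] at h2
  have h3 := h.flat Y Y' σ σ' u hu hi _ h2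
  have h4 : (TensorProduct.comm (ZMod 2) P Y).symm (TensorProduct.comm (ZMod 2) P Y x) ∈ Kr (ρ.tprod σ) ⊤ :=
    Kr_map (τ := σ.tprod ρ) (ρ := ρ.tprod σ) (f := ((TensorProduct.comm (ZMod 2) P Y).symm : _ →ₗ[ZMod 2] _))
      (fun j _ t => key' σ j t) h3
  rwa [LinearEquiv.symm_apply_apply] at h4

section

variable {V : Type} [DecidableEq V] [MulAction H V] {X A : Set (Finset V)}

/-- representatives of the orbits -/
private theorem lx_rep (hX : SCx H X A) (q : ℕ) : ∃ R : Set (Sx X A q), ∀ s, ∃ a : H, ∀ a' : H,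
    smx hX q a' s ∈ R ↔ a' = a := by
  let S : Setoid (Sx X A q) :=
    { r := fun s t => ∃ a : H, smx hX q a s = t
      iseqv :=
        { refl := fun s => ⟨1, Subtype.ext (one_smul H s.1)⟩
          symm := by
            rintro s t ⟨a, rfl⟩
            exact ⟨a⁻¹, Subtype.ext (inv_smul_smul a s.1)⟩
          trans := by
            rintro s t u ⟨a, rfl⟩ ⟨b, rfl⟩
            exact ⟨b * a, Subtype.ext (mul_smul b a s.1)⟩ } }
  refine ⟨{s | (Quotient.mk S s).out = s}, fun s => ?_⟩
  obtain ⟨a, ha⟩ : ∃ a : H, smx hX q a s = (Quotient.mk S s).out :=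
    Quotient.exact (Quotient.out_eq (Quotient.mk S s)).symm
  refine ⟨a, fun a' => ?_⟩
  have h1 : Quotient.mk S (smx hX q a' s) = Quotient.mk S s :=
    Quotient.sound ⟨a'⁻¹, Subtype.ext (inv_smul_smul a' s.1)⟩
  constructor
  · intro h2
    have h3 : (Quotient.mk S (smx hX q a' s)).out = smx hX q a' s := h2
    rw [h1, ← ha] at h3
    have h4 : a • s.1 = a' • s.1 := congrArg Subtype.val h3
    have h5 : (a⁻¹ * a') • s.1 = s.1 := by rw [mul_smul, ← h4, inv_smul_smul]
    have h6 := hX.free _ _ s.2.1 h5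
    rw [inv_mul_eq_one] at h6
    exact h6.symm
  · rintro rfl
    show (Quotient.mk S (smx hX q a' s)).out = smx hX q a' s
    rw [h1, ha]

/-- the chains of a complex with a free action -/
theorem loc_cRep (hX : SCx H X A) (q : ℕ) :
    Loc (cRep hX q) := by
  classical
  obtain ⟨R, hR⟩ := lx_rep hX q
  let e : (Sx X A q →₀ ZMod 2) →ₗ[ZMod 2] (Sx X A q →₀ ZMod 2) :=
    Finsupp.lsum (ZMod 2) fun s => if s ∈ R then Finsupp.lsingle s else 0
  have he : ∀ s (x : ZMod 2), e (Finsupp.single s x) = if s ∈ R then Finsupp.single s x else 0 := by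
    intro s x
    show (Finsupp.lsum (ZMod 2) fun s => if s ∈ R then Finsupp.lsingle s else 0) (Finsupp.single s x) = _
    rw [Finsupp.lsum_single]
    split_ifs <;> rfl
  have hs : ∀ s (x : ZMod 2), ∃ a : H, ∀ a', e (cRep hX q a' (Finsupp.single s x)) =
      if a' = a then Finsupp.single (smx hX q a s) x else 0 := by
    intro s x
    obtain ⟨a, ha⟩ := hR s
    refine ⟨a, fun a' => ?_⟩
    rw [cRep_single, he]
    by_cases h1 : a' = a
    · rw [if_pos ((ha a').2 h1), if_pos h1, h1]
    · rw [if_neg fun h2 => h1 ((ha a').1 h2), if_neg h1]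
  have hfin : ∀ c, {a : H | e (cRep hX q a c) ≠ 0}.Finite := by
    intro c
    induction c using Finsupp.induction_linear with
    | zero => simp
    | add x y hx hy =>
      refine (hx.union hy).subset fun a ha => ?_
      by_contra h1
      rw [Set.mem_union, not_or] at h1
      simp only [Set.mem_ofPred_eq, not_not] at h1
      exact ha (by rw [map_add, map_add, h1.1, h1.2, add_zero])
    | single s x =>
      obtain ⟨a, ha⟩ := hs s x
      refine (Set.finite_singleton a).subset fun a' ha' => ?_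
      by_contra h1
      rw [Set.mem_singleton_iff] at h1
      exact ha' (by rw [ha, if_neg h1])
  refine ⟨e, hfin, fun c => ?_⟩
  have hf' : ∀ c, (Function.support fun a => cRep hX q a⁻¹ (e (cRep hX q a c))).Finite := by
    intro c
    refine (hfin c).subset fun a ha h0 => ha ?_
    show cRep hX q a⁻¹ (e (cRep hX q a c)) = 0
    rw [h0, map_zero]
  induction c using Finsupp.induction_linear with
  | zero => simp
  | add x y hx hy =>
    rw [finsum_congr (g := fun a => cRep hX q a⁻¹ (e (cRep hX q a x)) + cRep hX q a⁻¹ (e (cRep hX q a y)))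
      fun a => by simp only [map_add], finsum_add_distrib (hf' x) (hf' y), hx, hy]
  | single s x =>
    obtain ⟨a, ha⟩ := hs s x
    rw [finsum_eq_single _ a]
    · rw [ha, if_pos rfl, cRep_single]
      congr 1
      exact Subtype.ext (inv_smul_smul a s.1)
    · intro a' ha'
      rw [ha, if_neg ha', map_zero]

end

end Pool.Agent.CE
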