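import Pool.Agent.CE.PEx
import Pool.Agent.S10.DuDefs

/-!
# Project CE: the complex of the controlled functions is exact in the low degrees
-/

set_option autoImplicit false
set_option linter.unusedSectionVars false

open Finset Pointwise
open scoped TensorProduct

noncomputable section

namespace Pool.Agent.CE

open Pool.Agent.S11 Pool.Agent.S10

variable {H Λ U : Type} [Group H] [Group Λ] [DecidableEq U] [MulAction Λ U] {f : H → Λ} {K B mu : Set (Finset U)} {n : ℕ}

/-- exactness in the low degrees -/
theorem exact_dP (h : Crs f K B) (hD : Dual K B mu n (n + 1)) {q : ℕ} (hq : q < n) {x : PC f K B (q + 1)}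
    (hx : dP h (q + 1) (q + 1 + 1) x = 0) : ∃ y : PC f K B q, dP h q (q + 1) y = x :=
  (dP_exact h q (hD.low q hq (by omega)) x).1 hx

end Pool.Agent.CE
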