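import Pool.Agent.CE.Defs
import Pool.Agent.S10.DuDefs

/-!
# Project CE: the complex of the controlled functions in the top degree

`c h = f(h) z(h)` with `z(h)` a cocycle with support in a fixed finite set: there are only finitely many `z(h)`; one chooses
a primitive for each of them (`Dual.top`), the group `Λ` translates.
-/

set_option autoImplicit false
set_option linter.unusedSectionVars false

open Finset Pointwise
open scoped TensorProduct

noncomputable section

namespace Pool.Agent.CE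

open Pool.Agent.S11 Pool.Agent.S10 Pool.Agent.H37.TM

variable {H Λ U : Type} [Group H] [Group Λ] [DecidableEq U] [MulAction Λ U] {f : H → Λ} {K B mu : Set (Finset U)} {n : ℕ}

theorem PC_zero (h : Crs f K B) (x : PC f K B 0) : x = 0 := by
  refine Subtype.ext ?_
  funext a s
  show x.1 a s = 0
  by_contra h0
  obtain ⟨h1, -, h3⟩ := PC_supp x h0
  exact (h.ne s h1).ne_empty (card_eq_zero.1 h3)

theorem dP_eq_zero (h : Crs f K B) {a b : ℕ} (hab : b ≠ a + 1) (x : PC f K B a) : dP h a b x = 0 := by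
  refine Subtype.ext ?_
  funext g t
  show cobQ K B b (x.1 g) t = 0
  by_contra h0
  obtain ⟨⟨-, -, h1⟩, v, hv, h2⟩ := cobQ_supp h0
  have h3 := (PC_supp x h2).2.2
  rw [card_erase_of_mem hv, h1] at h3
  have h4 : 0 < t.card := card_pos.2 ⟨v, hv⟩
  omega

/-- the sum over the pairs of vertices is zero modulo two -/
theorem sum_two (c : Finset U → ZMod 2) (t : Finset U) : ∑ v ∈ t, ∑ w ∈ t.erase v, c ((t.erase v).erase w) = 0 :=
  sum_sum_erase c t

theorem dP_dP (h : Crs f K B) (a b c : ℕ) (x : PC f K B a) : dP h b c (dP h a b x) = 0 := by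
  by_cases hab : b = a + 1
  swap
  · rw [dP_eq_zero h hab, map_zero]
  by_cases hbc : c = b + 1
  swap
  · exact dP_eq_zero h hbc _
  refine Subtype.ext ?_
  funext g t
  show cobQ K B c (cobQ K B b (x.1 g)) t = 0
  classical
  unfold cobQ
  split_ifs with h1
  swap
  · rfl
  refine Eq.trans (sum_congr rfl fun v hv => ?_) (sum_two (x.1 g) t)
  by_cases h2 : t.erase v ∈ K ∧ t.erase v ∉ B ∧ (t.erase v).card = b
  · rw [if_pos h2]
  · rw [if_neg h2]
    symm
    refine sum_eq_zero fun w hw => ?_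
    by_contra h3
    obtain ⟨h4, h5, h6⟩ := PC_supp x h3
    have h7 : (t.erase v).card = b := by
      rw [card_erase_of_mem hv, h1.2.2]
      omega
    have h8 : t.erase v ∈ K := h.down t h1.1 _ (erase_subset _ _) ⟨w, hw⟩
    apply h2
    refine ⟨h8, fun h9 => h5 ?_, h7⟩
    exact h.bd_down _ h9 _ (erase_subset _ _) (h.ne _ h4)

/-- translation of the coboundary -/
theorem cobQ_tr (h : Crs f K B) (b : ℕ) (g : Λ) (w : Finset U → ZMod 2) (t : Finset U) :
    cobQ K B b (fun s => w (g • s)) t = cobQ K B b w (g • t) := by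
  classical
  have h1 : (g • t ∈ K ∧ g • t ∉ B ∧ (g • t).card = b) ↔ (t ∈ K ∧ t ∉ B ∧ t.card = b) := by
    rw [Finset.card_smul_finset]
    constructor
    · rintro ⟨h2, h3, h4⟩
      refine ⟨?_, fun h5 => h3 (h.B_mem g t h5), h4⟩
      have h5 := h.K_mem g⁻¹ _ h2
      rwa [inv_smul_smul] at h5
    · rintro ⟨h2, h3, h4⟩
      refine ⟨h.K_mem g t h2, fun h5 => h3 ?_, h4⟩
      have h6 := h.B_mem g⁻¹ _ h5
      rwa [inv_smul_smul] at h6
  unfold cobQ
  by_cases h2 : t ∈ K ∧ t ∉ B ∧ t.card = b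
  · rw [if_pos h2, if_pos (h1.2 h2), sum_smul_set]
    refine sum_congr rfl fun v _ => ?_
    show w (g • t.erase v) = w ((g • t).erase (g • v))
    rw [Pool.Agent.S11.erase_smul]
  · rw [if_neg h2, if_neg fun h3 => h2 (h1.1 h3)]

/-- controlled functions from a family of cochains with supports in a fixed finite set -/
theorem PC_of (h : Crs f K B) {q : ℕ} {w : H → Finset U → ZMod 2} (hw : ∀ a, Rel K B ∅ q (w a)) {F : Set (Finset U)}
    (hF : F.Finite) (hwF : ∀ a s, w a s ≠ 0 → s ∈ F) : (fun a s => w a ((f a)⁻¹ • s)) ∈ PC f K B q := by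
  classical
  refine ⟨fun a s hs => ?_, hF.toFinset, fun a s hs => ⟨(f a)⁻¹ • s, ?_, (smul_inv_smul _ _).symm⟩⟩
  · obtain ⟨h1, h2, -, h4⟩ := hw a _ hs
    refine ⟨?_, fun h5 => h2 (h.B_mem _ _ h5), ?_⟩
    · have h5 := h.K_mem (f a) _ h1
      rwa [smul_inv_smul] at h5
    · rwa [Finset.card_smul_finset] at h4
  · rw [Set.Finite.mem_toFinset]
    exact hwF a _ hs

/-- **Filling.** -/
theorem exists_fill (h : Crs f K B) {q : ℕ} (x : PC f K B (q + 1))
    (hx : ∀ a, ∃ g : Finset U →₀ ZMod 2, Rel K B ∅ q g ∧ IsCob K B ∅ g (fun t => x.1 a (f a • t))) :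
    ∃ y : PC f K B q, dP h q (q + 1) y = x := by
  classical
  obtain ⟨F, hF⟩ := PC_fin x
  -- the translated cochains
  let z : H → Finset U → ZMod 2 := fun a t => x.1 a (f a • t)
  have hz : ∀ a t, z a t ≠ 0 → t ∈ F := by
    intro a t ht
    obtain ⟨t', ht', h1⟩ := hF a _ ht
    rw [smul_left_cancel (f a) h1]
    exact ht'
  have hZ : (Set.range z).Finite := by
    refine (Set.finite_range fun u : F → ZMod 2 => fun t : Finset U => if ht : t ∈ F then u ⟨t, ht⟩ else 0).subset ?_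
    rintro _ ⟨a, rfl⟩
    refine ⟨fun t => z a t.1, ?_⟩
    funext t
    by_cases ht : t ∈ F
    · simp only [ht, dif_pos]
    · simp only [ht, dif_neg, not_false_eq_true]
      by_contra h1
      exact ht (hz a t fun h2 => h1 h2.symm)
  -- the chosen primitives
  have h1 : ∀ u : Finset U → ZMod 2, ∃ g : Finset U →₀ ZMod 2, Rel K B ∅ q g ∧ ((∃ a, z a = u) → IsCob K B ∅ g u) := by
    intro u
    by_cases hu : ∃ a, z a = u
    · obtain ⟨a, rfl⟩ := hu
      obtain ⟨g, hg1, hg2⟩ := hx a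
      exact ⟨g, hg1, fun _ => hg2⟩
    · exact ⟨0, fun t ht => absurd rfl ht, fun h2 => absurd h2 hu⟩
  choose W hW1 hW2 using h1
  have hFin : (⋃ u ∈ Set.range z, Function.support (W u : Finset U → ZMod 2)).Finite :=
    hZ.biUnion fun u _ => (W u).hasFiniteSupport
  refine ⟨⟨fun a s => W (z a) ((f a)⁻¹ • s), PC_of h (w := fun a => W (z a)) (fun a => hW1 _) hFin ?_⟩, ?_⟩
  · intro a s hs
    exact Set.mem_biUnion ⟨a, rfl⟩ hs
  · refine Subtype.ext ?_
    funext a t
    show cobQ K B (q + 1) (fun s => W (z a) ((f a)⁻¹ • s)) t = x.1 a t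
    rw [cobQ_tr h]
    by_cases h2 : (f a)⁻¹ • t ∈ K ∧ (f a)⁻¹ • t ∉ B ∧ ((f a)⁻¹ • t).card = q + 1
    · rw [cobQ_of _ h2.1 h2.2.1 h2.2.2]
      have h3 := hW2 (z a) ⟨a, rfl⟩ _ h2.1 h2.2.1 (empty_subset _)
      rw [sdiff_empty] at h3
      rw [h3]
      show x.1 a (f a • (f a)⁻¹ • t) = x.1 a t
      rw [smul_inv_smul]
    · unfold cobQ
      rw [if_neg h2]
      by_contra h3
      obtain ⟨h4, h5, h6⟩ := PC_supp x fun h0 => h3 h0.symm
      refine h2 ⟨h.K_mem _ _ h4, fun h7 => h5 ?_, ?_⟩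
      · have h8 := h.B_mem (f a) _ h7
        rwa [smul_inv_smul] at h8
      · rw [Finset.card_smul_finset]
        exact h6

/-- the translated values of a cocycle -/
theorem exists_val (h : Crs f K B) {q : ℕ} {x : PC f K B (q + 1)} (hx : dP h (q + 1) (q + 1 + 1) x = 0) (a : H) :
    ∃ z : Finset U →₀ ZMod 2, (∀ t, z t = x.1 a (f a • t)) ∧ Rel K B ∅ (q + 1) z ∧ IsCob K B ∅ z 0 := by
  classical
  have hfin : (Function.support fun t => x.1 a (f a • t)).Finite := by
    refine Set.Finite.of_finite_image (f := fun t => f a • t) ((PC_finite x a).subset ?_) ?_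
    · rintro _ ⟨t, ht, rfl⟩
      exact ht
    · intro s _ t _ hst
      exact smul_left_cancel (f a) hst
  have hval : ∀ t, (Finsupp.ofSupportFinite _ hfin) t = x.1 a (f a • t) := fun t => rfl
  refine ⟨Finsupp.ofSupportFinite _ hfin, hval, fun t ht => ?_, fun t ht ht' _ => ?_⟩
  · rw [hval] at ht
    obtain ⟨h1, h2, h3⟩ := PC_supp x ht
    refine ⟨?_, fun h4 => h2 (h.B_mem _ _ h4), empty_subset _, ?_⟩
    · have h4 := h.K_mem (f a)⁻¹ _ h1
      rwa [inv_smul_smul] at h4
    · rwa [Finset.card_smul_finset] at h3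
  · rw [sdiff_empty]
    show ∑ v ∈ t, (Finsupp.ofSupportFinite _ hfin) (t.erase v) = 0
    simp only [hval]
    by_cases hc : t.card = q + 1 + 1
    · have h1 : cobQ K B (q + 1 + 1) (fun s => x.1 a (f a • s)) t = 0 := by
        rw [cobQ_tr h]
        exact congrFun (congrFun (congrArg Subtype.val hx) a) (f a • t)
      rwa [cobQ_of _ ht ht' hc] at h1
    · refine sum_eq_zero fun v hv => ?_
      by_contra h1
      have h2 := (PC_supp x h1).2.2
      rw [Finset.card_smul_finset, card_erase_of_mem hv] at h2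
      have h3 : 0 < t.card := card_pos.2 ⟨v, hv⟩
      omega

/-- the translations do not change the evaluation -/
theorem mu_tr (hmu : ∀ (g : Λ) (s : Finset U), s ∈ mu → g • s ∈ mu) (g : Λ) (w : Finset U → ZMod 2) :
    ∑ᶠ t ∈ mu, w (g • t) = ∑ᶠ t ∈ mu, w t := by
  refine finsum_mem_eq_of_bijOn (fun t => g • t) ⟨fun t ht => hmu g t ht, fun s _ t _ hst => smul_left_cancel g hst,
    fun t ht => ⟨g⁻¹ • t, hmu _ t ht, smul_inv_smul _ _⟩⟩ fun t _ => rfl

/-- exactness in the top degree -/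
theorem exact_mu (h : Crs f K B) (hD : Dual K B mu n (n + 1)) (hmu : ∀ (g : Λ) (s : Finset U), s ∈ mu → g • s ∈ mu)
    {x : PC f K B (n + 1)} (hx : dP h (n + 1) (n + 1 + 1) x = 0) (hm : muP f K B mu (n + 1) x = 0) :
    ∃ y : PC f K B n, dP h n (n + 1) y = x := by
  refine exists_fill h x fun a => ?_
  obtain ⟨z, hz1, hz2, hz3⟩ := exists_val h hx a
  obtain ⟨g, hg1, hg2⟩ := hD.top z hz2 hz3 (by
    have h1 : ∑ᶠ t ∈ mu, z t = ∑ᶠ t ∈ mu, x.1 a (f a • t) := finsum_mem_congr rfl fun t _ => hz1 t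
    rw [h1, mu_tr hmu]
    exact congrFun hm a)
  refine ⟨g, hg1, fun t ht ht' h0 => ?_⟩
  rw [hg2 t ht ht' h0, hz1]

/-- the evaluation is zero on the coboundaries -/
theorem mu_dP (h : Crs f K B) (hD : Dual K B mu n (n + 1)) (y : PC f K B n) :
    muP f K B mu (n + 1) (dP h n (n + 1) y) = 0 := by
  classical
  funext a
  show ∑ᶠ t ∈ mu, cobQ K B (n + 1) (y.1 a) t = 0
  set c := y.1 a with hc
  have hS := PC_finite y a
  have hT : (⋃ s ∈ Function.support c, {t | t ∈ mu ∧ s ⊆ t}).Finite := by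
    refine hS.biUnion fun s hs => ?_
    exact (h.locfin s (PC_supp y hs).1).subset fun t ht => ⟨(hD.mu_sub t ht.1).1, ht.2⟩
  have h1 : ∑ᶠ t ∈ mu, cobQ K B (n + 1) c t = ∑ t ∈ hT.toFinset, cobQ K B (n + 1) c t := by
    refine finsum_mem_eq_sum_of_inter_support_eq _ ?_
    ext t
    constructor
    · rintro ⟨h2, h3⟩
      refine ⟨?_, h3⟩
      rw [Set.Finite.coe_toFinset]
      obtain ⟨-, v, hv, h4⟩ := cobQ_supp h3
      exact Set.mem_biUnion (x := t.erase v) h4 ⟨h2, erase_subset _ _⟩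
    · rintro ⟨h2, h3⟩
      rw [Set.Finite.coe_toFinset] at h2
      obtain ⟨s, -, h4⟩ := Set.mem_iUnion₂.1 h2
      exact ⟨h4.1, h3⟩
  rw [h1]
  have h2 : ∀ t ∈ hT.toFinset, cobQ K B (n + 1) c t = ∑ s ∈ hS.toFinset, if s ⊆ t then c s else 0 := by
    intro t ht
    rw [Set.Finite.mem_toFinset] at ht
    obtain ⟨s₀, -, ht'⟩ := Set.mem_iUnion₂.1 ht
    obtain ⟨h3, h4, h5⟩ := hD.mu_sub t ht'.1
    rw [cobQ_of _ h3 h4 h5, ← sum_filter]
    symm
    have h6 : Set.InjOn (fun v => t.erase v) (t : Set U) := by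
      intro v hv w hw hvw
      by_contra hne
      have h7 : w ∈ t.erase v := mem_erase.2 ⟨Ne.symm hne, hw⟩
      have h8 : t.erase v = t.erase w := hvw
      rw [h8] at h7
      exact (mem_erase.1 h7).1 rfl
    rw [← sum_image (f := c) (g := fun v => t.erase v) (s := t) h6]
    refine sum_subset ?_ ?_
    · intro s hs
      obtain ⟨h7, h8⟩ := mem_filter.1 hs
      rw [Set.Finite.mem_toFinset] at h7
      have h9 : s.card = n := (PC_supp y h7).2.2
      obtain ⟨v, hv⟩ : (t \ s).Nonempty := by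
        rw [← card_pos, card_sdiff_of_subset h8]
        omega
      rw [mem_sdiff] at hv
      refine mem_image.2 ⟨v, hv.1, ?_⟩
      symm
      refine eq_of_subset_of_card_le (subset_erase.2 ⟨h8, hv.2⟩) ?_
      rw [card_erase_of_mem hv.1]
      omega
    · intro s hs hs'
      by_contra h0
      apply hs'
      rw [mem_filter, Set.Finite.mem_toFinset]
      obtain ⟨v, -, rfl⟩ := mem_image.1 hs
      exact ⟨h0, erase_subset _ _⟩
  rw [sum_congr rfl h2, sum_comm]
  refine sum_eq_zero fun s hs => ?_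
  rw [Set.Finite.mem_toFinset] at hs
  obtain ⟨h3, h4, h5⟩ := PC_supp y hs
  rw [← sum_filter, sum_const]
  have h6 := hD.even s h3 h4 h5
  have h7 : {t | t ∈ mu ∧ s ⊆ t} = ((hT.toFinset.filter fun t => s ⊆ t : Finset (Finset U)) : Set (Finset U)) := by
    ext t
    simp only [Finset.coe_filter, Set.Finite.mem_toFinset]
    constructor
    · intro h8
      exact ⟨Set.mem_biUnion (x := s) hs h8, h8.2⟩
    · rintro ⟨h8, h9⟩
      obtain ⟨s', -, h10⟩ := Set.mem_iUnion₂.1 h8
      exact ⟨h10.1, h9⟩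
  rw [h7, Set.ncard_coe_finset] at h6
  obtain ⟨k, hk⟩ := h6
  rw [hk, add_nsmul]
  exact add_self_tt _

/-- a cocycle with the constant value one -/
theorem exists_one (h : Crs f K B) (hD : Dual K B mu n (n + 1)) (hmu : ∀ (g : Λ) (s : Finset U), s ∈ mu → g • s ∈ mu) :
    ∃ x : PC f K B (n + 1), dP h (n + 1) (n + 1 + 1) x = 0 ∧ muP f K B mu (n + 1) x = fun _ => 1 := by
  classical
  obtain ⟨w, hw1, hw2, hw3⟩ := hD.ex
  refine ⟨⟨fun a s => w ((f a)⁻¹ • s), PC_of h (w := fun _ => w) (fun _ => hw1) w.hasFiniteSupport fun _ s hs => hs⟩, ?_, ?_⟩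
  · refine Subtype.ext ?_
    funext a t
    show cobQ K B (n + 1 + 1) (fun s => w ((f a)⁻¹ • s)) t = 0
    rw [cobQ_tr h]
    by_contra h0
    obtain ⟨⟨h1, h2, h3⟩, -⟩ := cobQ_supp h0
    apply h0
    rw [cobQ_of _ h1 h2 h3]
    have h4 := hw2 _ h1 h2 (empty_subset _)
    rwa [sdiff_empty] at h4
  · funext a
    show ∑ᶠ t ∈ mu, w ((f a)⁻¹ • t) = 1
    rw [mu_tr hmu, hw3]

end Pool.Agent.CE
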