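import Pool.Agent.CE.Cmp
import Pool.Agent.S11.EdC
import Pool.Agent.S11.EdBA
import Pool.Agent.H37.TM.MDefs

/-!
# Project CE: the augmented complex of the chains of `X`
-/

set_option autoImplicit false
set_option linter.unusedSectionVars false

open Finset Pointwise
open scoped TensorProduct

noncomputable section

namespace Pool.Agent.CE

open Pool.Agent.S11 Pool.Agent.H37.TM

variable {H V : Type} [Group H] [DecidableEq V] [MulAction H V] {X : Set (Finset V)}

/-- the chains of `X` of the dimension `p` -/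
abbrev CX (X : Set (Finset V)) (p : ℕ) : Type := Sx X (∅ : Set (Finset V)) (p + 1) →₀ ZMod 2

/-- the augmentation -/
def augX (X : Set (Finset V)) : CX X 0 →ₗ[ZMod 2] ZMod 2 := Finsupp.linearCombination (ZMod 2) fun _ => 1

/-- the square of the boundary -/
private theorem bb (f : Finset V →₀ ZMod 2) : bdS (bdS f) = 0 := by
  induction f using Finsupp.induction_linear with
  | zero => simp
  | add a b ha hb => rw [map_add, map_add, ha, hb, add_zero]
  | single s a =>
    have h1 : (Finsupp.single s a : Finset V →₀ ZMod 2) = a • Finsupp.single s 1 := by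
      rw [Finsupp.smul_single, smul_eq_mul, mul_one]
    rw [h1, map_smul, map_smul, bdS_sgl, map_sum]
    have h2 : ∀ v ∈ s, bdS (Finsupp.single (s.erase v) (1 : ZMod 2)) =
        ∑ w ∈ s.erase v, Finsupp.single ((s.erase v).erase w) (1 : ZMod 2) := fun v _ => bdS_sgl _
    rw [sum_congr rfl h2, sum_sum_erase (fun t => Finsupp.single t (1 : ZMod 2)) s, smul_zero]

private theorem inc_inj {q : ℕ} {x y : Sx X (∅ : Set (Finset V)) q →₀ ZMod 2} (h : incS X ∅ q x = incS X ∅ q y) :
    x = y := by
  ext s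
  rw [← incS_mem x s, ← incS_mem y s, h]

private theorem inc_supp {q : ℕ} (x : Sx X (∅ : Set (Finset V)) q →₀ ZMod 2) {s : Finset V} (hs : incS X ∅ q x s ≠ 0) :
    s ∈ X ∧ s ∉ (∅ : Set (Finset V)) ∧ s.card = q := by
  by_contra h
  exact hs (incS_not x h)

/-- the support of a boundary -/
private theorem bd_supp {f : Finset V →₀ ZMod 2} {s : Finset V} (hs : bdS f s ≠ 0) : ∃ t, f t ≠ 0 ∧ ∃ v ∈ t, t.erase v = s := by
  classical
  unfold bdS at hs
  rw [Finsupp.linearCombination_apply, Finsupp.sum, Finsupp.finsetSum_apply] at hs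
  obtain ⟨t, ht, h1⟩ := exists_ne_zero_of_sum_ne_zero hs
  refine ⟨t, Finsupp.mem_support_iff.1 ht, ?_⟩
  by_contra h2
  push Not at h2
  apply h1
  rw [Finsupp.smul_apply, Finsupp.finsetSum_apply, sum_eq_zero fun v hv => ?_, smul_zero]
  rw [Finsupp.single_apply, if_neg (h2 v hv)]

/-- the boundary in the two forms -/
private theorem inc_bd (hd : ∀ s ∈ X, ∀ t, t ⊆ s → t.Nonempty → t ∈ X) {p : ℕ} (x : CX X (p + 1)) :
    incS X ∅ (p + 1) (bdX X (p + 1) x) = bdS (incS X ∅ (p + 1 + 1) x) := by
  ext s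
  by_cases hs : s ∈ X ∧ s ∉ (∅ : Set (Finset V)) ∧ s.card = p + 1
  · exact (incS_mem (bdX X (p + 1) x) ⟨s, hs⟩).trans (bdX_bdS x ⟨s, hs⟩)
  · rw [incS_not _ hs]
    by_contra h
    obtain ⟨t, ht, v, hv, rfl⟩ := bd_supp (Ne.symm h)
    obtain ⟨h1, -, h2⟩ := inc_supp x ht
    apply hs
    have h3 : (t.erase v).card = p + 1 := by
      rw [card_erase_of_mem hv, h2]
      omega
    exact ⟨hd t h1 _ (erase_subset _ _) (card_pos.1 (by omega)), Set.notMem_empty _, h3⟩

private theorem inc_aug (x : CX X 0) : bdS (incS X ∅ (0 + 1) x) = Finsupp.single ∅ (augX X x) := by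
  induction x using Finsupp.induction_linear with
  | zero => simp
  | add a b ha hb => rw [map_add, map_add, map_add, ha, hb, Finsupp.single_add]
  | single s a =>
    have h1 : (Finsupp.single s.1 a : Finset V →₀ ZMod 2) = a • Finsupp.single s.1 1 := by
      rw [Finsupp.smul_single, smul_eq_mul, mul_one]
    obtain ⟨v, hv⟩ := card_eq_one.1 s.2.2.2
    rw [incS_single, h1, map_smul, bdS_sgl, hv, sum_singleton, erase_singleton]
    unfold augX
    rw [Finsupp.linearCombination_single, Finsupp.smul_single]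

theorem cpx_X (hX : SCx H X (∅ : Set (Finset V))) :
    Cpx (C := CX X) (fun p => cRep hX (p + 1)) (Representation.trivial (ZMod 2) H (ZMod 2)) (fun p => bdX X (p + 1)) (augX X) where
  d_smul := fun p g x => bdX_smul hX (p + 1) g x
  e_smul := by
    intro g x
    show augX X (cRep hX (0 + 1) g x) = augX X x
    induction x using Finsupp.induction_linear with
    | zero => rw [map_zero]
    | add a b ha hb => rw [map_add, map_add, map_add, ha, hb]
    | single s a =>
      rw [cRep_single]
      unfold augX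
      rw [Finsupp.linearCombination_single, Finsupp.linearCombination_single]
  dd := by
    intro p x
    apply inc_inj
    rw [inc_bd hX.down, inc_bd hX.down, bb, map_zero]
  ed := by
    intro x
    have h1 := inc_aug (bdX X (0 + 1) x)
    rw [inc_bd hX.down, bb] at h1
    exact (Finsupp.single_eq_zero.1 h1.symm)

theorem exc_X (hX : SCx H X (∅ : Set (Finset V))) (hac : Acyc X) : Exc (C := CX X) (fun p => bdX X (p + 1)) (augX X) where
  ex := by
    intro p x hx
    have h1 : bdS (incS X ∅ (p + 1 + 1) x) = 0 := by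
      rw [← inc_bd hX.down, hx, map_zero]
    obtain ⟨y, hy, hyx⟩ := MX_exact hac (k := p + 1 + 1) (x := incS X ∅ (p + 1 + 1) x) (fun s hs => by
      obtain ⟨h2, -, h3⟩ := inc_supp x hs
      exact ⟨Or.inl h2, h3⟩) h1
    rw [mem_MX] at hy
    refine ⟨resS X ∅ (p + 1 + 1 + 1) y, inc_inj ?_⟩
    rw [inc_bd hX.down, incS_resS (fun s hs => ⟨(hy s hs).1, Set.notMem_empty s, (hy s hs).2⟩), hyx]
  ex0 := by
    intro x hx
    have h1 : bdS (incS X ∅ (0 + 1) x) = 0 := by
      rw [inc_aug, hx, Finsupp.single_zero]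
    obtain ⟨y, hy, hyx⟩ := MX_exact hac (k := 0 + 1) (x := incS X ∅ (0 + 1) x) (fun s hs => by
      obtain ⟨h2, -, h3⟩ := inc_supp x hs
      exact ⟨Or.inl h2, h3⟩) h1
    rw [mem_MX] at hy
    refine ⟨resS X ∅ (0 + 1 + 1) y, inc_inj ?_⟩
    rw [inc_bd hX.down, incS_resS (fun s hs => ⟨(hy s hs).1, Set.notMem_empty s, (hy s hs).2⟩), hyx]

theorem aug_surj (hX : SCx H X (∅ : Set (Finset V))) (hac : Acyc X) : Function.Surjective (augX X) := by
  intro a
  have h1 : bdS (Finsupp.single (∅ : Finset V) a) = 0 := by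
    unfold bdS
    rw [Finsupp.linearCombination_single, sum_empty, smul_zero]
  obtain ⟨y, hy, hyx⟩ := MX_exact hac (k := 0) (x := Finsupp.single (∅ : Finset V) a) (fun s hs => by
    rw [Finsupp.single_apply] at hs
    split_ifs at hs with h
    · exact ⟨Or.inr h.symm, by rw [← h, card_empty]⟩
    · exact absurd rfl hs) h1
  rw [mem_MX] at hy
  refine ⟨resS X ∅ (0 + 1) y, ?_⟩
  have h2 := inc_aug (resS X ∅ (0 + 1) y)
  rw [incS_resS (fun s hs => ⟨(hy s hs).1, Set.notMem_empty s, (hy s hs).2⟩), hyx] at h2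
  exact (Finsupp.single_injective _ h2).symm

end Pool.Agent.CE
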