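import Pool.Agent.CE.Defs

/-!
# Project CE: the comparison of complexes

`Cpx ρ α d ε`: an augmented complex of representations; `Exc d ε`: it is exact.  `exists_chain`: chain maps from complexes
of projective representations to exact complexes.  `exists_htpy`: two lifts of the same map are homotopic (modulo two:
the lift `φ` of zero is `φ = e s + s d`).
-/

set_option autoImplicit false
set_option linter.unusedSectionVars false

open Finset
open scoped TensorProduct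

noncomputable section

namespace Pool.Agent.CE

open Pool.Agent.S11

variable {H : Type} [Group H] {C E : ℕ → Type} [∀ p, AddCommGroup (C p)] [∀ p, Module (ZMod 2) (C p)]
  [∀ p, AddCommGroup (E p)] [∀ p, Module (ZMod 2) (E p)] {A A' : Type} [AddCommGroup A] [Module (ZMod 2) A]
  [AddCommGroup A'] [Module (ZMod 2) A']

/-- augmented complexes of representations -/
structure Cpx (ρ : ∀ p, Representation (ZMod 2) H (C p)) (α : Representation (ZMod 2) H A)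
    (d : ∀ p, C (p + 1) →ₗ[ZMod 2] C p) (ε : C 0 →ₗ[ZMod 2] A) : Prop where
  d_smul : ∀ p g x, d p (ρ (p + 1) g x) = ρ p g (d p x)
  e_smul : ∀ g x, ε (ρ 0 g x) = α g (ε x)
  dd : ∀ p x, d p (d (p + 1) x) = 0
  ed : ∀ x, ε (d 0 x) = 0

/-- exactness -/
structure Exc (d : ∀ p, C (p + 1) →ₗ[ZMod 2] C p) (ε : C 0 →ₗ[ZMod 2] A) : Prop where
  ex : ∀ p x, d p x = 0 → ∃ y, d (p + 1) y = x
  ex0 : ∀ x, ε x = 0 → ∃ y, d 0 y = x

variable {ρ : ∀ p, Representation (ZMod 2) H (C p)} {σ : ∀ p, Representation (ZMod 2) H (E p)}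
  {α : Representation (ZMod 2) H A} {α' : Representation (ZMod 2) H A'}
  {d : ∀ p, C (p + 1) →ₗ[ZMod 2] C p} {e : ∀ p, E (p + 1) →ₗ[ZMod 2] E p} {ε : C 0 →ₗ[ZMod 2] A} {ε' : E 0 →ₗ[ZMod 2] A'}

/-- **The comparison: existence.** -/
theorem exists_chain (hC : Cpx ρ α d ε) (hP : ∀ p, Prj (ρ p)) (hE : Cpx σ α' e ε') (hx : Exc e ε')
    (θ : A →ₗ[ZMod 2] A') (hθ : ∀ g x, θ (α g x) = α' g (θ x)) (hr : ∀ x, ∃ y, ε' y = θ (ε x)) :
    ∃ φ : ∀ p, C p →ₗ[ZMod 2] E p, (∀ p g x, φ p (ρ p g x) = σ p g (φ p x)) ∧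
      (∀ p x, e p (φ (p + 1) x) = φ p (d p x)) ∧ ∀ x, ε' (φ 0 x) = θ (ε x) := by
  -- pairs of consecutive maps
  let S : ℕ → Type := fun p => {a : (C p →ₗ[ZMod 2] E p) × (C (p + 1) →ₗ[ZMod 2] E (p + 1)) //
    (∀ g x, a.1 (ρ p g x) = σ p g (a.1 x)) ∧ (∀ g x, a.2 (ρ (p + 1) g x) = σ (p + 1) g (a.2 x)) ∧
      ∀ x, e p (a.2 x) = a.1 (d p x)}
  have hstep : ∀ p (a : S p), ∃ b : S (p + 1), b.1.1 = a.1.2 := by
    rintro p ⟨⟨a1, a2⟩, h2, h3, h4⟩
    obtain ⟨c, hc1, hc2⟩ := hP (p + 2) _ _ (σ (p + 2)) (σ (p + 1)) (e (p + 1)) (a2 ∘ₗ d (p + 1))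
      (fun g x => hE.d_smul (p + 1) g x)
      (fun g x => by
        show a2 (d (p + 1) (ρ (p + 2) g x)) = σ (p + 1) g (a2 (d (p + 1) x))
        rw [hC.d_smul, h3])
      (fun x => hx.ex p _ (by
        show e p (a2 (d (p + 1) x)) = 0
        rw [h4]
        show a1 (d p (d (p + 1) x)) = 0
        rw [hC.dd, map_zero]))
    exact ⟨⟨(a2, c), h3, hc1, hc2⟩, rfl⟩
  choose nx hnx using hstep
  obtain ⟨φ₀, h0, h1⟩ := hP 0 _ _ (σ 0) α' ε' (θ ∘ₗ ε) (fun g x => hE.e_smul g x)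
    (fun g x => by
      show θ (ε (ρ 0 g x)) = α' g (θ (ε x))
      rw [hC.e_smul, hθ])
    (fun x => hr x)
  obtain ⟨φ₁, h2, h3⟩ := hP 1 _ _ (σ 1) (σ 0) (e 0) (φ₀ ∘ₗ d 0) (fun g x => hE.d_smul 0 g x)
    (fun g x => by
      show φ₀ (d 0 (ρ 1 g x)) = σ 0 g (φ₀ (d 0 x))
      rw [hC.d_smul, h0])
    (fun x => hx.ex0 _ (by
      show ε' (φ₀ (d 0 x)) = 0
      rw [h1]
      show θ (ε (d 0 x)) = 0
      rw [hC.ed, map_zero]))
  let s : ∀ p, S p := fun p => Nat.rec (motive := S) ⟨(φ₀, φ₁), h0, h2, h3⟩ (fun p a => nx p a) p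
  refine ⟨fun p => (s p).1.1, fun p g x => (s p).2.1 g x, fun p x => ?_, fun x => h1 x⟩
  have h4 : (s (p + 1)).1.1 = (s p).1.2 := hnx p (s p)
  show e p ((s (p + 1)).1.1 x) = (s p).1.1 (d p x)
  rw [h4]
  exact (s p).2.2.2 x

/-- **The comparison: homotopies.** -/
theorem exists_htpy (hC : Cpx ρ α d ε) (hP : ∀ p, Prj (ρ p)) (hE : Cpx σ α' e ε') (hx : Exc e ε')
    (φ : ∀ p, C p →ₗ[ZMod 2] E p) (h1 : ∀ p g x, φ p (ρ p g x) = σ p g (φ p x))
    (h2 : ∀ p x, e p (φ (p + 1) x) = φ p (d p x)) (h3 : ∀ x, ε' (φ 0 x) = 0) :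
    ∃ s : ∀ p, C p →ₗ[ZMod 2] E (p + 1), (∀ p g x, s p (ρ p g x) = σ (p + 1) g (s p x)) ∧
      (∀ x, e 0 (s 0 x) = φ 0 x) ∧ ∀ p x, e (p + 1) (s (p + 1) x) = φ (p + 1) x + s p (d p x) := by
  let S : ℕ → Type := fun p => {a : C p →ₗ[ZMod 2] E (p + 1) // (∀ g x, a (ρ p g x) = σ (p + 1) g (a x)) ∧
    ∀ x, e p (a (d p x)) = φ p (d p x)}
  have hstep : ∀ p (a : S p), ∃ b : S (p + 1), ∀ x, e (p + 1) (b.1 x) = φ (p + 1) x + a.1 (d p x) := by
    rintro p ⟨a, h4, h5⟩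
    obtain ⟨c, hc1, hc2⟩ := hP (p + 1) _ _ (σ (p + 2)) (σ (p + 1)) (e (p + 1)) (φ (p + 1) + a ∘ₗ d p)
      (fun g x => hE.d_smul (p + 1) g x)
      (fun g x => by
        show φ (p + 1) (ρ (p + 1) g x) + a (d p (ρ (p + 1) g x)) = σ (p + 1) g (φ (p + 1) x + a (d p x))
        rw [hC.d_smul, h4, h1, map_add])
      (fun x => hx.ex p _ (by
        show e p (φ (p + 1) x + a (d p x)) = 0
        rw [map_add, h5, h2, add_self_tt]))
    have hc3 : ∀ x, e (p + 1) (c x) = φ (p + 1) x + a (d p x) := hc2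
    refine ⟨⟨c, hc1, fun x => ?_⟩, hc3⟩
    rw [hc3, hC.dd, map_zero, add_zero]
  choose nx hnx using hstep
  obtain ⟨s₀, h4, h5⟩ := hP 0 _ _ (σ 1) (σ 0) (e 0) (φ 0) (fun g x => hE.d_smul 0 g x) (fun g x => h1 0 g x)
    (fun x => hx.ex0 _ (h3 x))
  let s : ∀ p, S p := fun p => Nat.rec (motive := S) ⟨s₀, h4, fun x => h5 _⟩ (fun p a => nx p a) p
  exact ⟨fun p => (s p).1, fun p g x => (s p).2.1 g x, fun x => h5 x, fun p x => hnx p (s p) x⟩

/-- the tensor product with a representation `L` -/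
theorem Cpx.rTensor (hC : Cpx ρ α d ε) {L : Type} [AddCommGroup L] [Module (ZMod 2) L] (l : Representation (ZMod 2) H L) :
    Cpx (C := fun p => C p ⊗[ZMod 2] L) (fun p => (ρ p).tprod l) (α.tprod l) (fun p => (d p).rTensor L) (ε.rTensor L) := by
  have h1 : ∀ {X Y Z : Type} [AddCommGroup X] [Module (ZMod 2) X] [AddCommGroup Y] [Module (ZMod 2) Y] [AddCommGroup Z]
      [Module (ZMod 2) Z] (a : X →ₗ[ZMod 2] Y) (b : Y →ₗ[ZMod 2] Z), (∀ x, b (a x) = 0) →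
      ∀ x : X ⊗[ZMod 2] L, b.rTensor L (a.rTensor L x) = 0 := by
    intro X Y Z _ _ _ _ _ _ a b hab x
    rw [← LinearMap.comp_apply, ← LinearMap.rTensor_comp]
    have h2 : b ∘ₗ a = 0 := LinearMap.ext hab
    rw [h2, LinearMap.rTensor_zero, LinearMap.zero_apply]
  exact
    { d_smul := fun p g x => rTensor_tprod l (hC.d_smul p) g x
      e_smul := fun g x => rTensor_tprod l hC.e_smul g x
      dd := fun p x => h1 _ _ (hC.dd p) x
      ed := fun x => h1 _ _ hC.ed x }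

/-- the tensor product of an exact complex with `L` -/
theorem Exc.rTensor (hx : Exc d ε) (hd : ∀ p x, d p (d (p + 1) x) = 0) (he : ∀ x, ε (d 0 x) = 0)
    (L : Type) [AddCommGroup L] [Module (ZMod 2) L] :
    Exc (C := fun p => C p ⊗[ZMod 2] L) (fun p => (d p).rTensor L) (ε.rTensor L) := by
  have h1 : ∀ p, Function.Exact (d (p + 1)) (d p) := fun p x =>
    ⟨fun h => hx.ex p x h, by
      rintro ⟨y, rfl⟩
      exact hd p y⟩
  have h2 : Function.Exact (d 0) ε := fun x =>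
    ⟨fun h => hx.ex0 x h, by
      rintro ⟨y, rfl⟩
      exact he y⟩
  exact
    { ex := fun p x h => (Module.Flat.rTensor_exact L (h1 p) x).1 h
      ex0 := fun x h => (Module.Flat.rTensor_exact L h2 x).1 h }

end Pool.Agent.CE
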