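import Pool.Agent.S11.SqC
import Pool.Agent.S11.EdC0
import Pool.Agent.H10.CI.CDefs

/-!
# Project CE: definitions

`Crs f K B`: `f : H → Λ` is a coarse embedding, `Λ` acts properly on the locally finite simplicial pair `(K, B)`.
`Ctl`: controlled cochains with values in a representation of `H`.  `PC f K B q`: the controlled functions on `H` with
values in the finite cochains of `(K, B)` on the simplices with `q` vertices; `PR`: the representation of `H`; `dP`: the
coboundary; `muP`: the evaluation at the fundamental cycle, with values in `ell` = all functions `H → ZMod 2`.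
`Loc`: locally finite decompositions (the module is a summand of an induced module).
-/

set_option autoImplicit false
set_option linter.unusedSectionVars false

open Finset Pointwise
open scoped TensorProduct

noncomputable section

namespace Pool.Agent.CE

open Pool.Agent.S11 Pool.Agent.H10.CI

section

variable {H Λ U : Type} [Group H] [Group Λ] [DecidableEq U] [MulAction Λ U]

/-- `f` is a coarse embedding of the group `H` in a group which acts properly on the locally finite pair `(K, B)` -/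
structure Crs (f : H → Λ) (K B : Set (Finset U)) : Prop where
  emb : CoarseEmb f
  ne : ∀ s ∈ K, s.Nonempty
  down : ∀ s ∈ K, ∀ t, t ⊆ s → t.Nonempty → t ∈ K
  bd_sub : B ⊆ K
  bd_down : ∀ s ∈ B, ∀ t, t ⊆ s → t.Nonempty → t ∈ B
  locfin : ∀ s ∈ K, {t | t ∈ K ∧ s ⊆ t}.Finite
  K_mem : ∀ (g : Λ) (s : Finset U), s ∈ K → g • s ∈ K
  B_mem : ∀ (g : Λ) (s : Finset U), s ∈ B → g • s ∈ B
  prop : ∀ s ∈ K, ∀ t : Finset U, {g : Λ | g • s = t}.Finite

variable {f : H → Λ} {K B : Set (Finset U)} {W : Type} [AddCommGroup W] [Module (ZMod 2) W]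

/-- simplices near to each other -/
theorem Crs.near (h : Crs f K B) {t : Finset U} (ht : t ∈ K) (t' : Finset U) :
    {a : H | ∃ g : H, f (g * a) • t = f g • t'}.Finite := by
  refine (h.emb.prop_fin (h.prop t ht t')).subset ?_
  rintro a ⟨g, hg⟩
  refine ⟨g, ?_⟩
  show ((f g)⁻¹ * f (g * a)) • t = t'
  rw [mul_smul, hg, inv_smul_smul]

/-- controlled cochains of `K` relative to `B` on the simplices with `q` vertices with values in `ρ` -/
structure Ctl (f : H → Λ) (K B : Set (Finset U)) (ρ : H →* Module.End (ZMod 2) W) (q : ℕ) (c : Finset U → W) : Prop where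
  supp : ∀ s, c s ≠ 0 → s ∈ K ∧ s ∉ B ∧ s.card = q
  fin : ∃ F : Finset (Finset U), ∀ s, c s ≠ 0 → ∃ h : H, ∃ t ∈ F, s = f h • t
  val : ∀ t : Finset U, ∃ E : Set W, E.Finite ∧ ∀ h : H, ∃ w ∈ E, c (f h • t) = ρ h w

/-- the cohomology of the controlled cochains vanishes -/
def CtlExact (f : H → Λ) (K B : Set (Finset U)) (ρ : H →* Module.End (ZMod 2) W) (q : ℕ) : Prop :=
  ∀ c : Finset U → W, Ctl f K B ρ (q + 1) c → IsCb K B c 0 → ∃ b, Ctl f K B ρ q b ∧ IsCb K B b c

/-- the controlled functions with values in the finite cochains -/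
def PC (f : H → Λ) (K B : Set (Finset U)) (q : ℕ) : Submodule (ZMod 2) (H → Finset U → ZMod 2) where
  carrier := {c | (∀ h s, c h s ≠ 0 → s ∈ K ∧ s ∉ B ∧ s.card = q) ∧
    ∃ F : Finset (Finset U), ∀ h s, c h s ≠ 0 → ∃ t ∈ F, s = f h • t}
  add_mem' := by
    rintro a b ⟨ha, F, hF⟩ ⟨hb, F', hF'⟩
    refine ⟨fun h s hs => ?_, F ∪ F', fun h s hs => ?_⟩
    · by_cases h0 : a h s = 0
      · refine hb h s fun h1 => hs ?_
        show a h s + b h s = 0
        rw [h0, h1, add_zero]
      · exact ha h s h0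
    · by_cases h0 : a h s = 0
      · obtain ⟨t, ht, hts⟩ := hF' h s fun h1 => hs (by
          show a h s + b h s = 0
          rw [h0, h1, add_zero])
        exact ⟨t, mem_union_right _ ht, hts⟩
      · obtain ⟨t, ht, hts⟩ := hF h s h0
        exact ⟨t, mem_union_left _ ht, hts⟩
  zero_mem' := ⟨fun _ _ hs => absurd rfl hs, ∅, fun _ _ hs => absurd rfl hs⟩
  smul_mem' := by
    rintro r a ⟨ha, F, hF⟩
    have h1 : ∀ h s, (r • a) h s ≠ 0 → a h s ≠ 0 := by
      intro h s hs h0
      apply hs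
      show r • a h s = 0
      rw [h0, smul_zero]
    exact ⟨fun h s hs => ha h s (h1 h s hs), F, fun h s hs => hF h s (h1 h s hs)⟩

variable {q : ℕ}

theorem PC_supp (c : PC f K B q) {h : H} {s : Finset U} (hs : c.1 h s ≠ 0) : s ∈ K ∧ s ∉ B ∧ s.card = q := c.2.1 h s hs

theorem PC_fin (c : PC f K B q) : ∃ F : Finset (Finset U), ∀ h s, c.1 h s ≠ 0 → ∃ t ∈ F, s = f h • t := c.2.2

/-- the right translations -/
theorem PC_tr (h : Crs f K B) (g : H) {c : H → Finset U → ZMod 2} (hc : c ∈ PC f K B q) :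
    (fun a s => c (a * g) s) ∈ PC f K B q := by
  classical
  obtain ⟨h1, F, hF⟩ := hc
  refine ⟨fun a s hs => h1 (a * g) s hs, ((h.emb.lip g).toFinset ×ˢ F).image fun p => p.1 • p.2, fun a s hs => ?_⟩
  obtain ⟨t, ht, hts⟩ := hF (a * g) s hs
  refine ⟨((f a)⁻¹ * f (a * g)) • t, mem_image.2 ⟨((f a)⁻¹ * f (a * g), t), mem_product.2 ⟨?_, ht⟩, rfl⟩, ?_⟩
  · rw [Set.Finite.mem_toFinset]
    exact ⟨a, rfl⟩
  · rw [hts, mul_smul, smul_inv_smul]

/-- the representation of `H` on the controlled functions: right translations -/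
def PR (h : Crs f K B) (q : ℕ) : Representation (ZMod 2) H (PC f K B q) where
  toFun g :=
    { toFun := fun c => ⟨fun a s => c.1 (a * g) s, PC_tr h g c.2⟩
      map_add' := fun _ _ => rfl
      map_smul' := fun _ _ => rfl }
  map_one' := by
    refine LinearMap.ext fun c => Subtype.ext ?_
    funext a s
    show c.1 (a * 1) s = c.1 a s
    rw [mul_one]
  map_mul' g g' := by
    refine LinearMap.ext fun c => Subtype.ext ?_
    funext a s
    show c.1 (a * (g * g')) s = c.1 (a * g * g') s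
    rw [mul_assoc]

@[simp] theorem PR_apply (h : Crs f K B) (q : ℕ) (g : H) (c : PC f K B q) (a : H) (s : Finset U) :
    (PR h q g c).1 a s = c.1 (a * g) s := rfl

open Classical in
/-- the coboundary, on the simplices with `b` vertices -/
def cobQ (K B : Set (Finset U)) (b : ℕ) (c : Finset U → ZMod 2) (t : Finset U) : ZMod 2 :=
  if t ∈ K ∧ t ∉ B ∧ t.card = b then ∑ v ∈ t, c (t.erase v) else 0

theorem cobQ_supp {b : ℕ} {c : Finset U → ZMod 2} {t : Finset U} (h : cobQ K B b c t ≠ 0) :
    (t ∈ K ∧ t ∉ B ∧ t.card = b) ∧ ∃ v ∈ t, c (t.erase v) ≠ 0 := by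
  classical
  unfold cobQ at h
  split_ifs at h with h1
  · exact ⟨h1, exists_ne_zero_of_sum_ne_zero h⟩
  · exact absurd rfl h

theorem cobQ_of {b : ℕ} (c : Finset U → ZMod 2) {t : Finset U} (ht : t ∈ K) (ht' : t ∉ B) (hb : t.card = b) :
    cobQ K B b c t = ∑ v ∈ t, c (t.erase v) := if_pos ⟨ht, ht', hb⟩

/-- the coboundary of a controlled function is controlled -/
theorem PC_cob (h : Crs f K B) {a : ℕ} (b : ℕ) {c : H → Finset U → ZMod 2} (hc : c ∈ PC f K B a) :
    (fun g => cobQ K B b (c g)) ∈ PC f K B b := by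
  classical
  obtain ⟨h1, F, hF⟩ := hc
  refine ⟨fun g s hs => (cobQ_supp hs).1, (F.filter (· ∈ K)).attach.biUnion fun t =>
    (h.locfin t.1 (mem_filter.1 t.2).2).toFinset, fun g s hs => ?_⟩
  obtain ⟨h2, v, hv, hv'⟩ := cobQ_supp hs
  obtain ⟨t, ht, hts⟩ := hF g _ hv'
  have h3 : t ∈ K := by
    have h4 := h.K_mem (f g)⁻¹ _ (h1 g _ hv').1
    rwa [hts, inv_smul_smul] at h4
  refine ⟨(f g)⁻¹ • s, mem_biUnion.2 ⟨⟨t, mem_filter.2 ⟨ht, h3⟩⟩, mem_attach _ _, ?_⟩, (smul_inv_smul _ _).symm⟩
  rw [Set.Finite.mem_toFinset]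
  refine ⟨h.K_mem _ _ h2.1, ?_⟩
  have h4 : t = (f g)⁻¹ • s.erase v := by rw [hts, inv_smul_smul]
  show t ⊆ (f g)⁻¹ • s
  rw [h4]
  exact smul_finset_subset_smul_finset (erase_subset _ _)

/-- the coboundary of the controlled functions (zero unless `b = a + 1`) -/
def dP (h : Crs f K B) (a b : ℕ) : PC f K B a →ₗ[ZMod 2] PC f K B b where
  toFun c := ⟨fun g => cobQ K B b (c.1 g), PC_cob h b c.2⟩
  map_add' c c' := by
    refine Subtype.ext ?_
    funext g t
    show cobQ K B b (c.1 g + c'.1 g) t = cobQ K B b (c.1 g) t + cobQ K B b (c'.1 g) t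
    unfold cobQ
    split_ifs
    · rw [← sum_add_distrib]
      rfl
    · rfl
  map_smul' r c := by
    refine Subtype.ext ?_
    funext g t
    show cobQ K B b (r • c.1 g) t = r • cobQ K B b (c.1 g) t
    unfold cobQ
    split_ifs
    · rw [smul_sum]
      rfl
    · rw [smul_zero]

@[simp] theorem dP_apply (h : Crs f K B) (a b : ℕ) (c : PC f K B a) (g : H) (t : Finset U) :
    (dP h a b c).1 g t = cobQ K B b (c.1 g) t := rfl

theorem dP_smul (h : Crs f K B) (a b : ℕ) (g : H) (c : PC f K B a) : dP h a b (PR h a g c) = PR h b g (dP h a b c) := rfl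

/-- the values of a controlled function have finite supports -/
theorem PC_finite (c : PC f K B q) (g : H) : (Function.support (c.1 g)).Finite := by
  classical
  obtain ⟨F, hF⟩ := PC_fin c
  refine (F.image fun t => f g • t).finite_toSet.subset fun s hs => ?_
  obtain ⟨t, ht, hts⟩ := hF g s hs
  exact mem_coe.2 (mem_image.2 ⟨t, ht, hts.symm⟩)

/-- the functions `H → ZMod 2` with the right translations -/
def ell (H : Type) [Group H] : Representation (ZMod 2) H (H → ZMod 2) where
  toFun g :=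
    { toFun := fun u a => u (a * g)
      map_add' := fun _ _ => rfl
      map_smul' := fun _ _ => rfl }
  map_one' := by
    refine LinearMap.ext fun u => ?_
    funext a
    show u (a * 1) = u a
    rw [mul_one]
  map_mul' g g' := by
    refine LinearMap.ext fun u => ?_
    funext a
    show u (a * (g * g')) = u (a * g * g')
    rw [mul_assoc]

@[simp] theorem ell_apply (g : H) (u : H → ZMod 2) (a : H) : ell H g u a = u (a * g) := rfl

/-- the evaluation at the set `mu` of simplices -/
def muP (f : H → Λ) (K B : Set (Finset U)) (mu : Set (Finset U)) (q : ℕ) : PC f K B q →ₗ[ZMod 2] (H → ZMod 2) where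
  toFun c g := ∑ᶠ t ∈ mu, c.1 g t
  map_add' c c' := by
    funext g
    show ∑ᶠ t ∈ mu, (c.1 g t + c'.1 g t) = ∑ᶠ t ∈ mu, c.1 g t + ∑ᶠ t ∈ mu, c'.1 g t
    exact finsum_mem_add_distrib' ((PC_finite c g).subset Set.inter_subset_right)
      ((PC_finite c' g).subset Set.inter_subset_right)
  map_smul' r c := by
    funext g
    show ∑ᶠ t ∈ mu, r • c.1 g t = r • ∑ᶠ t ∈ mu, c.1 g t
    rcases (show r = 0 ∨ r = 1 by revert r; decide) with rfl | rfl
    · simp
    · simp

@[simp] theorem muP_apply (mu : Set (Finset U)) (c : PC f K B q) (g : H) : muP f K B mu q c g = ∑ᶠ t ∈ mu, c.1 g t := rfl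

theorem muP_smul (h : Crs f K B) (mu : Set (Finset U)) (g : H) (c : PC f K B q) :
    muP f K B mu q (PR h q g c) = ell H g (muP f K B mu q c) := rfl

end

section

variable {H : Type} [Group H]

/-- locally finite decompositions -/
structure LocE {P : Type} [AddCommGroup P] [Module (ZMod 2) P] (ρ : Representation (ZMod 2) H P)
    (e : P →ₗ[ZMod 2] P) : Prop where
  fin : ∀ c, {a : H | e (ρ a c) ≠ 0}.Finite
  sum : ∀ c, ∑ᶠ a, ρ a⁻¹ (e (ρ a c)) = c

/-- the representation has locally finite decompositions -/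
def Loc {P : Type} [AddCommGroup P] [Module (ZMod 2) P] (ρ : Representation (ZMod 2) H P) : Prop :=
  ∃ e : P →ₗ[ZMod 2] P, LocE ρ e

/-- projective representations -/
def Prj {P : Type} [AddCommGroup P] [Module (ZMod 2) P] (ρ : Representation (ZMod 2) H P) : Prop :=
  ∀ (A A' : Type) [AddCommGroup A] [Module (ZMod 2) A] [AddCommGroup A'] [Module (ZMod 2) A']
    (α : Representation (ZMod 2) H A) (α' : Representation (ZMod 2) H A') (p : A →ₗ[ZMod 2] A') (g : P →ₗ[ZMod 2] A'),
    (∀ h x, p (α h x) = α' h (p x)) → (∀ h x, g (ρ h x) = α' h (g x)) → (∀ x, ∃ y, p y = g x) →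
    ∃ g' : P →ₗ[ZMod 2] A, (∀ h x, g' (ρ h x) = α h (g' x)) ∧ ∀ x, p (g' x) = g x

end

end Pool.Agent.CE
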