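import Pool.Agent.CE.Bd

/-!
# Project CE (coarse embeddings): the vanishing of the reduced `ℓ²`-homology
-/

set_option autoImplicit false
set_option linter.unusedSectionVars false

open Finset Pointwise

namespace Pool.Agent.CE

open Pool.Agent.H37.TM Pool.Agent.H65.RM Pool.Agent.S10 Pool.Agent.S11 Pool.Agent.S14
open Pool.Agent.H10.CI (CoarseEmb)

/-- **The vanishing of the reduced `ℓ²`-homology.** -/
theorem end_ce {H V U L : Type} [Group H] [Countable H] [DecidableEq V] [MulAction H V] [Group L] [DecidableEq U]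
    [MulAction L U] {X : Set (Finset V)} {K B : Set (Finset U)} {n : ℕ} [LO H] (P : LPack H) (hX : FreeX H X) (hac : Acyc X)
    {f : H → L} (hf : CoarseEmb f) (hM : ManOrDual L K B n (n + 1)) (hA : PAct L K B) {i : ℕ} (hi : n < 2 * i) :
    L2ZeroS X i := by
  have hXs := scx_of_freeX hX
  have hex : ExactBd X (lft P.ι) (i + 1) := exactBd_of_coarse P hX hac hf hM hA hi
  obtain ⟨r, hr, hrT⟩ := Pool.Agent.S14.exists_rel (H := H) X hX.down (fun g s hs => hX.mem g s hs) (fun g s hs => hX.free g s hs)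
  have hT : Tot X r := by
    intro s hs u hu v hv huv
    obtain ⟨h1, h2, h3⟩ := hrT s hs
    refine ⟨?_, fun w hw => h2 u hu v hv w hw⟩
    rcases h3 u hu v hv huv with h4 | h4
    · exact Or.inl ⟨h4, fun h5 => h1 u hu (h2 u hu v hv u hu h4 h5)⟩
    · exact Or.inr ⟨h4, fun h5 => h1 u hu (h2 u hu v hv u hu h5 h4)⟩
  obtain ⟨a, R, hR0⟩ := exists_rps hX i
  obtain ⟨b, R', hR1⟩ := exists_rps hX (i + 1)
  obtain ⟨c, R'', hR2⟩ := exists_rps hX (i + 2)
  have hmul := mtx_mul hX hT hr hR0 hR1 hR2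
  have hm : ∀ y : Fin b → P.D, ((mod2 (mtx H r R R')).map P.ι).mulVec y = 0 →
      ∃ z : Fin c → P.D, ((mod2 (mtx H r R' R'')).map P.ι).mulVec z = y := fun y hy =>
    mtx_exact hX P.ι hR0 hR1 hR2 hex y hy
  have hharm : ∀ z, IsL2Ch X (i + 1) z → (∀ s ∈ X, bdR r z s = 0) → IsCoc X r z → z = 0 := fun z hz hz0 hz1 =>
    harm_zero hX hT hr hR0 hR1 hR2 (fun x hx h1 h2 => P.l2 _ _ _ _ _ hmul hm x hx h1 h2) z hz hz0 hz1
  intro r' hr' z hz hz0 ε hε
  have hT' : Tot X r' := tot_of_order hr'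
  exact l2_hil hX.ne hX.down (fun s hs => cofaces_finite hX hs) hT' i
    (harm_order hX.down hT hT' (i + 1) hharm) z hz hz0 ε hε

end Pool.Agent.CE
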