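import Pool.Agent.CE.LocX

/-!
# Project CE: the two algebraic steps in one degree

`step6`: chain maps `φ`, `ψ` and a homotopy `ψ φ ~ j`, `j x = x ⊗ u₀`, exactness of the complex `R` give: the cycles `z` become
boundaries after `j`.
-/

set_option autoImplicit false
set_option linter.unusedSectionVars false

open scoped TensorProduct

noncomputable section

namespace Pool.Agent.CE

open Pool.Agent.S11

section

variable {H : Type} [Group H] {W L : Type} [AddCommGroup W] [Module (ZMod 2) W] [AddCommGroup L] [Module (ZMod 2) L]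
  (τ : Representation (ZMod 2) H W) (l : Representation (ZMod 2) H L)
  {C₂ C₁ C₀ R₂ R₁ R₀ : Type} [AddCommGroup C₂] [Module (ZMod 2) C₂] [AddCommGroup C₁] [Module (ZMod 2) C₁]
  [AddCommGroup C₀] [Module (ZMod 2) C₀] [AddCommGroup R₂] [Module (ZMod 2) R₂] [AddCommGroup R₁] [Module (ZMod 2) R₁]
  [AddCommGroup R₀] [Module (ZMod 2) R₀]
  {ρ₁ : Representation (ZMod 2) H C₁} {ρ₀ : Representation (ZMod 2) H C₀}
  {σ₁ : Representation (ZMod 2) H R₁} {σ₀ : Representation (ZMod 2) H R₀}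

/-- the map `x ↦ x ⊗ u₀` -/
def jj (C : Type) [AddCommGroup C] [Module (ZMod 2) C] (u₀ : L) : C →ₗ[ZMod 2] C ⊗[ZMod 2] L :=
  (TensorProduct.mk (ZMod 2) C L).flip u₀

@[simp] theorem jj_apply (C : Type) [AddCommGroup C] [Module (ZMod 2) C] (u₀ : L) (x : C) : jj C u₀ x = x ⊗ₜ[ZMod 2] u₀ := rfl

/-- as `exR_transport`, with the map `j` in place of the identity -/
theorem step6 {d₂ : C₂ →ₗ[ZMod 2] C₁} {d₁ : C₁ →ₗ[ZMod 2] C₀} {r₂ : R₂ →ₗ[ZMod 2] R₁} {r₁ : R₁ →ₗ[ZMod 2] R₀} (u₀ : L)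
    (φ₁ : C₁ →ₗ[ZMod 2] R₁) (φ₀ : C₀ →ₗ[ZMod 2] R₀) (ψ₂ : R₂ →ₗ[ZMod 2] C₂ ⊗[ZMod 2] L) (ψ₁ : R₁ →ₗ[ZMod 2] C₁ ⊗[ZMod 2] L)
    (s₁ : C₁ →ₗ[ZMod 2] C₂ ⊗[ZMod 2] L) (s₀ : C₀ →ₗ[ZMod 2] C₁ ⊗[ZMod 2] L)
    (hφ : ∀ g x, φ₀ (ρ₀ g x) = σ₀ g (φ₀ x)) (hψ : ∀ g x, ψ₁ (σ₁ g x) = (ρ₁.tprod l) g (ψ₁ x))
    (hs : ∀ g x, s₀ (ρ₀ g x) = (ρ₁.tprod l) g (s₀ x))
    (h1 : ∀ x, r₁ (φ₁ x) = φ₀ (d₁ x)) (h2 : ∀ y, d₂.rTensor L (ψ₂ y) = ψ₁ (r₂ y))
    (h3 : ∀ x, d₂.rTensor L (s₁ x) = (ψ₁ (φ₁ x) + x ⊗ₜ[ZMod 2] u₀) + s₀ (d₁ x))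
    (hR : ExR τ σ₁ σ₀ r₂ r₁) {z : C₁ ⊗[ZMod 2] W} (hz : d₁.rTensor W z ∈ Kr (ρ₀.tprod τ) ⊤) :
    ∃ w : (C₂ ⊗[ZMod 2] L) ⊗[ZMod 2] W,
      (jj C₁ u₀).rTensor W z - (d₂.rTensor L).rTensor W w ∈ Kr ((ρ₁.tprod l).tprod τ) ⊤ := by
  have a1 : r₁.rTensor W (φ₁.rTensor W z) = φ₀.rTensor W (d₁.rTensor W z) := by
    rw [← LinearMap.comp_apply, ← LinearMap.comp_apply, ← LinearMap.rTensor_comp, ← LinearMap.rTensor_comp]
    rw [show r₁ ∘ₗ φ₁ = φ₀ ∘ₗ d₁ from LinearMap.ext h1]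
  have a2 : ∀ y : R₂ ⊗[ZMod 2] W, (d₂.rTensor L).rTensor W (ψ₂.rTensor W y) = ψ₁.rTensor W (r₂.rTensor W y) := by
    intro y
    rw [← LinearMap.comp_apply, ← LinearMap.comp_apply, ← LinearMap.rTensor_comp, ← LinearMap.rTensor_comp]
    rw [show (d₂.rTensor L) ∘ₗ ψ₂ = ψ₁ ∘ₗ r₂ from LinearMap.ext h2]
  have a3 : (d₂.rTensor L).rTensor W (s₁.rTensor W z) =
      (ψ₁.rTensor W (φ₁.rTensor W z) + (jj C₁ u₀).rTensor W z) + s₀.rTensor W (d₁.rTensor W z) := by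
    rw [← LinearMap.comp_apply, ← LinearMap.comp_apply, ← LinearMap.comp_apply, ← LinearMap.rTensor_comp,
      ← LinearMap.rTensor_comp, ← LinearMap.rTensor_comp]
    rw [show (d₂.rTensor L) ∘ₗ s₁ = (ψ₁ ∘ₗ φ₁ + jj C₁ u₀) + s₀ ∘ₗ d₁ from LinearMap.ext h3, LinearMap.rTensor_add,
      LinearMap.rTensor_add]
    rfl
  obtain ⟨y, hy⟩ := hR (φ₁.rTensor W z) (by
    rw [a1]
    exact kr_rTensor τ hφ hz)
  refine ⟨s₁.rTensor W z - ψ₂.rTensor W y, ?_⟩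
  have b1 := kr_rTensor (ρ' := σ₁) (ρ'' := ρ₁.tprod l) τ hψ hy
  have b2 := kr_rTensor (ρ' := ρ₀) (ρ'' := ρ₁.tprod l) τ hs hz
  rw [map_sub] at b1
  have b3 := Submodule.sub_mem _ (Submodule.neg_mem _ b1) b2
  have e : (jj C₁ u₀).rTensor W z - (d₂.rTensor L).rTensor W (s₁.rTensor W z - ψ₂.rTensor W y) =
      -(ψ₁.rTensor W (φ₁.rTensor W z) - ψ₁.rTensor W (r₂.rTensor W y)) - s₀.rTensor W (d₁.rTensor W z) := by
    rw [map_sub, a3, a2]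
    abel
  rw [e]
  exact b3

/-- the exchange of the factors -/
def exch (C L D Y : Type) [AddCommGroup C] [Module (ZMod 2) C] [AddCommGroup L] [Module (ZMod 2) L] [AddCommGroup D]
    [Module (ZMod 2) D] [AddCommGroup Y] [Module (ZMod 2) Y] :
    (C ⊗[ZMod 2] L) ⊗[ZMod 2] (D ⊗[ZMod 2] Y) →ₗ[ZMod 2] C ⊗[ZMod 2] (D ⊗[ZMod 2] (Y ⊗[ZMod 2] L)) :=
  ((TensorProduct.assoc (ZMod 2) D Y L).toLinearMap ∘ₗ
    (TensorProduct.comm (ZMod 2) L (D ⊗[ZMod 2] Y)).toLinearMap).lTensor C ∘ₗ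
      (TensorProduct.assoc (ZMod 2) C L (D ⊗[ZMod 2] Y)).toLinearMap

theorem exch_tmul {C L D Y : Type} [AddCommGroup C] [Module (ZMod 2) C] [AddCommGroup L] [Module (ZMod 2) L] [AddCommGroup D]
    [Module (ZMod 2) D] [AddCommGroup Y] [Module (ZMod 2) Y] (c : C) (x : L) (d : D) (y : Y) :
    exch C L D Y ((c ⊗ₜ[ZMod 2] x) ⊗ₜ[ZMod 2] (d ⊗ₜ[ZMod 2] y)) = c ⊗ₜ[ZMod 2] (d ⊗ₜ[ZMod 2] (y ⊗ₜ[ZMod 2] x)) := rfl

/-- the same with `L` on the side of the coefficients `D ⊗ Y` -/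
theorem step6' {D Y : Type} [AddCommGroup D] [Module (ZMod 2) D] [AddCommGroup Y] [Module (ZMod 2) Y]
    {δ : Representation (ZMod 2) H D} {σ : Representation (ZMod 2) H Y} {d₂ : C₂ →ₗ[ZMod 2] C₁} (u₀ : L)
    {z : C₁ ⊗[ZMod 2] (D ⊗[ZMod 2] Y)} {w : (C₂ ⊗[ZMod 2] L) ⊗[ZMod 2] (D ⊗[ZMod 2] Y)}
    (hw : (jj C₁ u₀).rTensor (D ⊗[ZMod 2] Y) z - (d₂.rTensor L).rTensor (D ⊗[ZMod 2] Y) w ∈
      Kr ((ρ₁.tprod l).tprod (δ.tprod σ)) ⊤) :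
    ∃ w' : C₂ ⊗[ZMod 2] (D ⊗[ZMod 2] (Y ⊗[ZMod 2] L)),
      ((jj Y u₀).lTensor D).lTensor C₁ z - d₂.rTensor (D ⊗[ZMod 2] (Y ⊗[ZMod 2] L)) w' ∈
        Kr (ρ₁.tprod (δ.tprod (σ.tprod l))) ⊤ := by
  refine ⟨exch C₂ L D Y w, ?_⟩
  have h1 : exch C₁ L D Y ∘ₗ (jj C₁ u₀).rTensor (D ⊗[ZMod 2] Y) = ((jj Y u₀).lTensor D).lTensor C₁ := by
    refine TensorProduct.ext' fun c t => ?_
    induction t using TensorProduct.induction_on with
    | zero => rw [TensorProduct.tmul_zero, map_zero, map_zero]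
    | add a b ha hb => rw [TensorProduct.tmul_add, map_add, map_add, ha, hb]
    | tmul d y => rfl
  have h2 : exch C₁ L D Y ∘ₗ (d₂.rTensor L).rTensor (D ⊗[ZMod 2] Y) =
      d₂.rTensor (D ⊗[ZMod 2] (Y ⊗[ZMod 2] L)) ∘ₗ exch C₂ L D Y := by
    refine TensorProduct.ext' fun s t => ?_
    induction t using TensorProduct.induction_on with
    | zero => rw [TensorProduct.tmul_zero, map_zero, map_zero]
    | add a b ha hb => rw [TensorProduct.tmul_add, map_add, map_add, ha, hb]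
    | tmul d y =>
      induction s using TensorProduct.induction_on with
      | zero => rw [TensorProduct.zero_tmul, map_zero, map_zero]
      | add a b ha hb => rw [TensorProduct.add_tmul, map_add, map_add, ha, hb]
      | tmul c x => rfl
  have h3 : ∀ (g : H) (t : (C₁ ⊗[ZMod 2] L) ⊗[ZMod 2] (D ⊗[ZMod 2] Y)),
      exch C₁ L D Y (((ρ₁.tprod l).tprod (δ.tprod σ)) g t) =
        (ρ₁.tprod (δ.tprod (σ.tprod l))) g (exch C₁ L D Y t) := by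
    intro g t
    have h4 : exch C₁ L D Y ∘ₗ ((ρ₁.tprod l).tprod (δ.tprod σ)) g =
        (ρ₁.tprod (δ.tprod (σ.tprod l))) g ∘ₗ exch C₁ L D Y := by
      refine TensorProduct.ext' fun s t => ?_
      induction t using TensorProduct.induction_on with
      | zero => rw [TensorProduct.tmul_zero, map_zero, map_zero]
      | add a b ha hb => rw [TensorProduct.tmul_add, map_add, map_add, ha, hb]
      | tmul d y =>
        induction s using TensorProduct.induction_on with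
        | zero => rw [TensorProduct.zero_tmul, map_zero, map_zero]
        | add a b ha hb => rw [TensorProduct.add_tmul, map_add, map_add, ha, hb]
        | tmul c x => rfl
    exact LinearMap.congr_fun h4 t
  have h5 := Kr_map (τ := (ρ₁.tprod l).tprod (δ.tprod σ)) (ρ := ρ₁.tprod (δ.tprod (σ.tprod l))) (f := exch C₁ L D Y)
    (fun g _ t => h3 g t) hw
  rw [map_sub] at h5
  have h6 := LinearMap.congr_fun h1 z
  have h7 := LinearMap.congr_fun h2 w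
  rw [LinearMap.comp_apply] at h6 h7
  rw [LinearMap.comp_apply] at h7
  rw [h6, h7] at h5
  exact h5

end

end Pool.Agent.CE
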