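import Pool.Agent.CE.LocX

/-!
# Project CE: the step to the lower degree

The exact sequence of coefficients `W → W₁ → W₂`: a cycle with coefficients in `W` which is a boundary with coefficients in
`W₁` is a boundary, if the degree above is exact with coefficients in `W₂`.
-/

set_option autoImplicit false
set_option linter.unusedSectionVars false

open scoped TensorProduct

noncomputable section

namespace Pool.Agent.CE

open Pool.Agent.S11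

variable {H : Type} [Group H] {W W₁ W₂ : Type} [AddCommGroup W] [Module (ZMod 2) W] [AddCommGroup W₁] [Module (ZMod 2) W₁]
  [AddCommGroup W₂] [Module (ZMod 2) W₂] {τ : Representation (ZMod 2) H W} {τ₁ : Representation (ZMod 2) H W₁}
  {τ₂ : Representation (ZMod 2) H W₂}
  {C₃ C₂ C₁ : Type} [AddCommGroup C₃] [Module (ZMod 2) C₃] [AddCommGroup C₂] [Module (ZMod 2) C₂] [AddCommGroup C₁]
  [Module (ZMod 2) C₁] {ρ₂ : Representation (ZMod 2) H C₂} {ρ₁ : Representation (ZMod 2) H C₁}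

theorem lTensor_tprod (ρ : Representation (ZMod 2) H C₁) {π : W₁ →ₗ[ZMod 2] W₂} (hπ : ∀ g x, π (τ₁ g x) = τ₂ g (π x)) (g : H)
    (t : C₁ ⊗[ZMod 2] W₁) : π.lTensor C₁ ((ρ.tprod τ₁) g t) = (ρ.tprod τ₂) g (π.lTensor C₁ t) := by
  induction t with
  | zero => simp
  | add a b ha hb => simp only [map_add, ha, hb]
  | tmul x m => simp [Representation.tprod_apply, hπ]

theorem kr_lTensor (ρ : Representation (ZMod 2) H C₁) {π : W₁ →ₗ[ZMod 2] W₂} (hπ : ∀ g x, π (τ₁ g x) = τ₂ g (π x))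
    {t : C₁ ⊗[ZMod 2] W₁} (ht : t ∈ Kr (ρ.tprod τ₁) ⊤) : π.lTensor C₁ t ∈ Kr (ρ.tprod τ₂) ⊤ :=
  Kr_map (τ := ρ.tprod τ₁) (ρ := ρ.tprod τ₂) (fun g _ t => lTensor_tprod ρ hπ g t) ht

/-- right exactness -/
theorem kr_exact_l (ρ : Representation (ZMod 2) H C₁) {i : W →ₗ[ZMod 2] W₁} {π : W₁ →ₗ[ZMod 2] W₂}
    (hπ : ∀ g x, π (τ₁ g x) = τ₂ g (π x)) (hex : Function.Exact i π) (hsur : Function.Surjective π) {w : C₁ ⊗[ZMod 2] W₁}
    (hw : π.lTensor C₁ w ∈ Kr (ρ.tprod τ₂) ⊤) : ∃ u : C₁ ⊗[ZMod 2] W, w - i.lTensor C₁ u ∈ Kr (ρ.tprod τ₁) ⊤ := by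
  have hle : Kr (ρ.tprod τ₂) ⊤ ≤ (Kr (ρ.tprod τ₁) ⊤).map (π.lTensor C₁) := by
    refine Kr_le fun j hj t => ?_
    obtain ⟨t', rfl⟩ := LinearMap.lTensor_surjective C₁ hsur t
    refine ⟨(ρ.tprod τ₁) j t' - t', sub_mem_Kr _ hj _, ?_⟩
    rw [map_sub, lTensor_tprod ρ hπ]
  obtain ⟨κ, hκ, hκw⟩ := hle hw
  have h0 : π.lTensor C₁ (w - κ) = 0 := by rw [map_sub, hκw, sub_self]
  obtain ⟨u, hu⟩ := (lTensor_exact C₁ hex hsur (w - κ)).1 h0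
  refine ⟨u, ?_⟩
  have e : w - i.lTensor C₁ u = κ := by rw [hu]; abel
  rw [e]
  exact hκ

theorem rl_comm (d : C₂ →ₗ[ZMod 2] C₁) (i : W →ₗ[ZMod 2] W₁) (u : C₂ ⊗[ZMod 2] W) :
    d.rTensor W₁ (i.lTensor C₂ u) = i.lTensor C₁ (d.rTensor W u) := by
  rw [← LinearMap.comp_apply, ← LinearMap.comp_apply, LinearMap.rTensor_comp_lTensor, LinearMap.lTensor_comp_rTensor]

/-- **The step to the lower degree.** -/
theorem step7 {i : W →ₗ[ZMod 2] W₁} {π : W₁ →ₗ[ZMod 2] W₂} (hi : ∀ g x, i (τ g x) = τ₁ g (i x))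
    (hπ : ∀ g x, π (τ₁ g x) = τ₂ g (π x)) (hinj : Function.Injective i) (hex : Function.Exact i π)
    (hsur : Function.Surjective π) {d₃ : C₃ →ₗ[ZMod 2] C₂} {d₂ : C₂ →ₗ[ZMod 2] C₁}
    (hd : ∀ g x, d₂ (ρ₂ g x) = ρ₁ g (d₂ x)) (hdd : ∀ x, d₂ (d₃ x) = 0) (hL : Loc ρ₁)
    (hT : ExR τ₂ ρ₂ ρ₁ d₃ d₂) {z : C₁ ⊗[ZMod 2] W} {w : C₂ ⊗[ZMod 2] W₁}
    (hw : i.lTensor C₁ z - d₂.rTensor W₁ w ∈ Kr (ρ₁.tprod τ₁) ⊤) :
    ∃ y : C₂ ⊗[ZMod 2] W, z - d₂.rTensor W y ∈ Kr (ρ₁.tprod τ) ⊤ := by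
  have h0 : π.lTensor C₁ (i.lTensor C₁ z) = 0 := by
    have h1 : π ∘ₗ i = 0 := LinearMap.ext fun x => (hex (i x)).2 ⟨x, rfl⟩
    rw [← LinearMap.comp_apply, ← LinearMap.lTensor_comp, h1, LinearMap.lTensor_zero]
    rfl
  have h1 := kr_lTensor ρ₁ hπ hw
  rw [map_sub, h0, zero_sub, ← rl_comm] at h1
  have h2 : d₂.rTensor W₂ (π.lTensor C₂ w) ∈ Kr (ρ₁.tprod τ₂) ⊤ := by
    have := Submodule.neg_mem _ h1
    rwa [neg_neg] at this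
  obtain ⟨y₃, hy₃⟩ := hT _ h2
  obtain ⟨v, rfl⟩ := LinearMap.lTensor_surjective C₃ hsur y₃
  rw [rl_comm, ← map_sub] at hy₃
  obtain ⟨u, hu⟩ := kr_exact_l ρ₂ hπ hex hsur hy₃
  have h3 := kr_rTensor τ₁ hd hu
  have h4 : d₂.rTensor W₁ (d₃.rTensor W₁ v) = 0 := by
    have h5 : d₂ ∘ₗ d₃ = 0 := LinearMap.ext hdd
    rw [← LinearMap.comp_apply, ← LinearMap.rTensor_comp, h5, LinearMap.rTensor_zero]
    rfl
  rw [map_sub, map_sub, h4, sub_zero, rl_comm] at h3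
  have h5 := Submodule.add_mem _ hw h3
  refine ⟨u, hL.inj hi hinj ?_⟩
  rw [map_sub]
  have e : i.lTensor C₁ z - i.lTensor C₁ (d₂.rTensor W u) =
      i.lTensor C₁ z - d₂.rTensor W₁ w + (d₂.rTensor W₁ w - i.lTensor C₁ (d₂.rTensor W u)) := by abel
  rw [e]
  exact h5

end Pool.Agent.CE
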