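import Pool.Agent.CE.Chn
import Pool.Agent.CE.Stp
import Pool.Agent.CE.Stp7

/-!
# Project CE: the downward induction on the degree, for all modules of coefficients
-/

set_option autoImplicit false
set_option linter.unusedSectionVars false

open Finset Pointwise
open scoped TensorProduct

noncomputable section

namespace Pool.Agent.CE

open Pool.Agent.S11 Pool.Agent.S10 Pool.Agent.H37.TM

section

variable {H : Type} [Group H] {Y : Type} [AddCommGroup Y] [Module (ZMod 2) Y]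

/-- the tensor product of a zero module -/
theorem tensor_of_zero {C W : Type} [AddCommGroup C] [Module (ZMod 2) C] [AddCommGroup W] [Module (ZMod 2) W]
    (h : ∀ x : C, x = 0) (x : C ⊗[ZMod 2] W) : x = 0 := by
  induction x using TensorProduct.induction_on with
  | zero => rfl
  | add a b ha hb => rw [ha, hb, add_zero]
  | tmul c w => rw [h c, TensorProduct.zero_tmul]

theorem exR_of_zero {W : Type} [AddCommGroup W] [Module (ZMod 2) W] (τ : Representation (ZMod 2) H W)
    {C C' C'' : Type} [AddCommGroup C] [Module (ZMod 2) C] [AddCommGroup C'] [Module (ZMod 2) C']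
    [AddCommGroup C''] [Module (ZMod 2) C''] (ρ' : Representation (ZMod 2) H C') (ρ'' : Representation (ZMod 2) H C'')
    (d₁ : C →ₗ[ZMod 2] C') (d₂ : C' →ₗ[ZMod 2] C'') (h : ∀ x : C', x = 0) : ExR τ ρ' ρ'' d₁ d₂ := by
  intro x _
  refine ⟨0, ?_⟩
  rw [map_zero, sub_zero, tensor_of_zero h x]
  exact Submodule.zero_mem _

theorem ell_one (g : H) : ell H g (fun _ => (1 : ZMod 2)) = fun _ => 1 := rfl

theorem jj_inj : Function.Injective (jj Y (fun _ : H => (1 : ZMod 2))) := by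
  have h1 : ∀ y : Y, TensorProduct.rid (ZMod 2) Y ((LinearMap.proj (R := ZMod 2) (φ := fun _ : H => ZMod 2) (1 : H)).lTensor Y
      (jj Y (fun _ : H => (1 : ZMod 2)) y)) = y := by
    intro y
    rw [jj_apply, LinearMap.lTensor_tmul, TensorProduct.rid_tmul]
    exact one_smul _ y
  intro y y' hy
  rw [← h1 y, hy, h1]

theorem jj_smul (σ : Representation (ZMod 2) H Y) (g : H) (y : Y) :
    jj Y (fun _ : H => (1 : ZMod 2)) (σ g y) = (σ.tprod (ell H)) g (jj Y (fun _ : H => (1 : ZMod 2)) y) := rfl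

/-- the representation on the quotient -/
def qRep {M : Type} [AddCommGroup M] [Module (ZMod 2) M] (ρ : Representation (ZMod 2) H M) (N : Submodule (ZMod 2) M)
    (hN : ∀ g, N ≤ N.comap (ρ g)) : Representation (ZMod 2) H (M ⧸ N) where
  toFun g := N.mapQ N (ρ g) (hN g)
  map_one' := by
    refine LinearMap.ext fun x => ?_
    obtain ⟨y, rfl⟩ := Submodule.Quotient.mk_surjective N x
    show N.mapQ N (ρ 1) _ (Submodule.Quotient.mk y) = Submodule.Quotient.mk y
    rw [Submodule.mapQ_apply, map_one]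
    rfl
  map_mul' g g' := by
    refine LinearMap.ext fun x => ?_
    obtain ⟨y, rfl⟩ := Submodule.Quotient.mk_surjective N x
    show N.mapQ N (ρ (g * g')) _ (Submodule.Quotient.mk y) =
      N.mapQ N (ρ g) (hN g) (N.mapQ N (ρ g') (hN g') (Submodule.Quotient.mk y))
    rw [Submodule.mapQ_apply, Submodule.mapQ_apply, Submodule.mapQ_apply, map_mul]
    rfl

theorem mkQ_qRep {M : Type} [AddCommGroup M] [Module (ZMod 2) M] (ρ : Representation (ZMod 2) H M) (N : Submodule (ZMod 2) M)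
    (hN : ∀ g, N ≤ N.comap (ρ g)) (g : H) (x : M) : N.mkQ (ρ g x) = qRep ρ N hN g (N.mkQ x) := rfl

theorem range_jj_le (σ : Representation (ZMod 2) H Y) (g : H) :
    LinearMap.range (jj Y (fun _ : H => (1 : ZMod 2))) ≤
      (LinearMap.range (jj Y (fun _ : H => (1 : ZMod 2)))).comap ((σ.tprod (ell H)) g) := by
  rintro _ ⟨y, rfl⟩
  exact ⟨σ g y, jj_smul σ g y⟩

end

/-- **Exactness of the chains of `X`** with coefficients in `D ⊗ Y`, for all `Y` -/
theorem exR_all {H Λ U V : Type} [Group H] [Countable H] [Group Λ] [DecidableEq U] [MulAction Λ U] [DecidableEq V]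
    [MulAction H V] {f : H → Λ} {K B mu : Set (Finset U)} {n : ℕ} {X : Set (Finset V)}
    (h : Crs f K B) (hD : Dual K B mu n (n + 1)) (hmu : ∀ (g : Λ) (s : Finset U), s ∈ mu → g • s ∈ mu)
    (hX : SCx H X (∅ : Set (Finset V))) (hac : Acyc X) (hdim : ∃ N, ∀ s ∈ X, s.card ≤ N)
    {D : Type} [AddCommGroup D] [Module (ZMod 2) D] (δ : Representation (ZMod 2) H D)
    (hP : ∀ (Y : Type) [AddCommGroup Y] [Module (ZMod 2) Y] (σ : Representation (ZMod 2) H Y) (q : ℕ), 2 * q < n →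
      ExR (δ.tprod σ) (PR h (q + 1)) (PR h (q + 1 + 1)) (dP h q (q + 1)) (dP h (q + 1) (q + 1 + 1))) :
    ∀ q, n < 2 * q → ∀ (Y : Type) [AddCommGroup Y] [Module (ZMod 2) Y] (σ : Representation (ZMod 2) H Y),
      ExR (δ.tprod σ) (cRep hX (q + 1)) (cRep hX q) (bdX X (q + 1)) (bdX X q) := by
  obtain ⟨N, hN⟩ := hdim
  obtain ⟨φ, ψ, s, h1, h2, h3, h4, h5, h6⟩ := exists_maps h hD hmu hX hac
  -- the complex of the controlled functions
  have hR : ∀ (Y : Type) [AddCommGroup Y] [Module (ZMod 2) Y] (σ : Representation (ZMod 2) H Y) (p : ℕ), n < 2 * (p + 1) →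
      ExR (δ.tprod σ) (PR h (n + 1 - (p + 1))) (PR h (n + 1 - p)) (dP h (n + 1 - (p + 1 + 1)) (n + 1 - (p + 1)))
        (dP h (n + 1 - (p + 1)) (n + 1 - p)) := by
    intro Y _ _ σ p hp
    have key : ∀ a b c : ℕ, (b = 0 ∨ (b = a + 1 ∧ c = b + 1 ∧ 2 * a < n)) →
        ExR (δ.tprod σ) (PR h b) (PR h c) (dP h a b) (dP h b c) := by
      rintro a b c (rfl | ⟨rfl, rfl, ha⟩)
      · exact exR_of_zero _ _ _ _ _ (PC_zero h)
      · exact hP Y σ a ha
    apply key
    omega
  suffices hk : ∀ k q, N ≤ q + k → n < 2 * q → ∀ (Y : Type) [AddCommGroup Y] [Module (ZMod 2) Y]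
      (σ : Representation (ZMod 2) H Y), ExR (δ.tprod σ) (cRep hX (q + 1)) (cRep hX q) (bdX X (q + 1)) (bdX X q) from
    fun q hq => hk N q (by omega) hq
  intro k
  induction k with
  | zero =>
    intro q hq _ Y _ _ σ
    refine exR_of_zero _ _ _ _ _ fun x => Finsupp.ext fun t => ?_
    exfalso
    have := hN t.1 t.2.1
    rw [t.2.2.2] at this
    omega
  | succ k ih =>
    intro q hq hn Y _ _ σ
    obtain ⟨p, rfl⟩ : ∃ p, q = p + 1 := ⟨q - 1, by omega⟩
    have hT := ih (p + 1 + 1) (by omega) (by omega)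
    intro z hz
    obtain ⟨w, hw⟩ := step6 (δ.tprod σ) (ell H) (ρ₁ := cRep hX (p + 1 + 1)) (ρ₀ := cRep hX (p + 1)) (fun _ => 1) (φ (p + 1)) (φ p)
      (ψ (p + 1 + 1)) (ψ (p + 1)) (s (p + 1)) (s p) (h1 p) (h2 (p + 1)) (h3 p) (h4 p) (h5 (p + 1)) (h6 p) (hR Y σ p hn) hz
    obtain ⟨w', hw'⟩ := step6' (δ := δ) (σ := σ) (ell H) (ρ₁ := cRep hX (p + 1 + 1)) (fun _ => 1) hw
    set Nq : Submodule (ZMod 2) (Y ⊗[ZMod 2] (H → ZMod 2)) := LinearMap.range (jj Y (fun _ : H => (1 : ZMod 2))) with hNq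
    refine step7 (τ₂ := δ.tprod (qRep (σ.tprod (ell H)) Nq (range_jj_le σ))) (ρ₂ := cRep hX (p + 1 + 1 + 1))
      (i := (jj Y (fun _ : H => (1 : ZMod 2))).lTensor D) (π := Nq.mkQ.lTensor D)
      (fun g x => lTensor_tprod δ (fun g x => jj_smul σ g x) g x)
      (fun g x => lTensor_tprod δ (fun g x => mkQ_qRep _ Nq (range_jj_le σ) g x) g x)
      (Module.Flat.lTensor_preserves_injective_linearMap _ jj_inj) (lTensor_exact D ?_ (Submodule.mkQ_surjective _))
      (LinearMap.lTensor_surjective D (Submodule.mkQ_surjective _))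
      (d₃ := bdX X (p + 1 + 1 + 1)) (d₂ := bdX X (p + 1 + 1)) (fun g x => bdX_smul hX (p + 1 + 1) g x)
      (fun x => (cpx_X hX).dd (p + 1) x) (loc_cRep hX (p + 1 + 1)) (hT _ _) hw'
    exact LinearMap.exact_map_mkQ_range _

end Pool.Agent.CE
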