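import Pool.Agent.CE.Defs

/-!
# Project CE, step 2: representations with locally finite decompositions are projective and flat
-/

set_option autoImplicit false
set_option linter.unusedSectionVars false

open scoped TensorProduct

noncomputable section

namespace Pool.Agent.CE

open Pool.Agent.S11

section

variable {H : Type} [Group H] {P : Type} [AddCommGroup P] [Module (ZMod 2) P] {ρ : Representation (ZMod 2) H P}

private theorem rep_inv_self {A : Type} [AddCommGroup A] [Module (ZMod 2) A] (α : Representation (ZMod 2) H A) (g : H) (x : A) :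
    α g⁻¹ (α g x) = x := by
  rw [← Module.End.mul_apply, ← map_mul, inv_mul_cancel, map_one]
  rfl

/-- sums over the group of additive functions with finite supports -/
private theorem finsum_shift {A : Type} [AddCommMonoid A] (F : H → A) (b : H) : ∑ᶠ a, F (a * b) = ∑ᶠ a, F a :=
  finsum_comp_equiv (Equiv.mulRight b) (f := F)

/-- **Representations with locally finite decompositions are projective.** -/
theorem Loc.prj (h : Loc ρ) : Prj ρ := by
  obtain ⟨e, he⟩ := h
  intro A A' _ _ _ _ α α' p g hp hg hr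
  -- a linear lift
  have h1 : ∀ x, g x ∈ LinearMap.range p := fun x => hr x
  obtain ⟨s, hs⟩ := p.rangeRestrict.exists_rightInverse_of_surjective p.range_rangeRestrict
  let G : P →ₗ[ZMod 2] A := s ∘ₗ g.codRestrict (LinearMap.range p) h1
  have hG : ∀ x, p (G x) = g x := by
    intro x
    have h2 := LinearMap.congr_fun hs (g.codRestrict (LinearMap.range p) h1 x)
    exact congrArg Subtype.val h2
  have hfin : ∀ c, (Function.support fun a => α a⁻¹ (G (e (ρ a c)))).Finite := by
    intro c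
    refine (he.fin c).subset fun a ha h0 => ha ?_
    show α a⁻¹ (G (e (ρ a c))) = 0
    rw [h0, map_zero, map_zero]
  let g' : P →ₗ[ZMod 2] A :=
    { toFun := fun c => ∑ᶠ a, α a⁻¹ (G (e (ρ a c)))
      map_add' := by
        intro c c'
        rw [← finsum_add_distrib (hfin c) (hfin c')]
        exact finsum_congr fun a => by simp only [map_add]
      map_smul' := by
        intro r c
        rw [RingHom.id_apply, smul_finsum' r (hfin c)]
        exact finsum_congr fun a => by simp only [map_smul] }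
  refine ⟨g', fun b c => ?_, fun c => ?_⟩
  · show ∑ᶠ a, α a⁻¹ (G (e (ρ a (ρ b c)))) = α b (∑ᶠ a, α a⁻¹ (G (e (ρ a c))))
    have h2 : α b (∑ᶠ a, α a⁻¹ (G (e (ρ a c)))) = ∑ᶠ a, α b (α a⁻¹ (G (e (ρ a c)))) :=
      (α b).toAddMonoidHom.map_finsum (hfin c)
    rw [h2, ← finsum_shift (fun a => α b (α a⁻¹ (G (e (ρ a c))))) b]
    refine finsum_congr fun a => ?_
    rw [mul_inv_rev, map_mul, map_mul, Module.End.mul_apply, Module.End.mul_apply]
    have h3 := rep_inv_self α b⁻¹ (α a⁻¹ (G (e (ρ a (ρ b c)))))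
    rw [inv_inv] at h3
    exact h3.symm
  · show p (∑ᶠ a, α a⁻¹ (G (e (ρ a c)))) = g c
    have h2 : p (∑ᶠ a, α a⁻¹ (G (e (ρ a c)))) = ∑ᶠ a, p (α a⁻¹ (G (e (ρ a c)))) :=
      p.toAddMonoidHom.map_finsum (hfin c)
    have h3 : g (∑ᶠ a, ρ a⁻¹ (e (ρ a c))) = ∑ᶠ a, g (ρ a⁻¹ (e (ρ a c))) := by
      refine g.toAddMonoidHom.map_finsum ((he.fin c).subset fun a ha h0 => ha ?_)
      show ρ a⁻¹ (e (ρ a c)) = 0
      rw [h0, map_zero]
    rw [h2]
    conv_rhs => rw [← he.sum c, h3]
    exact finsum_congr fun a => by rw [hp, hG, hg]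

/-- **Representations with locally finite decompositions are flat.** -/
theorem Loc.flat (h : Loc ρ) : Flat ρ := by
  obtain ⟨e, he⟩ := h
  have hfin : ∀ {X : Type} [AddCommGroup X] [Module (ZMod 2) X] (σ : Representation (ZMod 2) H X) (t : X ⊗[ZMod 2] P),
      {a : H | e.lTensor X ((σ.tprod ρ) a t) ≠ 0}.Finite := by
    intro X _ _ σ t
    induction t with
    | zero => simp
    | add x y hx hy =>
      refine (hx.union hy).subset fun a ha => ?_
      by_contra h1
      rw [Set.mem_union, not_or] at h1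
      simp only [Set.mem_ofPred_eq, not_not] at h1
      exact ha (by rw [map_add, map_add, h1.1, h1.2, add_zero])
    | tmul x c =>
      refine (he.fin c).subset fun a ha h0 => ha ?_
      show e.lTensor X (σ a x ⊗ₜ[ZMod 2] ρ a c) = 0
      rw [LinearMap.lTensor_tmul, h0, TensorProduct.tmul_zero]
  intro X X' _ _ _ _ σ σ' f hf hinj t ht
  -- the operator `Q`
  have hQ0 : ∀ t' ∈ Kr (σ'.tprod ρ) ⊤, ∑ᶠ a, e.lTensor X' ((σ'.tprod ρ) a t') = 0 := by
    intro t' ht'
    refine Submodule.span_induction (p := fun t' _ => ∑ᶠ a, e.lTensor X' ((σ'.tprod ρ) a t') = 0) ?_ ?_ ?_ ?_ ht'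
    · rintro _ ⟨j, -, y, rfl⟩
      have h1 : ∀ a, e.lTensor X' ((σ'.tprod ρ) a ((σ'.tprod ρ) j y - y)) =
          e.lTensor X' ((σ'.tprod ρ) (a * j) y) - e.lTensor X' ((σ'.tprod ρ) a y) := by
        intro a
        rw [map_sub, map_sub, map_mul, Module.End.mul_apply]
      rw [finsum_congr h1, finsum_sub_distrib ?_ (hfin σ' y), finsum_shift (fun a => e.lTensor X' ((σ'.tprod ρ) a y)) j, sub_self]
      have h2 := (hfin σ' y).preimage (f := fun a : H => a * j) (mul_left_injective j).injOn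
      exact h2
    · simp
    · intro x y _ _ hx hy
      have h1 : ∀ a, e.lTensor X' ((σ'.tprod ρ) a (x + y)) =
          e.lTensor X' ((σ'.tprod ρ) a x) + e.lTensor X' ((σ'.tprod ρ) a y) := fun a => by rw [map_add, map_add]
      rw [finsum_congr h1, finsum_add_distrib (hfin σ' x) (hfin σ' y), hx, hy, add_zero]
    · intro r x _ hx
      have h1 : ∀ a, e.lTensor X' ((σ'.tprod ρ) a (r • x)) = r • e.lTensor X' ((σ'.tprod ρ) a x) := fun a => by
        rw [map_smul, map_smul]
      rw [finsum_congr h1, ← smul_finsum' r (hfin σ' x), hx, smul_zero]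
  have hcomm : ∀ a, f.rTensor P (e.lTensor X ((σ.tprod ρ) a t)) = e.lTensor X' ((σ'.tprod ρ) a (f.rTensor P t)) := by
    intro a
    rw [← rTensor_tprod ρ hf]
    exact LinearMap.congr_fun ((LinearMap.rTensor_comp_lTensor _ f e).trans (LinearMap.lTensor_comp_rTensor _ f e).symm) _
  have h1 : f.rTensor P (∑ᶠ a, e.lTensor X ((σ.tprod ρ) a t)) = 0 := by
    rw [show f.rTensor P (∑ᶠ a, e.lTensor X ((σ.tprod ρ) a t)) = ∑ᶠ a, f.rTensor P (e.lTensor X ((σ.tprod ρ) a t)) from
      (f.rTensor P).toAddMonoidHom.map_finsum (hfin σ t), finsum_congr hcomm]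
    exact hQ0 _ ht
  have h2 : ∑ᶠ a, e.lTensor X ((σ.tprod ρ) a t) = 0 :=
    Module.Flat.rTensor_preserves_injective_linearMap (M := P) f hinj (by rw [h1, map_zero])
  -- `t` is the sum of the translates
  have h3 : ∀ t : X ⊗[ZMod 2] P, ∑ᶠ a, (σ.tprod ρ) a⁻¹ (e.lTensor X ((σ.tprod ρ) a t)) = t := by
    intro t
    have hf' : ∀ t : X ⊗[ZMod 2] P, (Function.support fun a => (σ.tprod ρ) a⁻¹ (e.lTensor X ((σ.tprod ρ) a t))).Finite := by
      intro t
      refine (hfin σ t).subset fun a ha h0 => ha ?_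
      show (σ.tprod ρ) a⁻¹ (e.lTensor X ((σ.tprod ρ) a t)) = 0
      rw [h0, map_zero]
    induction t with
    | zero => simp
    | add x y hx hy =>
      rw [finsum_congr (g := fun a => (σ.tprod ρ) a⁻¹ (e.lTensor X ((σ.tprod ρ) a x)) +
        (σ.tprod ρ) a⁻¹ (e.lTensor X ((σ.tprod ρ) a y))) fun a => by simp only [map_add],
        finsum_add_distrib (hf' x) (hf' y), hx, hy]
    | tmul x c =>
      have h4 : ∀ a, (σ.tprod ρ) a⁻¹ (e.lTensor X ((σ.tprod ρ) a (x ⊗ₜ[ZMod 2] c))) = x ⊗ₜ[ZMod 2] (ρ a⁻¹ (e (ρ a c))) := by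
        intro a
        show (σ a⁻¹ (σ a x)) ⊗ₜ[ZMod 2] (ρ a⁻¹ (e (ρ a c))) = _
        rw [rep_inv_self]
      rw [finsum_congr h4]
      have h5 := (TensorProduct.mk (ZMod 2) X P x).toAddMonoidHom.map_finsum (f := fun a => ρ a⁻¹ (e (ρ a c)))
        ((he.fin c).subset fun a ha h0 => ha (by
          show ρ a⁻¹ (e (ρ a c)) = 0
          rw [h0, map_zero]))
      rw [he.sum c] at h5
      exact h5.symm
  have h4 : t = ∑ᶠ a, ((σ.tprod ρ) a⁻¹ (e.lTensor X ((σ.tprod ρ) a t)) - e.lTensor X ((σ.tprod ρ) a t)) := by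
    rw [finsum_sub_distrib ?_ (hfin σ t), h2, h3, sub_zero]
    refine (hfin σ t).subset fun a ha h0 => ha ?_
    show (σ.tprod ρ) a⁻¹ (e.lTensor X ((σ.tprod ρ) a t)) = 0
    rw [h0, map_zero]
  rw [h4]
  exact finsum_induction (· ∈ Kr (σ.tprod ρ) ⊤) (Submodule.zero_mem _) (fun _ _ hx hy => Submodule.add_mem _ hx hy)
    fun a => sub_mem_Kr (σ.tprod ρ) (Subgroup.mem_top a⁻¹) _

end

end Pool.Agent.CE
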