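import Pool.Agent.CE.Defs
import Pool.Agent.S11.SqMain

/-!
# Project CE, step 4: operations on controlled cochains

`Crs f K B` = a locally finite simplicial pair with a proper simplicial action of `Λ`.  `Ctl f K B ρ q c` = the function
`c` on the simplices of `(K, B)` with `q` vertices is controlled by the map `f : H → Λ`: its support is near the image of
`f` and, for every simplex `t`, the values `ρ(g)⁻¹ c(f(g) t)`, `g ∈ H`, are finitely many.  `FR` = functions with finite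
range.  Operations on controlled cochains.
-/

set_option autoImplicit false
set_option linter.unusedSectionVars false

open Finset Pointwise
open scoped TensorProduct

noncomputable section

namespace Pool.Agent.CE

open Pool.Agent.S11 Pool.Agent.H10.CI

/-! ### Functions with finite range -/

/-- the function has finite range -/
def FR {A W : Type} (x : A → W) : Prop := (Set.range x).Finite

theorem FR.const {A W : Type} (w : W) : FR fun _ : A => w := by
  refine (Set.finite_singleton w).subset ?_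
  rintro _ ⟨a, rfl⟩
  exact rfl

theorem FR.comp {A W W' : Type} {x : A → W} (hx : FR x) (L : W → W') : FR fun a => L (x a) := by
  refine (hx.image L).subset ?_
  rintro _ ⟨a, rfl⟩
  exact ⟨x a, ⟨a, rfl⟩, rfl⟩

theorem FR.map₂ {A W W' W'' : Type} {x : A → W} {y : A → W'} (hx : FR x) (hy : FR y) (L : W → W' → W'') :
    FR fun a => L (x a) (y a) := by
  refine (hx.image2 L hy).subset ?_
  rintro _ ⟨a, rfl⟩
  exact ⟨x a, ⟨a, rfl⟩, y a, ⟨a, rfl⟩, rfl⟩

theorem FR.sum {A W ι : Type} [AddCommMonoid W] (s : Finset ι) {x : ι → A → W} (h : ∀ i ∈ s, FR (x i)) :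
    FR fun a => ∑ i ∈ s, x i a := by
  classical
  induction s using Finset.induction_on with
  | empty => simpa using FR.const (0 : W)
  | insert i s hi ih =>
    have h1 := (h i (mem_insert_self i s)).map₂ (ih fun j hj => h j (mem_insert_of_mem hj)) (· + ·)
    have h2 : (fun a => x i a + ∑ j ∈ s, x j a) = fun a => ∑ j ∈ insert i s, x j a :=
      funext fun a => (sum_insert hi (f := fun j => x j a)).symm
    rw [← h2]
    exact h1

/-- a function which agrees at every place with one of finitely many functions with finite range -/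
theorem FR.of_mem {A W ι : Type} {I : Set ι} (hI : I.Finite) {y : ι → A → W} (hy : ∀ i ∈ I, FR (y i)) {x : A → W}
    (h : ∀ a, ∃ i ∈ I, x a = y i a) : FR x := by
  refine (hI.biUnion hy).subset ?_
  rintro _ ⟨a, rfl⟩
  obtain ⟨i, hi, hi'⟩ := h a
  rw [hi']
  exact Set.mem_biUnion hi ⟨a, rfl⟩

theorem FR.ite {A W : Type} {x y : A → W} (hx : FR x) (hy : FR y) (p : A → Prop) [DecidablePred p] :
    FR fun a => if p a then x a else y a := by
  refine (hx.union hy).subset ?_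
  rintro _ ⟨a, rfl⟩
  show (if p a then x a else y a) ∈ _
  split_ifs
  · exact Or.inl ⟨a, rfl⟩
  · exact Or.inr ⟨a, rfl⟩

/-! ### Controlled cochains -/

section

variable {H Λ U : Type} [Group H] [Group Λ] [DecidableEq U] [MulAction Λ U]

variable {K B : Set (Finset U)} {f : H → Λ}

theorem Crs.mem_iff (h : Crs f K B) (g : Λ) (s : Finset U) : g • s ∈ K ↔ s ∈ K :=
  ⟨fun h1 => by simpa using h.K_mem g⁻¹ _ h1, h.K_mem g s⟩

theorem Crs.memB_iff (h : Crs f K B) (g : Λ) (s : Finset U) : g • s ∈ B ↔ s ∈ B :=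
  ⟨fun h1 => by simpa using h.B_mem g⁻¹ _ h1, h.B_mem g s⟩

/-- the simplices which contain one of finitely many simplices -/
theorem Crs.cofaces (h : Crs f K B) {S : Set (Finset U)} (hS : S.Finite) :
    {T | T ∈ K ∧ ∃ t ∈ S, t ∈ K ∧ t ⊆ T}.Finite := by
  have h1 : {T | T ∈ K ∧ ∃ t ∈ S, t ∈ K ∧ t ⊆ T} ⊆ ⋃ t ∈ {t | t ∈ S ∧ t ∈ K}, {T | T ∈ K ∧ t ⊆ T} := by
    rintro T ⟨h1, t, h2, h3, h4⟩
    exact Set.mem_biUnion (show t ∈ {t | t ∈ S ∧ t ∈ K} from ⟨h2, h3⟩) ⟨h1, h4⟩
  refine Set.Finite.subset ?_ h1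
  refine Set.Finite.biUnion (hS.subset fun t ht => ht.1) fun t ht => h.locfin t ht.2

/-- **Near elements.** If `f(g) t` and `f(g a) t'` are faces of the same simplex, then `a` is one of finitely many
elements. -/
theorem Crs.nearS (h : Crs f K B) {S : Set (Finset U)} (hS : S.Finite) :
    {a : H | ∃ g : H, ∃ t ∈ S, ∃ t' ∈ S, ∃ T ∈ K, t ∈ K ∧ t' ∈ K ∧ f g • t ⊆ T ∧ f (g * a) • t' ⊆ T}.Finite := by
  set S' : Set (Finset U) := {T | T ∈ K ∧ ∃ t ∈ S, t ∈ K ∧ t ⊆ T} with hS'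
  have hS'f : S'.Finite := h.cofaces hS
  set E : Set Λ := ⋃ T ∈ S', ⋃ T' ∈ S', {x : Λ | x • T = T'} with hE
  have hEf : E.Finite := hS'f.biUnion fun T hT => hS'f.biUnion fun T' _ => h.prop T hT.1 T'
  refine (h.emb.prop_fin hEf).subset ?_
  rintro a ⟨g, t, ht, t', ht', T, hT, htK, htK', h1, h2⟩
  refine ⟨g, ?_⟩
  rw [hE, Set.mem_iUnion₂]
  refine ⟨(f (g * a))⁻¹ • T, ⟨(h.mem_iff _ _).2 hT, t', ht', htK', ?_⟩, Set.mem_iUnion₂.2
    ⟨(f g)⁻¹ • T, ⟨(h.mem_iff _ _).2 hT, t, ht, htK, ?_⟩, ?_⟩⟩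
  · rw [← smul_finset_subset_smul_finset_iff (a := f (g * a)), smul_inv_smul]
    exact h2
  · rw [← smul_finset_subset_smul_finset_iff (a := f g), smul_inv_smul]
    exact h1
  · show ((f g)⁻¹ * f (g * a)) • (f (g * a))⁻¹ • T = (f g)⁻¹ • T
    rw [mul_smul, smul_inv_smul]

variable {W W' : Type} [AddCommGroup W] [Module (ZMod 2) W] [AddCommGroup W'] [Module (ZMod 2) W']
  {ρ : H →* Module.End (ZMod 2) W} {ρ' : H →* Module.End (ZMod 2) W'}

theorem rho_inv_cancel (ρ : H →* Module.End (ZMod 2) W) (g : H) (w : W) : ρ g (ρ g⁻¹ w) = w := by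
  rw [← Module.End.mul_apply, ← map_mul, mul_inv_cancel, map_one]
  rfl

theorem rho_cancel_inv (ρ : H →* Module.End (ZMod 2) W) (g : H) (w : W) : ρ g⁻¹ (ρ g w) = w := by
  rw [← Module.End.mul_apply, ← map_mul, inv_mul_cancel, map_one]
  rfl

theorem val_of_fr {c : Finset U → W} {t : Finset U} (h : FR fun g : H => ρ g⁻¹ (c (f g • t))) :
    ∃ E : Set W, E.Finite ∧ ∀ h : H, ∃ w ∈ E, c (f h • t) = ρ h w :=
  ⟨_, h, fun g => ⟨_, ⟨g, rfl⟩, (rho_inv_cancel ρ g _).symm⟩⟩

namespace Ctl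

/-- the values have finite range -/
theorem fr {q : ℕ} {c : Finset U → W} (hc : Ctl f K B ρ q c) (t : Finset U) : FR fun g : H => ρ g⁻¹ (c (f g • t)) := by
  obtain ⟨E, hE, h⟩ := hc.val t
  refine hE.subset ?_
  rintro _ ⟨g, rfl⟩
  obtain ⟨w, hw, hw'⟩ := h g
  show ρ g⁻¹ (c (f g • t)) ∈ E
  rw [hw', rho_cancel_inv]
  exact hw

theorem zero (q : ℕ) : Ctl f K B ρ q (0 : Finset U → W) where
  supp := fun s h => absurd rfl h
  fin := ⟨∅, fun s h => absurd rfl h⟩
  val := fun t => by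
    refine val_of_fr (ρ := ρ) (c := 0) ?_
    simp only [Pi.zero_apply, map_zero]
    exact FR.const 0

theorem add {q : ℕ} {c d : Finset U → W} (hc : Ctl f K B ρ q c) (hd : Ctl f K B ρ q d) :
    Ctl f K B ρ q (c + d) where
  supp := by
    intro s h
    by_cases h0 : c s = 0
    · refine hd.supp s fun h1 => h ?_
      rw [Pi.add_apply, h0, h1, add_zero]
    · exact hc.supp s h0
  fin := by
    classical
    obtain ⟨F, hF⟩ := hc.fin
    obtain ⟨F', hF'⟩ := hd.fin
    refine ⟨F ∪ F', fun s h => ?_⟩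
    by_cases h0 : c s = 0
    · obtain ⟨g, t, ht, hg⟩ := hF' s fun h1 => h (by rw [Pi.add_apply, h0, h1, add_zero])
      exact ⟨g, t, mem_union_right _ ht, hg⟩
    · obtain ⟨g, t, ht, hg⟩ := hF s h0
      exact ⟨g, t, mem_union_left _ ht, hg⟩
  val := fun t => by
    refine val_of_fr (ρ := ρ) (c := c + d) ?_
    simp only [Pi.add_apply, map_add]
    exact (hc.fr t).map₂ (hd.fr t) (· + ·)

/-- the image under a map which is equivariant on the values -/
theorem map {q : ℕ} {c : Finset U → W} (hc : Ctl f K B ρ q c) (L : W → W') (h0 : L 0 = 0)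
    (hL : ∀ g s, L (ρ g (c s)) = ρ' g (L (c s))) : Ctl f K B ρ' q (fun s => L (c s)) where
  supp := fun s h => hc.supp s fun h1 => h (by rw [h1, h0])
  fin := by
    obtain ⟨F, hF⟩ := hc.fin
    exact ⟨F, fun s h => hF s fun h1 => h (by rw [h1, h0])⟩
  val := fun t => by
    refine val_of_fr (ρ := ρ') (c := fun s => L (c s)) ?_
    simp only [← hL]
    exact (hc.fr t).comp L

theorem empty {q : ℕ} {c : Finset U → W} (hne : ∀ s ∈ K, s.Nonempty) (hc : Ctl f K B ρ q c) : c ∅ = 0 := by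
  by_contra h
  exact absurd (hne _ (hc.supp _ h).1) (by simp)

theorem eq_zero {c : Finset U → W} (hne : ∀ s ∈ K, s.Nonempty) (hc : Ctl f K B ρ 0 c) (s : Finset U) : c s = 0 := by
  by_contra h
  obtain ⟨h1, -, h2⟩ := hc.supp s h
  exact absurd (hne s h1) (by simp [card_eq_zero.1 h2])

theorem eq_zero_of_mem {q : ℕ} {c : Finset U → W} (hc : Ctl f K B ρ q c) {s : Finset U} (hs : s ∈ B) : c s = 0 := by
  by_contra h
  exact (hc.supp s h).2.1 hs

/-- the values at the simplices `f(g) t(g)`, `t(g)` one of finitely many simplices -/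
theorem val_mem {q : ℕ} {c : Finset U → W} (hc : Ctl f K B ρ q c) {S : Set (Finset U)} (hS : S.Finite)
    {t : H → Finset U} (ht : ∀ g, t g ∈ S) : FR fun g : H => ρ g⁻¹ (c (f g • t g)) :=
  FR.of_mem hS (y := fun s g => ρ g⁻¹ (c (f g • s))) (fun s _ => hc.fr s) fun g => ⟨t g, ht g, rfl⟩

/-- enlarging the support -/
theorem near_sup (h : Crs f K B) {q : ℕ} {c : Finset U → W} (hc : Ctl f K B ρ q c) :
    ∃ S : Finset (Finset U), ∀ s T : Finset U, c s ≠ 0 → s ⊆ T → T ∈ K → ∃ g : H, ∃ t ∈ S, T = f g • t := by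
  classical
  obtain ⟨S, hS⟩ := hc.fin
  refine ⟨(h.cofaces (S := (S : Set (Finset U))) S.finite_toSet).toFinset, fun s T h1 h2 h3 => ?_⟩
  obtain ⟨g, t, ht, rfl⟩ := hS s h1
  refine ⟨g, (f g)⁻¹ • T, ?_, (smul_inv_smul _ _).symm⟩
  rw [Set.Finite.mem_toFinset]
  refine ⟨(h.mem_iff _ _).2 h3, t, ht, (h.mem_iff _ _).1 (hc.supp _ h1).1, ?_⟩
  rw [← smul_finset_subset_smul_finset_iff (a := f g), smul_inv_smul]
  exact h2

/-- the coboundary of a controlled cochain -/
theorem cb (h : Crs f K B) {q : ℕ} {c : Finset U → W} (hc : Ctl f K B ρ q c) : Ctl f K B ρ (q + 1) (cbK K B c) where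
  supp := by
    intro s hs
    unfold cbK at hs
    split_ifs at hs with h1
    · obtain ⟨v, hv, hv'⟩ := exists_ne_zero_of_sum_ne_zero hs
      obtain ⟨-, -, h4⟩ := hc.supp _ hv'
      rw [card_erase_of_mem hv] at h4
      have := card_pos.2 ⟨v, hv⟩
      exact ⟨h1.1, h1.2, by omega⟩
    · exact absurd rfl hs
  fin := by
    obtain ⟨S, hS⟩ := hc.near_sup h
    refine ⟨S, fun s hs => ?_⟩
    unfold cbK at hs
    split_ifs at hs with h1
    · obtain ⟨v, hv, hv'⟩ := exists_ne_zero_of_sum_ne_zero hs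
      exact hS _ s hv' (erase_subset _ _) h1.1
    · exact absurd rfl hs
  val := by
    intro t
    classical
    refine val_of_fr (ρ := ρ) (c := cbK K B c) ?_
    have h1 : ∀ g : H, ρ g⁻¹ (cbK K B c (f g • t)) =
        if t ∈ K ∧ t ∉ B then ∑ v ∈ t, ρ g⁻¹ (c (f g • t.erase v)) else 0 := by
      intro g
      by_cases h1 : t ∈ K ∧ t ∉ B
      · rw [cbK_eq ((h.mem_iff _ _).2 h1.1) (fun h2 => h1.2 ((h.memB_iff _ _).1 h2)), sum_smul_set, map_sum, if_pos h1]
        exact sum_congr rfl fun v _ => by rw [erase_smul]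
      · have h2 : ¬ (f g • t ∈ K ∧ f g • t ∉ B) := by
          rwa [h.mem_iff, h.memB_iff]
        unfold cbK
        rw [if_neg h1, if_neg h2, map_zero]
    simp only [h1]
    refine FR.ite (FR.sum t fun v _ => hc.fr (t.erase v)) (FR.const 0) _

/-- the sum over the faces of a simplex of `B` -/
theorem sum_of_mem_B (h : Crs f K B) {q : ℕ} {c : Finset U → W} (hc : Ctl f K B ρ q c) {t : Finset U} (ht' : t ∈ B) :
    ∑ v ∈ t, c (t.erase v) = 0 := by
  refine sum_eq_zero fun v hv => ?_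
  by_contra h1
  obtain ⟨h2, h3, -⟩ := hc.supp _ h1
  exact h3 (h.bd_down t ht' _ (erase_subset _ _) (h.ne _ h2))

end Ctl

/-- the coboundary of a coboundary -/
theorem ctl_cb_cb (h : Crs f K B) {q : ℕ} {c e : Finset U → W} (hc : Ctl f K B ρ q c) (hf : Ctl f K B ρ (q + 1) e)
    (hcf : IsCb K B c e) : IsCb K B e 0 := by
  intro t ht1 ht2
  have h1 : ∀ v ∈ t, e (t.erase v) = ∑ w ∈ t.erase v, c ((t.erase v).erase w) := by
    intro v hv
    rcases (t.erase v).eq_empty_or_nonempty with h0 | h0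
    · rw [h0, sum_empty]
      exact hf.empty h.ne
    · have h2 := h.down t ht1 _ (erase_subset v t) h0
      by_cases h3 : t.erase v ∈ B
      · rw [hc.sum_of_mem_B h h3, hf.eq_zero_of_mem h3]
      · exact (hcf _ h2 h3).symm
  rw [sum_congr rfl h1, sum_sum_erase]
  rfl

/-- controlled lifts of cochains -/
theorem Ctl.lift (h : Crs f K B) (L : W →ₗ[ZMod 2] W') (hL : ∀ g x, L (ρ g x) = ρ' g (L x)) {q : ℕ}
    {c : Finset U → W'} (hc : Ctl f K B ρ' q c) (hr : ∀ s, c s ∈ LinearMap.range L) :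
    ∃ b, Ctl f K B ρ q b ∧ ∀ s, L (b s) = c s := by
  classical
  obtain ⟨S, hS⟩ := hc.fin
  -- a section
  have hsec : ∃ y : W' → W, y 0 = 0 ∧ ∀ w, w ∈ LinearMap.range L → L (y w) = w := by
    refine ⟨fun w => if h0 : w = 0 then 0 else if h1 : w ∈ LinearMap.range L then Classical.choose (LinearMap.mem_range.1 h1) else 0, ?_, ?_⟩
    · exact dif_pos rfl
    · intro w hw
      by_cases h0 : w = 0
      · show L (dite _ _ _) = w
        rw [dif_pos h0, map_zero, h0]
      · show L (dite _ _ _) = w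
        rw [dif_neg h0, dif_pos hw]
        exact Classical.choose_spec (LinearMap.mem_range.1 hw)
  obtain ⟨y, hy0, hy⟩ := hsec
  have hγ : ∀ s, ∃ g : H, c s ≠ 0 → ∃ t ∈ S, s = f g • t := by
    intro s
    by_cases h0 : c s = 0
    · exact ⟨1, fun h1 => absurd h0 h1⟩
    · obtain ⟨g, hg⟩ := hS s h0
      exact ⟨g, fun _ => hg⟩
  choose γ hγ using hγ
  refine ⟨fun s => ρ (γ s) (y (ρ' (γ s)⁻¹ (c s))), ⟨fun s hs => ?_, ⟨S, fun s hs => ?_⟩, fun t => ?_⟩, fun s => ?_⟩
  · refine hc.supp s fun h0 => hs ?_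
    show ρ (γ s) (y (ρ' (γ s)⁻¹ (c s))) = 0
    rw [h0, map_zero, hy0, map_zero]
  · have h1 : c s ≠ 0 := fun h0 => hs (by
      show ρ (γ s) (y (ρ' (γ s)⁻¹ (c s))) = 0
      rw [h0, map_zero, hy0, map_zero])
    exact ⟨γ s, hγ s h1⟩
  · -- the values
    refine val_of_fr (ρ := ρ) (c := fun s => ρ (γ s) (y (ρ' (γ s)⁻¹ (c s)))) ?_
    set A : Set H := {a : H | ∃ g : H, ∃ t' ∈ insert t (S : Set (Finset U)), ∃ t'' ∈ insert t (S : Set (Finset U)),
      ∃ T ∈ K, t' ∈ K ∧ t'' ∈ K ∧ f g • t' ⊆ T ∧ f (g * a) • t'' ⊆ T} with hA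
    have hAf : A.Finite := h.nearS (S.finite_toSet.insert t)
    -- for each `a` the values `ρ(a) y (ρ'(a⁻¹) ρ'(g⁻¹) c(f(g) t))`
    have h1 : FR fun g : H => if c (f g • t) = 0 then (0 : W) else
        ρ (g⁻¹ * γ (f g • t)) (y (ρ' (g⁻¹ * γ (f g • t))⁻¹ (ρ' g⁻¹ (c (f g • t))))) := by
      refine FR.of_mem (I := insert 1 A) (hAf.insert 1) (y := fun a g => if c (f g • t) = 0 then (0 : W) else
        ρ a (y (ρ' a⁻¹ (ρ' g⁻¹ (c (f g • t)))))) (fun a _ => ?_) fun g => ?_
      · exact FR.ite (FR.const 0) ((hc.fr t).comp fun w => ρ a (y (ρ' a⁻¹ w))) _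
      · by_cases h0 : c (f g • t) = 0
        · exact ⟨1, Set.mem_insert _ _, by simp only [if_pos h0]⟩
        · refine ⟨g⁻¹ * γ (f g • t), Set.mem_insert_of_mem _ ?_, by simp only [if_neg h0]⟩
          obtain ⟨t', ht', h2⟩ := hγ _ h0
          have h3 := (hc.supp _ h0).1
          refine ⟨g, t, Set.mem_insert _ _, t', Set.mem_insert_of_mem _ ht', f g • t, h3, (h.mem_iff _ _).1 h3, ?_,
            subset_rfl, ?_⟩
          · rw [h2] at h3
            exact (h.mem_iff _ _).1 h3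
          · rw [mul_inv_cancel_left, ← h2]
    refine (congrArg FR (funext fun g => ?_)).mp h1
    by_cases h0 : c (f g • t) = 0
    · rw [if_pos h0, h0, map_zero, hy0, map_zero, map_zero]
    · rw [if_neg h0, map_mul, Module.End.mul_apply]
      congr 3
      rw [← Module.End.mul_apply, ← map_mul]
      congr 2
      group
  · show L (ρ (γ s) (y (ρ' (γ s)⁻¹ (c s)))) = c s
    have h1 : ρ' (γ s)⁻¹ (c s) ∈ LinearMap.range L := by
      obtain ⟨x, hx⟩ := LinearMap.mem_range.1 (hr s)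
      exact ⟨ρ (γ s)⁻¹ x, by rw [hL, hx]⟩
    rw [hL, hy _ h1, rho_inv_cancel]

end

end Pool.Agent.CE
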