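import Pool.Agent.CE.SqB
import Pool.Agent.S11.Flat

/-!
# Project CE, steps 3 and 5: the controlled cochains with values in `τ` are the coinvariants of `PC ⊗ W`

`theta τ q`: the map from `PC f K B q ⊗ W` to the controlled cochains with values in `τ`, `c ⊗ w ↦ (s ↦ ∑ c(h)(s) h w)`.
-/

set_option autoImplicit false
set_option linter.unusedSectionVars false

open Finset Pointwise
open scoped TensorProduct

noncomputable section

namespace Pool.Agent.CE

open Pool.Agent.S11 Pool.Agent.H10.CI

section

variable {H Λ U : Type} [Group H] [Group Λ] [DecidableEq U] [MulAction Λ U] {f : H → Λ} {K B : Set (Finset U)} {q : ℕ}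
  {W : Type} [AddCommGroup W] [Module (ZMod 2) W]

/-- the elements of `H` which are near to each other, seen from a simplex -/
theorem Crs.nearF (h : Crs f K B) (F F' : Finset (Finset U)) :
    ∃ A : Finset H, ∀ s ∈ K, ∀ a b : H, (∃ t ∈ F, s = f a • t) → (∃ t ∈ F', s = f b • t) → a⁻¹ * b ∈ A := by
  classical
  have hE : (⋃ t ∈ F, ⋃ t' ∈ F', {a : H | t' ∈ K ∧ ∃ g : H, f (g * a) • t' = f g • t}).Finite := by
    refine Set.Finite.biUnion F.finite_toSet fun t _ => Set.Finite.biUnion F'.finite_toSet fun t' _ => ?_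
    by_cases ht : t' ∈ K
    · exact (h.near ht t).subset fun g hg => hg.2
    · convert Set.finite_empty
      ext g
      simp [ht]
  refine ⟨hE.toFinset, fun s hs a b h1 h2 => ?_⟩
  obtain ⟨t, ht, hts⟩ := h1
  obtain ⟨t', ht', hts'⟩ := h2
  rw [Set.Finite.mem_toFinset]
  refine Set.mem_biUnion ht (Set.mem_biUnion ht' ⟨?_, a, ?_⟩)
  · have h3 := h.K_mem (f b)⁻¹ s hs
    rwa [hts', inv_smul_smul] at h3
  · rw [mul_inv_cancel_left, ← hts, ← hts']

/-- for a simplex the values of a controlled function are almost all zero -/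
theorem PC_fin' (h : Crs f K B) (c : PC f K B q) (s : Finset U) : {a : H | c.1 a s ≠ 0}.Finite := by
  classical
  obtain ⟨F, hF⟩ := PC_fin c
  obtain ⟨A, hA⟩ := h.nearF F F
  rcases Set.eq_empty_or_nonempty {a : H | c.1 a s ≠ 0} with h0 | ⟨a, ha⟩
  · rw [h0]
    exact Set.finite_empty
  · refine (A.image (a * ·)).finite_toSet.subset fun b hb => ?_
    rw [mem_coe, mem_image]
    exact ⟨a⁻¹ * b, hA s (PC_supp c ha).1 a b (hF a s ha) (hF b s hb), mul_inv_cancel_left a b⟩

theorem PC_supp_smul (h : Crs f K B) (τ : Representation (ZMod 2) H W) (c : PC f K B q) (w : W) (s : Finset U) :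
    (Function.support fun a => c.1 a s • τ a w).Finite := by
  refine (PC_fin' h c s).subset fun a ha h0 => ha ?_
  show c.1 a s • τ a w = 0
  have h1 : c.1 a s = 0 := h0
  rw [h1, zero_smul]

/-- the bilinear form of `theta` -/
def thB (h : Crs f K B) (τ : Representation (ZMod 2) H W) (q : ℕ) : PC f K B q →ₗ[ZMod 2] W →ₗ[ZMod 2] (Finset U → W) :=
  LinearMap.mk₂ (ZMod 2) (fun c w s => ∑ᶠ a : H, c.1 a s • τ a w)
    (fun c c' w => by
      funext s
      show ∑ᶠ a : H, (c.1 a s + c'.1 a s) • τ a w = ∑ᶠ a : H, c.1 a s • τ a w + ∑ᶠ a : H, c'.1 a s • τ a w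
      rw [← finsum_add_distrib (PC_supp_smul h τ c w s) (PC_supp_smul h τ c' w s)]
      exact finsum_congr fun a => add_smul _ _ _)
    (fun r c w => by
      funext s
      show ∑ᶠ a : H, (r • c.1 a s) • τ a w = r • ∑ᶠ a : H, c.1 a s • τ a w
      rw [smul_finsum' r (PC_supp_smul h τ c w s)]
      exact finsum_congr fun a => smul_assoc _ _ _)
    (fun c w w' => by
      funext s
      show ∑ᶠ a : H, c.1 a s • τ a (w + w') = ∑ᶠ a : H, c.1 a s • τ a w + ∑ᶠ a : H, c.1 a s • τ a w'
      rw [← finsum_add_distrib (PC_supp_smul h τ c w s) (PC_supp_smul h τ c w' s)]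
      exact finsum_congr fun a => by rw [map_add, smul_add])
    (fun r c w => by
      funext s
      show ∑ᶠ a : H, c.1 a s • τ a (r • w) = r • ∑ᶠ a : H, c.1 a s • τ a w
      rw [smul_finsum' r (PC_supp_smul h τ c w s)]
      exact finsum_congr fun a => by rw [map_smul, smul_comm])

/-- the map to the controlled cochains -/
def theta (h : Crs f K B) (τ : Representation (ZMod 2) H W) (q : ℕ) : (PC f K B q) ⊗[ZMod 2] W →ₗ[ZMod 2] (Finset U → W) :=
  TensorProduct.lift (thB h τ q)

theorem theta_tmul (h : Crs f K B) (τ : Representation (ZMod 2) H W) (c : PC f K B q) (w : W) (s : Finset U) :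
    theta h τ q (c ⊗ₜ[ZMod 2] w) s = ∑ᶠ a : H, c.1 a s • τ a w := rfl

/-- `theta` of a tensor, with a finite set which contains the support -/
theorem theta_tmul_sum (h : Crs f K B) (τ : Representation (ZMod 2) H W) (c : PC f K B q) (w : W) (s : Finset U)
    {A : Finset H} (hA : ∀ a, c.1 a s ≠ 0 → a ∈ A) :
    theta h τ q (c ⊗ₜ[ZMod 2] w) s = ∑ a ∈ A, c.1 a s • τ a w := by
  rw [theta_tmul]
  refine finsum_eq_sum_of_support_subset _ fun a ha => ?_
  refine mem_coe.2 (hA a fun h0 => ha ?_)
  show c.1 a s • τ a w = 0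
  rw [h0, zero_smul]

/-- the image of a tensor is controlled -/
theorem ctl_theta_tmul (h : Crs f K B) (τ : Representation (ZMod 2) H W) (c : PC f K B q) (w : W) :
    Ctl f K B τ q (theta h τ q (c ⊗ₜ[ZMod 2] w)) := by
  classical
  obtain ⟨F, hF⟩ := PC_fin c
  have h0 : ∀ s, theta h τ q (c ⊗ₜ[ZMod 2] w) s ≠ 0 → ∃ a, c.1 a s ≠ 0 := by
    intro s hs
    by_contra h1
    push Not at h1
    apply hs
    rw [theta_tmul_sum h τ c w s (A := ∅) fun a ha => absurd (h1 a) ha, sum_empty]
  refine ⟨fun s hs => ?_, ⟨F, fun s hs => ?_⟩, fun t => ?_⟩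
  · obtain ⟨a, ha⟩ := h0 s hs
    exact PC_supp c ha
  · obtain ⟨a, ha⟩ := h0 s hs
    exact ⟨a, hF a s ha⟩
  · obtain ⟨A, hA⟩ := h.nearF {t} F
    -- the finitely many values
    have h1 : ∀ g : H, τ g⁻¹ (theta h τ q (c ⊗ₜ[ZMod 2] w) (f g • t)) =
        ∑ a ∈ A, c.1 (g * a) (f g • t) • τ a w := by
      intro g
      rw [theta_tmul_sum h τ c w (f g • t) (A := A.image (g * ·)) fun b hb => ?_, map_sum,
        sum_image fun a _ b _ hab => mul_left_cancel hab]
      · refine sum_congr rfl fun a _ => ?_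
        rw [map_smul, map_mul, Module.End.mul_apply, rho_cancel_inv]
      · rw [mem_image]
        exact ⟨g⁻¹ * b, hA _ (PC_supp c hb).1 g b ⟨t, mem_singleton_self t, rfl⟩ (hF b _ hb), mul_inv_cancel_left g b⟩
    have h2 : FR fun g : H => fun a : A => c.1 (g * a) (f g • t) := Set.toFinite _
    have h3 := h2.comp fun ε : A → ZMod 2 => ∑ a : A, ε a • τ (a : H) w
    refine val_of_fr ((congrArg FR (funext fun g => ?_)).mp h3)
    rw [h1 g, ← sum_coe_sort A]

theorem ctl_theta (h : Crs f K B) (τ : Representation (ZMod 2) H W) (x : (PC f K B q) ⊗[ZMod 2] W) :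
    Ctl f K B τ q (theta h τ q x) := by
  induction x using TensorProduct.induction_on with
  | zero =>
    rw [map_zero]
    exact Ctl.zero q
  | tmul c w => exact ctl_theta_tmul h τ c w
  | add x y hx hy =>
    rw [map_add]
    exact hx.add hy

/-- `theta` commutes with the coboundary -/
theorem isCb_theta (h : Crs f K B) (τ : Representation (ZMod 2) H W) (x : (PC f K B q) ⊗[ZMod 2] W) :
    IsCb K B (theta h τ q x) (theta h τ (q + 1) ((dP h q (q + 1)).rTensor W x)) := by
  classical
  induction x using TensorProduct.induction_on with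
  | zero =>
    rw [map_zero, map_zero, map_zero]
    intro t _ _
    exact sum_const_zero
  | add x y hx hy =>
    rw [map_add, map_add, map_add]
    exact hx.add hy
  | tmul c w =>
    intro t ht ht'
    rw [LinearMap.rTensor_tmul]
    -- a finite set with all elements which occur
    obtain ⟨A, hA⟩ : ∃ A : Finset H, (∀ v ∈ t, ∀ a, c.1 a (t.erase v) ≠ 0 → a ∈ A) := by
      refine ⟨t.biUnion fun v => (PC_fin' h c (t.erase v)).toFinset, fun v hv a ha => ?_⟩
      exact mem_biUnion.2 ⟨v, hv, (Set.Finite.mem_toFinset _).2 ha⟩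
    have h1 : ∀ a, (dP h q (q + 1) c).1 a t ≠ 0 → a ∈ A := by
      intro a ha
      rw [dP_apply] at ha
      obtain ⟨-, v, hv, hv'⟩ := cobQ_supp ha
      exact hA v hv a hv'
    rw [theta_tmul_sum h τ _ w t h1, sum_congr rfl fun v hv => theta_tmul_sum h τ c w (t.erase v) (hA v hv), sum_comm]
    refine sum_congr rfl fun a _ => ?_
    rw [dP_apply, ← sum_smul]
    by_cases hc : t.card = q + 1
    · rw [cobQ_of _ ht ht' hc]
    · have h2 : cobQ K B (q + 1) (c.1 a) t = 0 := by
        unfold cobQ
        rw [if_neg fun h3 => hc h3.2.2]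
      rw [h2]
      congr 1
      refine sum_eq_zero fun v hv => ?_
      by_contra h3
      have h4 := (PC_supp c h3).2.2
      rw [card_erase_of_mem hv] at h4
      have := card_pos.2 ⟨v, hv⟩
      omega

/-- `theta` is invariant -/
theorem theta_inv (h : Crs f K B) (τ : Representation (ZMod 2) H W) (g : H) (x : (PC f K B q) ⊗[ZMod 2] W) :
    theta h τ q (((PR h q).tprod τ) g x) = theta h τ q x := by
  induction x using TensorProduct.induction_on with
  | zero => rw [map_zero]
  | add x y hx hy => rw [map_add, map_add, map_add, hx, hy]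
  | tmul c w =>
    rw [Representation.tprod_apply, TensorProduct.map_tmul]
    funext s
    rw [theta_tmul, theta_tmul]
    refine finsum_eq_of_bijective (fun a : H => a * g) (Group.mulRight_bijective g) fun a => ?_
    rw [PR_apply, map_mul]
    rfl

theorem theta_Kr (h : Crs f K B) (τ : Representation (ZMod 2) H W) {x : (PC f K B q) ⊗[ZMod 2] W}
    (hx : x ∈ Kr ((PR h q).tprod τ) ⊤) : theta h τ q x = 0 := by
  have h1 : Kr ((PR h q).tprod τ) ⊤ ≤ LinearMap.ker (theta h τ q) := by
    refine Kr_le fun g _ t => ?_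
    rw [LinearMap.mem_ker, map_sub, theta_inv, sub_self]
  exact h1 hx

/-- a tensor which vanishes at all places is zero -/
theorem tensor_eq_zero (x : (PC f K B q) ⊗[ZMod 2] W)
    (hx : ∀ (a : H) (s : Finset U), TensorProduct.lift
      ((LinearMap.lsmul (ZMod 2) W).comp ((LinearMap.proj s).comp ((LinearMap.proj a).comp (PC f K B q).subtype))) x = 0) :
    x = 0 := by
  classical
  obtain ⟨ι, b⟩ := Module.Free.exists_basis (R := ZMod 2) (M := W)
  set e := TensorProduct.equivFinsuppOfBasisRight (M := PC f K B q) b with he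
  have key : ∀ (a : H) (s : Finset U) (y : (PC f K B q) ⊗[ZMod 2] W) (i : ι), (e y i).1 a s = b.repr (TensorProduct.lift
      ((LinearMap.lsmul (ZMod 2) W).comp ((LinearMap.proj s).comp ((LinearMap.proj a).comp (PC f K B q).subtype))) y) i := by
    intro a s y i
    induction y using TensorProduct.induction_on with
    | zero => rw [map_zero, map_zero, map_zero]; rfl
    | add y z hy hz =>
      rw [map_add, map_add, map_add, Finsupp.add_apply, Finsupp.add_apply, ← hy, ← hz]
      rfl
    | tmul c w =>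
      rw [he, TensorProduct.equivFinsuppOfBasisRight_apply_tmul_apply, TensorProduct.lift.tmul]
      show (b.repr w i • c).1 a s = b.repr (c.1 a s • w) i
      rw [map_smul, Finsupp.smul_apply, smul_eq_mul, mul_comm]
      rfl
  have h1 : e x = 0 := by
    ext i a s
    rw [key, hx, map_zero]
    rfl
  exact (LinearEquiv.map_eq_zero_iff e).1 h1

end

end Pool.Agent.CE
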