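import Pool.Agent.CE.Th

/-!
# Project CE, steps 3 and 5: `theta` is onto the controlled cochains, and its kernel is the kernel of the coinvariants
-/

set_option autoImplicit false
set_option linter.unusedSectionVars false

open Finset Pointwise
open scoped TensorProduct

noncomputable section

namespace Pool.Agent.CE

open Pool.Agent.S11 Pool.Agent.H10.CI

section

variable {H Λ U : Type} [Group H] [Group Λ] [DecidableEq U] [MulAction Λ U] {f : H → Λ} {K B : Set (Finset U)} {q : ℕ}
  {W : Type} [AddCommGroup W] [Module (ZMod 2) W]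

/-- base points for the simplices near a finite set -/
theorem exists_sig (f : H → Λ) (F : Finset (Finset U)) :
    ∃ sig : Finset U → H, ∀ s : Finset U, (∃ a : H, ∃ t ∈ F, s = f a • t) → ∃ t ∈ F, s = f (sig s) • t := by
  classical
  refine ⟨fun s => if h : ∃ a : H, ∃ t ∈ F, s = f a • t then h.choose else 1, fun s hs => ?_⟩
  simp only [dif_pos hs]
  exact hs.choose_spec

/-- every controlled cochain is in the image -/
theorem theta_surj (h : Crs f K B) (τ : Representation (ZMod 2) H W) {c : Finset U → W} (hc : Ctl f K B τ q c) :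
    ∃ x, theta h τ q x = c := by
  classical
  obtain ⟨F, hF⟩ := hc.fin
  obtain ⟨sig, hsig⟩ := exists_sig f F
  -- the values
  have hS : (⋃ t ∈ F, Set.range fun g : H => τ g⁻¹ (c (f g • t))).Finite :=
    Set.Finite.biUnion F.finite_toSet fun t _ => hc.fr t
  set S : Finset W := hS.toFinset with hSdef
  have hmem : ∀ s, c s ≠ 0 → τ (sig s)⁻¹ (c s) ∈ S := by
    intro s hs
    rw [hSdef, Set.Finite.mem_toFinset]
    obtain ⟨t, ht, hts⟩ := hsig s (hF s hs)
    refine Set.mem_biUnion ht ⟨sig s, ?_⟩
    show τ (sig s)⁻¹ (c (f (sig s) • t)) = _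
    rw [← hts]
  -- the functions
  let p : W → PC f K B q := fun w => ⟨fun a s => if a = sig s ∧ c s ≠ 0 ∧ τ (sig s)⁻¹ (c s) = w then 1 else 0, by
    refine ⟨fun a s hs => ?_, F, fun a s hs => ?_⟩
    · have h1 : a = sig s ∧ c s ≠ 0 ∧ τ (sig s)⁻¹ (c s) = w := by
        by_contra h1
        exact hs (if_neg h1)
      exact hc.supp s h1.2.1
    · have h1 : a = sig s ∧ c s ≠ 0 ∧ τ (sig s)⁻¹ (c s) = w := by
        by_contra h1
        exact hs (if_neg h1)
      rw [h1.1]
      exact hsig s (hF s h1.2.1)⟩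
  have hp : ∀ w a s, (p w).1 a s = if a = sig s ∧ c s ≠ 0 ∧ τ (sig s)⁻¹ (c s) = w then 1 else 0 := fun _ _ _ => rfl
  refine ⟨∑ w ∈ S, p w ⊗ₜ[ZMod 2] w, ?_⟩
  funext s
  rw [map_sum, Finset.sum_apply]
  have h1 : ∀ w ∈ S, theta h τ q (p w ⊗ₜ[ZMod 2] w) s =
      if c s ≠ 0 ∧ τ (sig s)⁻¹ (c s) = w then τ (sig s) w else 0 := by
    intro w _
    rw [theta_tmul_sum h τ (p w) w s (A := {sig s}) fun a ha => ?_, sum_singleton, hp]
    · by_cases h2 : c s ≠ 0 ∧ τ (sig s)⁻¹ (c s) = w
      · rw [if_pos ⟨rfl, h2⟩, if_pos h2, one_smul]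
      · rw [if_neg fun h3 => h2 h3.2, if_neg h2, zero_smul]
    · rw [mem_singleton]
      by_contra h2
      apply ha
      rw [hp, if_neg fun h3 => h2 h3.1]
  rw [sum_congr rfl h1]
  by_cases h0 : c s = 0
  · rw [h0]
    exact sum_eq_zero fun w _ => if_neg fun h2 => h2.1 rfl
  · rw [sum_eq_single_of_mem _ (hmem s h0) fun w _ hw => if_neg fun h2 => hw h2.2.symm, if_pos ⟨h0, rfl⟩,
      rho_inv_cancel]

/-- the part of `ρ(a) c` on the graph of `sig` -/
def gr (sig : Finset U → H) (c : H → Finset U → ZMod 2) (a : H) : H → Finset U → ZMod 2 := by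
  classical
  exact fun b s => if b = sig s then c (b * a) s else 0

theorem gr_self (sig : Finset U → H) (c : H → Finset U → ZMod 2) (a : H) (s : Finset U) :
    gr sig c a (sig s) s = c (sig s * a) s := if_pos rfl

theorem gr_ne (sig : Finset U → H) (c : H → Finset U → ZMod 2) (a : H) {b : H} {s : Finset U} (h : b ≠ sig s) :
    gr sig c a b s = 0 := if_neg h

/-- **The kernel of `theta`** -/
theorem Kr_of_theta (h : Crs f K B) (τ : Representation (ZMod 2) H W) {x : (PC f K B q) ⊗[ZMod 2] W}
    (hx : theta h τ q x = 0) : x ∈ Kr ((PR h q).tprod τ) ⊤ := by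
  classical
  -- a finite set of simplices which controls `x`
  obtain ⟨F, hF⟩ : ∃ F : Finset (Finset U), x ∈ Submodule.span (ZMod 2)
      {z | ∃ c : PC f K B q, ∃ w : W, (∀ a s, c.1 a s ≠ 0 → ∃ t ∈ F, s = f a • t) ∧ z = c ⊗ₜ[ZMod 2] w} := by
    clear hx
    induction x using TensorProduct.induction_on with
    | zero => exact ⟨∅, Submodule.zero_mem _⟩
    | tmul c w =>
      obtain ⟨F, hF⟩ := PC_fin c
      exact ⟨F, Submodule.subset_span ⟨c, w, hF, rfl⟩⟩
    | add x y hx hy =>
      obtain ⟨F, hF⟩ := hx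
      obtain ⟨F', hF'⟩ := hy
      refine ⟨F ∪ F', Submodule.add_mem _ (Submodule.span_mono ?_ hF) (Submodule.span_mono ?_ hF')⟩
      · rintro _ ⟨c, w, h1, rfl⟩
        exact ⟨c, w, fun a s hs => by
          obtain ⟨t, ht, hts⟩ := h1 a s hs
          exact ⟨t, mem_union_left _ ht, hts⟩, rfl⟩
      · rintro _ ⟨c, w, h1, rfl⟩
        exact ⟨c, w, fun a s hs => by
          obtain ⟨t, ht, hts⟩ := h1 a s hs
          exact ⟨t, mem_union_right _ ht, hts⟩, rfl⟩
  obtain ⟨sig, hsig⟩ := exists_sig f F
  obtain ⟨A, hA⟩ := h.nearF F F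
  -- the normal form
  obtain ⟨y, hy1, hy2⟩ : ∃ y : (PC f K B q) ⊗[ZMod 2] W, x - y ∈ Kr ((PR h q).tprod τ) ⊤ ∧
      ∀ (a : H) (s : Finset U), TensorProduct.lift
        ((LinearMap.lsmul (ZMod 2) W).comp ((LinearMap.proj s).comp ((LinearMap.proj a).comp (PC f K B q).subtype))) y =
          if a = sig s then τ (sig s)⁻¹ (theta h τ q y s) else 0 := by
    clear hx
    induction hF using Submodule.span_induction with
    | zero =>
      refine ⟨0, by rw [sub_zero]; exact Submodule.zero_mem _, fun a s => ?_⟩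
      rw [map_zero, map_zero]
      split_ifs
      · rw [Pi.zero_apply, map_zero]
      · rfl
    | add x x' _ _ hx hx' =>
      obtain ⟨y, h1, h2⟩ := hx
      obtain ⟨y', h1', h2'⟩ := hx'
      refine ⟨y + y', ?_, fun a s => ?_⟩
      · have h3 := Submodule.add_mem _ h1 h1'
        have h4 : x - y + (x' - y') = x + x' - (y + y') := by abel
        rwa [h4] at h3
      · rw [map_add, map_add, h2, h2']
        split_ifs
        · rw [Pi.add_apply, map_add]
        · rw [add_zero]
    | smul r x _ hx =>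
      obtain ⟨y, h1, h2⟩ := hx
      refine ⟨r • y, ?_, fun a s => ?_⟩
      · rw [← smul_sub]
        exact Submodule.smul_mem _ _ h1
      · rw [map_smul, map_smul, h2]
        split_ifs
        · rw [Pi.smul_apply, map_smul]
        · rw [smul_zero]
    | mem z hz =>
      obtain ⟨c, w, hc, rfl⟩ := hz
      -- the parts
      have hmem : ∀ a ∈ A, gr sig c.1 a ∈ PC f K B q := by
        intro a _
        have h1 : ∀ b s, gr sig c.1 a b s ≠ 0 → b = sig s ∧ c.1 (sig s * a) s ≠ 0 := by
          intro b s hs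
          by_cases hb : b = sig s
          · rw [hb, gr_self] at hs
            exact ⟨hb, hs⟩
          · exact absurd (gr_ne sig c.1 a hb) hs
        refine ⟨fun b s hs => PC_supp c (h1 b s hs).2, F, fun b s hs => ?_⟩
        obtain ⟨h2, h3⟩ := h1 b s hs
        rw [h2]
        exact hsig s ⟨_, hc _ s h3⟩
      let e : H → PC f K B q := fun a => if ha : a ∈ A then ⟨gr sig c.1 a, hmem a ha⟩ else 0
      have he : ∀ a ∈ A, (e a).1 = gr sig c.1 a := fun a ha => by
        show (dite _ _ _ : PC f K B q).1 = _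
        rw [dif_pos ha]
      refine ⟨∑ a ∈ A, e a ⊗ₜ[ZMod 2] τ a w, ?_, fun b s => ?_⟩
      · -- `c = ∑ a⁻¹ e a`
        have h1 : c = ∑ a ∈ A, PR h q a⁻¹ (e a) := by
          refine Subtype.ext ?_
          funext b s
          have h2 : (∑ a ∈ A, PR h q a⁻¹ (e a)).1 b s = ∑ a ∈ A, (PR h q a⁻¹ (e a)).1 b s := by
            rw [AddSubmonoidClass.coe_finsetSum, Finset.sum_apply, Finset.sum_apply]
          rw [h2]
          have h3 : ∀ a ∈ A, (PR h q a⁻¹ (e a)).1 b s = if a = (sig s)⁻¹ * b then c.1 b s else 0 := by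
            intro a ha
            rw [PR_apply, he a ha]
            by_cases h4 : b * a⁻¹ = sig s
            · rw [h4, gr_self, ← h4, inv_mul_cancel_right, if_pos]
              group
            · rw [gr_ne _ _ _ h4, if_neg]
              intro h5
              apply h4
              rw [h5]
              group
          rw [sum_congr rfl h3]
          by_cases h4 : c.1 b s = 0
          · rw [h4]
            symm
            exact sum_eq_zero fun a _ => ite_self _
          · have h5 := hc b s h4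
            have h6 : (sig s)⁻¹ * b ∈ A := hA s (PC_supp c h4).1 _ _ (hsig s ⟨b, h5⟩) h5
            rw [sum_ite_eq' A, if_pos h6]
        have h2 : c ⊗ₜ[ZMod 2] w - ∑ a ∈ A, e a ⊗ₜ[ZMod 2] τ a w =
            ∑ a ∈ A, (((PR h q).tprod τ) a⁻¹ (e a ⊗ₜ[ZMod 2] τ a w) - e a ⊗ₜ[ZMod 2] τ a w) := by
          rw [sum_sub_distrib]
          congr 1
          conv_lhs => rw [h1, TensorProduct.sum_tmul]
          refine sum_congr rfl fun a _ => ?_
          rw [Representation.tprod_apply, TensorProduct.map_tmul, rho_cancel_inv]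
        rw [h2]
        exact Submodule.sum_mem _ fun a _ => sub_mem_Kr _ (Subgroup.mem_top _) _
      · rw [map_sum, map_sum, Finset.sum_apply, map_sum]
        have h1 : ∀ a ∈ A, TensorProduct.lift ((LinearMap.lsmul (ZMod 2) W).comp
            ((LinearMap.proj s).comp ((LinearMap.proj b).comp (PC f K B q).subtype))) (e a ⊗ₜ[ZMod 2] τ a w) =
            gr sig c.1 a b s • τ a w := by
          intro a ha
          rw [TensorProduct.lift.tmul]
          show (e a).1 b s • τ a w = _
          rw [he a ha]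
        rw [sum_congr rfl h1]
        split_ifs with hb
        · refine sum_congr rfl fun a ha => ?_
          rw [theta_tmul_sum h τ (e a) (τ a w) s (A := {sig s}) fun b' hb' => ?_, sum_singleton, he a ha, map_smul,
            rho_cancel_inv, hb]
          rw [he a ha] at hb'
          rw [mem_singleton]
          by_contra h2
          exact hb' (gr_ne _ _ _ h2)
        · refine sum_eq_zero fun a _ => ?_
          rw [gr_ne _ _ _ hb, zero_smul]
  have h1 : theta h τ q y = 0 := by
    have h2 := theta_Kr h τ hy1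
    rw [map_sub, hx, zero_sub, neg_eq_zero] at h2
    exact h2
  have h2 : y = 0 := by
    refine tensor_eq_zero y fun a s => ?_
    rw [hy2, h1]
    split_ifs
    · rw [Pi.zero_apply, map_zero]
    · rfl
  rwa [h2, sub_zero] at hy1

end

end Pool.Agent.CE
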